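import Mathlib

/-!
# Chains of vectors generated by an operator of order `p` in characteristic `p`
-/

set_option linter.unusedSectionVars false
set_option linter.unusedVariables false

namespace Pool.Agent.Y1.SM

open Finset Module Polynomial

/-- The vectors `c, N c, ..., N ^ (e - 1) c` are independent if the last one is not zero. -/
theorem chain_indep {F V : Type*} [Field F] [AddCommGroup V] [Module F V] (N : Module.End F V)
    (c : V) {D : ℕ} (h0 : (N ^ (D + 1)) c = 0) (h1 : (N ^ D) c ≠ 0) :
    LinearIndependent F (fun k : Fin (D + 1) => (N ^ (k : ℕ)) c) := by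
  classical
  rw [Fintype.linearIndependent_iff]
  intro a ha
  by_contra hne
  push Not at hne
  -- the least index with a nonzero coefficient
  obtain ⟨i0, hi0⟩ := hne
  let S : Finset (Fin (D + 1)) := univ.filter (fun i => a i ≠ 0)
  have hS : S.Nonempty := ⟨i0, mem_filter.2 ⟨mem_univ _, hi0⟩⟩
  let m := S.min' hS
  have hm : a m ≠ 0 := (mem_filter.1 (S.min'_mem hS)).2
  have hlt : ∀ i, i < m → a i = 0 := by
    intro i hi
    by_contra h2
    exact absurd (S.min'_le i (mem_filter.2 ⟨mem_univ _, h2⟩)) (not_le.2 hi)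
  have hz : ∀ n, D + 1 ≤ n → (N ^ n) c = 0 := by
    intro n hn
    obtain ⟨s, rfl⟩ := Nat.exists_eq_add_of_le hn
    rw [add_comm (D + 1) s, pow_add, Module.End.mul_apply, h0, map_zero]
  have h2 := congrArg (N ^ (D - (m : ℕ))) ha
  rw [map_zero, map_sum, Finset.sum_eq_single m] at h2
  · rw [map_smul, ← Module.End.mul_apply, ← pow_add] at h2
    have h3 : D - (m : ℕ) + (m : ℕ) = D := Nat.sub_add_cancel (Nat.lt_succ_iff.1 m.2)
    rw [h3] at h2
    rcases smul_eq_zero.1 h2 with h4 | h4
    · exact hm h4
    · exact h1 h4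
  · intro i _ hi
    rcases lt_or_gt_of_ne hi with h3 | h3
    · rw [hlt i h3, zero_smul, map_zero]
    · rw [map_smul, ← Module.End.mul_apply, ← pow_add, hz, smul_zero]
      have h4 : (m : ℕ) < (i : ℕ) := h3
      have h5 : (m : ℕ) ≤ D := Nat.lt_succ_iff.1 m.2
      omega
  · intro h
    exact absurd (mem_univ _) h

variable {p : ℕ} [Fact p.Prime]

theorem exists_chain {Z : Type*} (T : Module.End (ZMod p) (Z → ZMod p)) (c : Z → ZMod p)
    (hp : (T ^ p) c = c) (h1 : T c ≠ c) (Vc : Finset (ZMod p)) (hV : ∀ x, T c x ≠ c x → ∀ k, (T ^ k) c x ∈ Vc) :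
    ∃ D : ℕ, p ≤ D * Vc.card ∧
      LinearIndependent (ZMod p) (fun k : Fin (D + 1) => ((T - 1) ^ (k : ℕ)) c) := by
  classical
  have hprime : p.Prime := Fact.out
  set N : Module.End (ZMod p) (Z → ZMod p) := T - 1 with hN
  have hNp : (N ^ p) c = 0 := by
    have h2 : aeval T ((X - 1 : (ZMod p)[X]) ^ p) = aeval T (X ^ p - 1 : (ZMod p)[X]) := by
      congr 1
      rw [sub_pow_char, one_pow]
    rw [map_pow, map_sub, map_sub, map_pow, aeval_X, map_one] at h2
    rw [hN, h2, LinearMap.sub_apply, hp, Module.End.one_apply, sub_self]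
  have hex : ∃ e, (N ^ e) c = 0 := ⟨p, hNp⟩
  let e := Nat.find hex
  have he : (N ^ e) c = 0 := Nat.find_spec hex
  have hep : e ≤ p := Nat.find_min' hex hNp
  have hN1 : N c ≠ 0 := by
    rw [hN, LinearMap.sub_apply, Module.End.one_apply]
    exact sub_ne_zero.2 h1
  have he0 : e ≠ 0 := by
    intro h2
    rw [h2, pow_zero, Module.End.one_apply] at he
    apply hN1
    rw [he, map_zero]
  obtain ⟨D, hD⟩ := Nat.exists_eq_succ_of_ne_zero he0
  have hD' : e = D + 1 := hD
  have hDne : (N ^ D) c ≠ 0 := Nat.find_min hex (by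
    change D < e
    omega)
  refine ⟨D, ?_, chain_indep N c (by rw [← hD']; exact he) hDne⟩
  have hz : ∀ n, D + 1 ≤ n → (N ^ n) c = 0 := by
    intro n hn
    obtain ⟨s, rfl⟩ := Nat.exists_eq_add_of_le hn
    rw [add_comm (D + 1) s, pow_add, Module.End.mul_apply, ← hD', he, map_zero]
  -- a point where the function changes
  obtain ⟨x, hx⟩ := Function.ne_iff.1 h1
  -- the polynomial
  let Q : (ZMod p)[X] := ∑ j ∈ range (D + 1),
    C (((N ^ j) c) x * ((j.factorial : ℕ) : ZMod p)⁻¹) * descPochhammer (ZMod p) j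
  have hQdeg : Q.natDegree ≤ D := by
    refine natDegree_sum_le_of_forall_le _ _ fun j hj => ?_
    have hj' : j ≤ D := Nat.lt_succ_iff.1 (mem_range.1 hj)
    refine (natDegree_C_mul_le _ _).trans ?_
    have h2 : (descPochhammer (ZMod p) j).natDegree = j := descPochhammer_natDegree _ _
    rw [h2]
    exact hj'
  have hQeval : ∀ n : ℕ, Q.eval (n : ZMod p) = ((T ^ n) c) x := by
    intro n
    have h2 : T = N + 1 := by rw [hN, sub_add_cancel]
    have h3 : T ^ n = ∑ j ∈ range (n + 1), (n.choose j : Module.End (ZMod p) (Z → ZMod p)) * N ^ j := by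
      rw [h2, (Commute.one_right N).add_pow]
      refine Finset.sum_congr rfl fun j _ => ?_
      rw [one_pow, mul_one]
      exact (Nat.cast_commute _ _).symm
    have h4 : ((T ^ n) c) x = ∑ j ∈ range (n + 1), (n.choose j : ZMod p) * ((N ^ j) c) x := by
      rw [h3, LinearMap.sum_apply, Finset.sum_apply]
      refine Finset.sum_congr rfl fun j _ => ?_
      rw [Module.End.mul_apply]
      have h5 : ∀ (s : ℕ) (v : Z → ZMod p),
          (s : Module.End (ZMod p) (Z → ZMod p)) v = (s : ZMod p) • v := by
        intro s v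
        rw [← nsmul_one, LinearMap.smul_apply, Module.End.one_apply, Nat.cast_smul_eq_nsmul]
      rw [h5, Pi.smul_apply, smul_eq_mul]
    have h6 : ∀ j ∈ range (D + 1), eval (n : ZMod p)
        (C (((N ^ j) c) x * ((j.factorial : ℕ) : ZMod p)⁻¹) * descPochhammer (ZMod p) j) =
        (n.choose j : ZMod p) * ((N ^ j) c) x := by
      intro j hj
      have hj' : j < p := by
        have := mem_range.1 hj
        omega
      rw [eval_mul, eval_C, descPochhammer_eval_eq_descFactorial,
        Nat.descFactorial_eq_factorial_mul_choose]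
      have h7 : ((j.factorial : ℕ) : ZMod p) ≠ 0 := by
        intro h8
        rw [ZMod.natCast_eq_zero_iff, hprime.dvd_factorial] at h8
        omega
      push_cast
      field_simp
    rw [h4]
    change eval (n : ZMod p) (∑ j ∈ range (D + 1), _) = _
    rw [eval_finsetSum, Finset.sum_congr rfl h6]
    rcases le_total D n with h8 | h8
    · refine Finset.sum_subset (fun j hj => ?_) ?_
      · rw [mem_range] at hj ⊢
        omega
      · intro j _ hj
        rw [hz j (by rw [mem_range] at hj; omega), Pi.zero_apply, mul_zero]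
    · refine (Finset.sum_subset (fun j hj => ?_) ?_).symm
      · rw [mem_range] at hj ⊢
        omega
      · intro j _ hj
        rw [Nat.choose_eq_zero_of_lt (by rw [mem_range] at hj; omega), Nat.cast_zero, zero_mul]
  have hval : ∀ t : ZMod p, Q.eval t ∈ Vc := by
    intro t
    have h2 : ((t.val : ℕ) : ZMod p) = t := ZMod.natCast_zmod_val t
    rw [← h2, hQeval]
    exact hV x hx _
  have hnc : ∀ v : ZMod p, Q - C v ≠ 0 := by
    intro v h2
    have h3 : Q = C v := sub_eq_zero.1 h2
    have h4 := hQeval 0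
    have h5 := hQeval 1
    rw [h3, eval_C] at h4 h5
    rw [pow_zero, Module.End.one_apply] at h4
    rw [pow_one] at h5
    exact hx (h5.symm.trans h4)
  have hcount : ∀ v ∈ Vc, ((univ : Finset (ZMod p)).filter (fun t => Q.eval t = v)).card ≤ D := by
    intro v _
    have h2 : (univ : Finset (ZMod p)).filter (fun t => Q.eval t = v) ⊆ (Q - C v).roots.toFinset := by
      intro t ht
      rw [mem_filter] at ht
      rw [Multiset.mem_toFinset, mem_roots (hnc v), IsRoot.def, eval_sub, eval_C, ht.2, sub_self]
    refine (card_le_card h2).trans ?_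
    refine (Multiset.toFinset_card_le _).trans ?_
    refine (card_roots' _).trans ?_
    refine (natDegree_sub_le _ _).trans ?_
    rw [natDegree_C]
    exact max_le hQdeg (Nat.zero_le _)
  have h2 := Finset.card_le_mul_card_image_of_maps_to (s := (univ : Finset (ZMod p))) (t := Vc)
    (f := fun t => Q.eval t) (fun t _ => hval t) D hcount
  rw [card_univ, ZMod.card] at h2
  exact h2

end Pool.Agent.Y1.SM
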