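import Mathlib

/-!
# Sign vectors that are orthogonal to a subspace
-/

set_option linter.unusedSectionVars false
set_option linter.unusedVariables false

namespace Pool.Agent.Y1.SM

open Finset Module

/-- Solutions of `r` independent linear equations in variables that can take two values each. -/
theorem card_box_le {F : Type*} [Field F] {I : Type*} [Fintype I] [DecidableEq I] {r : ℕ}
    (w : Fin r → I → F) (hw : LinearIndependent F w) (a : I → Bool → F)
    (ha : ∀ i, Function.Injective (a i)) (b : Fin r → F)
    (S : Finset (I → Bool)) (hS : ∀ e ∈ S, ∀ k, ∑ i, w k i * a i (e i) = b k) :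
    r ≤ Fintype.card I ∧ S.card ≤ 2 ^ (Fintype.card I - r) := by
  classical
  -- the columns
  let W : Matrix (Fin r) I F := Matrix.of w
  let col : I → (Fin r → F) := fun i k => w k i
  have hrank : W.rank = r := by
    have h1 : LinearIndependent F W.row := hw
    have h2 := h1.rank_matrix
    rw [h2, Fintype.card_fin]
  have hspan : Submodule.span F (Set.range col) = ⊤ := by
    apply Submodule.eq_top_of_finrank_eq
    have h1 : W.rank = finrank F (Submodule.span F (Set.range W.col)) :=
      W.rank_eq_finrank_span_cols
    have h2 : W.col = col := rfl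
    rw [h2, hrank] at h1
    rw [← h1, finrank_fin_fun]
  obtain ⟨κ, f, hf, hfs, hfi⟩ := exists_linearIndependent' F col
  have _ : Finite κ := Finite.of_injective f hf
  have _ : Fintype κ := Fintype.ofFinite κ
  have hκ : Fintype.card κ = r := by
    have h1 : finrank F (Submodule.span F (Set.range (col ∘ f))) = Fintype.card κ :=
      finrank_span_eq_card hfi
    rw [hfs, hspan, finrank_top, finrank_fin_fun] at h1
    exact h1.symm
  have hr : r ≤ Fintype.card I := by
    rw [← hκ]
    exact Fintype.card_le_of_injective f hf
  refine ⟨hr, ?_⟩
  let R : Type _ := {i : I // i ∉ Set.range f}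
  let res : (I → Bool) → (R → Bool) := fun e i => e i.1
  have hinj : Set.InjOn res (S : Set (I → Bool)) := by
    intro e he e' he' hee
    have h0 : ∀ i, i ∉ Set.range f → e i = e' i := fun i hi => congrFun hee ⟨i, hi⟩
    have h1 : ∀ k, ∑ i, w k i * (a i (e i) - a i (e' i)) = 0 := by
      intro k
      have h2 := hS e he k
      have h3 := hS e' he' k
      simp only [mul_sub, sum_sub_distrib]
      rw [h2, h3, sub_self]
    have h2 : ∑ s : κ, (a (f s) (e (f s)) - a (f s) (e' (f s))) • (col ∘ f) s = 0 := by
      funext k
      rw [Finset.sum_apply, Pi.zero_apply, ← h1 k]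
      have h3 : ∑ i ∈ univ.image f, w k i * (a i (e i) - a i (e' i)) =
          ∑ i, w k i * (a i (e i) - a i (e' i)) := by
        refine Finset.sum_subset (Finset.subset_univ _) ?_
        intro i _ hi
        have h4 : i ∉ Set.range f := by
          intro h5
          apply hi
          obtain ⟨s, rfl⟩ := h5
          exact mem_image_of_mem f (mem_univ s)
        rw [h0 i h4, sub_self, mul_zero]
      rw [← h3, Finset.sum_image (fun x _ y _ h => hf h)]
      refine Finset.sum_congr rfl fun s _ => ?_
      simp only [Function.comp_apply, Pi.smul_apply, smul_eq_mul]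
      rw [mul_comm]
    have h3 := Fintype.linearIndependent_iff.1 hfi _ h2
    funext i
    by_cases hi : i ∈ Set.range f
    · obtain ⟨s, rfl⟩ := hi
      exact ha (f s) (sub_eq_zero.1 (h3 s))
    · exact h0 i hi
  have hcard : S.card ≤ Fintype.card (R → Bool) := by
    rw [← Finset.card_univ (α := R → Bool)]
    exact Finset.card_le_card_of_injOn res (fun _ _ => mem_univ _) hinj
  refine hcard.trans (le_of_eq ?_)
  rw [Fintype.card_fun, Fintype.card_bool]
  congr 1
  have h4 : Fintype.card R = Fintype.card I - Fintype.card κ := by
    have h5 : Fintype.card {i : I // i ∈ Set.range f} = Fintype.card κ := by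
      exact Fintype.card_congr (Equiv.ofInjective f hf).symm
    have h6 := Fintype.card_subtype_compl (fun i : I => i ∈ Set.range f)
    rw [h5] at h6
    rw [← h6]
  rw [h4, hκ]

end Pool.Agent.Y1.SM
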