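import Mathlib
import Pool.Agent.Y1.SM.Box

/-!
# Half systems of a set with a fixed point free involution
-/

set_option linter.unusedSectionVars false
set_option linter.unusedVariables false

namespace Pool.Agent.Y1.SM

open Finset Module

variable {Z : Type*} [Fintype Z] (inv : Z → Z)

/-- `Φ` contains exactly one element of each pair of conjugate elements. -/
def IsTy (Φ : Set Z) : Prop := ∀ x, x ∈ Φ ↔ inv x ∉ Φ

theorem exists_half (hinv : ∀ x, inv (inv x) = x) (hne : ∀ x, inv x ≠ x) :
    ∃ H : Finset Z, (∀ x, x ∈ H ↔ inv x ∉ H) ∧ 2 * H.card = Fintype.card Z := by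
  classical
  let s : Setoid Z :=
    { r := fun x y => y = x ∨ y = inv x
      iseqv := by
        refine ⟨fun x => Or.inl rfl, ?_, ?_⟩
        · rintro x y (rfl | rfl)
          · exact Or.inl rfl
          · exact Or.inr (hinv x).symm
        · rintro x y z (rfl | rfl) (rfl | rfl)
          · exact Or.inl rfl
          · exact Or.inr rfl
          · exact Or.inr rfl
          · exact Or.inl (hinv x) }
  have _ : DecidableRel s.r := Classical.decRel _
  let o : Z → Z := fun x => (Quotient.mk s x).out
  have ho : ∀ x, x = o x ∨ x = inv (o x) := fun x => Quotient.mk_out (s := s) x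
  have hoi : ∀ x, o (inv x) = o x := by
    intro x
    have : Quotient.mk s (inv x) = Quotient.mk s x := by
      apply Quotient.sound
      exact Or.inr (hinv x).symm
    simp only [o, this]
  let H : Finset Z := univ.filter (fun x => o x = x)
  have hH : ∀ x, x ∈ H ↔ inv x ∉ H := by
    intro x
    simp only [H, mem_filter, mem_univ, true_and, hoi]
    constructor
    · intro h1 h2
      exact hne x (h2.symm.trans h1)
    · intro h1
      rcases ho x with h2 | h2
      · exact h2.symm
      · exfalso
        apply h1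
        have h3 := congrArg inv h2
        rw [hinv] at h3
        exact h3.symm
  refine ⟨H, hH, ?_⟩
  have h1 : (H.image inv).card = H.card :=
    card_image_of_injective _ (Function.LeftInverse.injective hinv)
  have h2 : H.image inv = univ \ H := by
    ext x
    rw [mem_image, mem_sdiff]
    constructor
    · rintro ⟨y, hy, rfl⟩
      exact ⟨mem_univ _, (hH y).1 hy⟩
    · rintro ⟨-, hx⟩
      refine ⟨inv x, ?_, hinv x⟩
      by_contra h3
      exact hx ((hH x).2 h3)
  have h3 : (univ \ H).card = Fintype.card Z - H.card := by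
    rw [card_sdiff_of_subset (subset_univ _), card_univ]
  have h4 : H.card ≤ Fintype.card Z := card_le_univ _
  rw [h2, h3] at h1
  omega

/-- The sign vector of a type on a half system. -/
noncomputable def vec (H : Finset Z) (Φ : Set Z) : H → Bool := by
  classical
  exact fun x => decide (x.1 ∈ Φ)

theorem vec_inj {H : Finset Z} (hinv : ∀ x, inv (inv x) = x) (hH : ∀ x, x ∈ H ↔ inv x ∉ H)
    {Φ Ψ : Set Z} (hΦ : IsTy inv Φ) (hΨ : IsTy inv Ψ) (h : vec H Φ = vec H Ψ) : Φ = Ψ := by
  classical
  have h1 : ∀ x ∈ H, (x ∈ Φ ↔ x ∈ Ψ) := by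
    intro x hx
    have h2 : decide (x ∈ Φ) = decide (x ∈ Ψ) := congrFun h ⟨x, hx⟩
    exact decide_eq_decide.1 h2
  ext x
  by_cases hx : x ∈ H
  · exact h1 x hx
  · have h2 : inv x ∈ H := by
      by_contra h3
      exact hx ((hH x).2 h3)
    have h3 := h1 _ h2
    have h4 := hΦ x
    have h5 := hΨ x
    tauto

/-- The number of types. -/
theorem ncard_types (hinv : ∀ x, inv (inv x) = x) (hne : ∀ x, inv x ≠ x) {g : ℕ}
    (hg : Fintype.card Z = 2 * g) : {Φ : Set Z | IsTy inv Φ}.ncard = 2 ^ g := by
  classical
  obtain ⟨H, hH, hc⟩ := exists_half inv hinv hne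
  have hHg : H.card = g := by omega
  have h1 : Set.ncard (Set.univ : Set (H → Bool)) = 2 ^ g := by
    rw [Set.ncard_univ, Nat.card_eq_fintype_card, Fintype.card_fun, Fintype.card_bool,
      Fintype.card_coe, hHg]
  rw [← h1]
  refine Set.ncard_congr (fun Φ _ => vec H Φ) (fun _ _ => Set.mem_univ _) ?_ ?_
  · intro Φ Ψ hΦ hΨ h
    exact vec_inj inv hinv hH hΦ hΨ h
  · intro e _
    refine ⟨{x | if h : x ∈ H then e ⟨x, h⟩ = true else (∀ h' : inv x ∈ H, e ⟨inv x, h'⟩ = false)},
      ?_, ?_⟩
    · intro x
      simp only [Set.mem_ofPred_eq]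
      by_cases hx : x ∈ H
      · have h2 := (hH x).1 hx
        rw [dif_pos hx, dif_neg h2]
        simp only [hinv]
        constructor
        · intro h3 h4
          have := h4 hx
          rw [h3] at this
          exact Bool.noConfusion this
        · intro h3
          by_contra h4
          apply h3
          intro _
          exact Bool.eq_false_iff.2 h4
      · have h2 : inv x ∈ H := by
          by_contra h3
          exact hx ((hH x).2 h3)
        rw [dif_neg hx, dif_pos h2]
        constructor
        · intro h3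
          rw [h3 h2]
          exact Bool.noConfusion
        · intro h3 _
          exact Bool.eq_false_iff.2 h3
    · funext x
      simp only [vec, Set.mem_ofPred_eq, dif_pos x.2]
      simp

open Classical in
/-- The function with value `M` on the type `Φ` and `-M` outside of `Φ`. -/
noncomputable def sg {F : Type*} [Field F] (M : Z → F) (Φ : Set Z) (x : Z) : F :=
  if x ∈ Φ then M x else - M x

theorem sg_inv {F : Type*} [Field F] {M : Z → F} (hM : ∀ x, M (inv x) = M x) {Φ : Set Z}
    (hΦ : IsTy inv Φ) (x : Z) : sg M Φ (inv x) = - sg M Φ x := by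
  classical
  unfold sg
  rw [hM]
  by_cases h : x ∈ Φ
  · have h1 := (hΦ x).1 h
    rw [if_pos h, if_neg h1]
  · have h1 : inv x ∈ Φ := by
      by_contra h2
      exact h ((hΦ x).2 h2)
    rw [if_neg h, if_pos h1, neg_neg]

/-- A sum over all elements as a sum over a half system. -/
theorem sum_half {F : Type*} [Field F] (hinv : ∀ x, inv (inv x) = x) {H : Finset Z}
    (hH : ∀ x, x ∈ H ↔ inv x ∉ H) (f : Z → F) (hf : ∀ x, f (inv x) = f x) :
    ∑ x, f x = 2 * ∑ x ∈ H, f x := by
  classical
  rw [← Finset.sum_add_sum_compl H f, two_mul]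
  congr 1
  refine Finset.sum_nbij' inv inv ?_ ?_ ?_ ?_ ?_
  · intro x hx
    rw [mem_compl] at hx
    by_contra h3
    exact hx ((hH x).2 h3)
  · intro x hx
    rw [mem_compl]
    exact (hH x).1 hx
  · intro x _
    exact hinv x
  · intro x _
    exact hinv x
  · intro x _
    exact (hf x).symm

/-- **Types orthogonal to independent antisymmetric functions.** -/
theorem ncard_perp_le {F : Type*} [Field F] (h2 : (2 : F) ≠ 0) (hinv : ∀ x, inv (inv x) = x)
    (hne : ∀ x, inv x ≠ x) {M : Z → F} (hM0 : ∀ x, M x ≠ 0) (hM : ∀ x, M (inv x) = M x)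
    {g : ℕ} (hg : Fintype.card Z = 2 * g) {r : ℕ} (w : Fin r → Z → F)
    (hodd : ∀ k x, w k (inv x) = - w k x) (hw : LinearIndependent F w) :
    r ≤ g ∧ {Φ : Set Z | IsTy inv Φ ∧ ∀ k, ∑ x, w k x * sg M Φ x = 0}.ncard ≤ 2 ^ (g - r) := by
  classical
  obtain ⟨H, hH, hc⟩ := exists_half inv hinv hne
  have hHg : H.card = g := by omega
  let w' : Fin r → H → F := fun k x => w k x.1
  have hw' : LinearIndependent F w' := by
    rw [Fintype.linearIndependent_iff] at hw ⊢
    intro c hc0
    apply hw c
    funext x
    have h3 : ∀ x ∈ H, (∑ k, c k • w k) x = 0 := by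
      intro x hx
      have h4 := congrFun hc0 ⟨x, hx⟩
      rw [Finset.sum_apply] at h4 ⊢
      exact h4
    by_cases hx : x ∈ H
    · exact h3 x hx
    · have h4 : inv x ∈ H := by
        by_contra h5
        exact hx ((hH x).2 h5)
      have h5 := h3 _ h4
      rw [Finset.sum_apply] at h5 ⊢
      simp only [Pi.smul_apply, smul_eq_mul, hodd, mul_neg, Finset.sum_neg_distrib,
        neg_eq_zero] at h5 ⊢
      exact h5
  let a : H → Bool → F := fun x b => if b then M x.1 else - M x.1
  have ha : ∀ i, Function.Injective (a i) := by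
    intro i b b' hbb
    have h3 : M i.1 ≠ - M i.1 := by
      intro h4
      have h5 : (2 : F) * M i.1 = 0 := by
        rw [two_mul]
        nth_rewrite 2 [h4]
        exact add_neg_cancel _
      rcases mul_eq_zero.1 h5 with h6 | h6
      · exact h2 h6
      · exact hM0 _ h6
    cases b <;> cases b' <;> simp only [a, if_true, Bool.false_eq_true, if_false] at hbb
    · rfl
    · exact absurd hbb.symm h3
    · exact absurd hbb h3
    · rfl
  let S : Finset (H → Bool) := univ.filter (fun e => ∀ k, ∑ i, w' k i * a i (e i) = 0)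
  have h3 := card_box_le w' hw' a ha (fun _ => 0) S (fun e he => (mem_filter.1 he).2)
  rw [Fintype.card_coe, hHg] at h3
  refine ⟨h3.1, ?_⟩
  refine le_trans ?_ h3.2
  rw [← Set.ncard_coe_finset]
  refine Set.ncard_le_ncard_of_injOn (vec H) ?_ ?_ (Finset.finite_toSet S)
  · rintro Φ ⟨hΦ, h4⟩
    rw [mem_coe, mem_filter]
    refine ⟨mem_univ _, fun k => ?_⟩
    have h5 := h4 k
    rw [sum_half inv hinv hH _ (fun x => by rw [hodd, sg_inv inv hM hΦ, neg_mul_neg])] at h5
    have h6 := (mul_eq_zero.1 h5).resolve_left h2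
    rw [← h6, ← Finset.sum_coe_sort H]
    refine Finset.sum_congr rfl fun x _ => ?_
    simp only [w', a, vec, sg, decide_eq_true_eq]
  · intro Φ hΦ Ψ hΨ h
    exact vec_inj inv hinv hH hΦ.1 hΨ.1 h

end Pool.Agent.Y1.SM
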