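import Mathlib
import Pool.Agent.Y1.SM.Half
import Pool.Agent.Y1.SM.Chain

/-!
# Functions invariant under a Sylow subgroup
-/

set_option linter.unusedSectionVars false
set_option linter.unusedVariables false

namespace Pool.Agent.Y1.SM

open Finset Module MulAction

section act

variable {G : Type*} [Group G] {Z : Type*} [MulAction G Z] (F : Type*) [Field F]

/-- The action on functions. -/
def act (g : G) : Module.End F (Z → F) := LinearMap.funLeft F F (fun x => g⁻¹ • x)

variable {F}

@[simp]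
theorem act_apply (g : G) (c : Z → F) (x : Z) : act F g c x = c (g⁻¹ • x) := rfl

theorem act_one : act F (1 : G) = (1 : Module.End F (Z → F)) := by
  ext c x
  simp

theorem act_mul (g h : G) : act F (g * h) = (act F g * act F h : Module.End F (Z → F)) := by
  apply LinearMap.ext
  intro c
  funext x
  rw [Module.End.mul_apply, act_apply, act_apply, act_apply, mul_inv_rev, mul_smul]

theorem act_pow (g : G) (n : ℕ) : act F (g ^ n) = ((act F g) ^ n : Module.End F (Z → F)) := by
  induction n with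
  | zero => rw [pow_zero, pow_zero, act_one]
  | succ n ih => rw [pow_succ, pow_succ, act_mul, ih]

/-- The elements that leave a function invariant. -/
def stab (c : Z → F) : Subgroup G where
  carrier := {g | act F g c = c}
  one_mem' := by
    change act F (1 : G) c = c
    rw [act_one, Module.End.one_apply]
  mul_mem' := by
    intro g h hg hh
    change act F (g * h) c = c
    rw [act_mul, Module.End.mul_apply]
    have h1 : act F h c = c := hh
    have h2 : act F g c = c := hg
    rw [h1, h2]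
  inv_mem' := by
    intro g hg
    have h2 : act F g c = c := hg
    change act F g⁻¹ c = c
    nth_rewrite 1 [← h2]
    rw [← Module.End.mul_apply, ← act_mul, inv_mul_cancel, act_one, Module.End.one_apply]

theorem mem_stab {c : Z → F} {g : G} : g ∈ stab c ↔ act F g c = c := Iff.rfl

theorem stab_apply {c : Z → F} {g : G} (h : g ∈ stab c) (x : Z) : c (g • x) = c x := by
  have h1 : act F g⁻¹ c = c := (stab c).inv_mem h
  have h2 := congrFun h1 x
  rw [act_apply, inv_inv] at h2
  exact h2

theorem mem_stab_of {c : Z → F} {g : G} (h : ∀ x, c (g • x) = c x) : g ∈ stab c := by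
  have h1 : g⁻¹ ∈ stab c := by
    change act F g⁻¹ c = c
    funext x
    rw [act_apply, inv_inv, h]
  exact (stab c).inv_mem_iff.1 h1

end act

section fixed

variable {p : ℕ} [Fact p.Prime] {G : Type*} [Group G] {Z : Type*} [Finite Z] [MulAction G Z]

/-- A `p`-group has a nonzero fixed vector in every nonzero stable subspace. -/
theorem exists_fixed (P : Subgroup G) (hP : IsPGroup p P) (N : Submodule (ZMod p) (Z → ZMod p))
    (hN : ∀ g ∈ P, ∀ c ∈ N, act (ZMod p) g c ∈ N) (hne : N ≠ ⊥) :
    ∃ c ∈ N, c ≠ 0 ∧ P ≤ stab c := by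
  classical
  let _ : MulAction P N :=
    { smul := fun g c => ⟨act (ZMod p) (g : G) c.1, hN g.1 g.2 c.1 c.2⟩
      one_smul := by
        intro c
        apply Subtype.ext
        change act (ZMod p) ((1 : P) : G) c.1 = c.1
        rw [Subgroup.coe_one, act_one, Module.End.one_apply]
      mul_smul := by
        intro g h c
        apply Subtype.ext
        change act (ZMod p) ((g * h : P) : G) c.1 = act (ZMod p) (g : G) (act (ZMod p) (h : G) c.1)
        rw [Subgroup.coe_mul, act_mul, Module.End.mul_apply] }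
  have hdvd : p ∣ Nat.card N := by
    have h1 : Nat.card N = p ^ finrank (ZMod p) N := by
      rw [Module.natCard_eq_pow_finrank (K := ZMod p), Nat.card_zmod]
    rw [h1]
    apply dvd_pow_self
    rw [Ne, Submodule.finrank_eq_zero]
    exact hne
  have h0 : (0 : N) ∈ fixedPoints P N := by
    intro g
    apply Subtype.ext
    change act (ZMod p) (g : G) 0 = 0
    exact map_zero _
  obtain ⟨b, hb, hb0⟩ := hP.exists_fixed_point_of_prime_dvd_card_of_fixed_point N hdvd h0
  refine ⟨b.1, b.2, ?_, ?_⟩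
  · intro h1
    apply hb0
    exact (Subtype.ext h1).symm
  · intro g hg
    have h1 := hb ⟨g, hg⟩
    exact congrArg Subtype.val h1

/-- A function invariant under `P` but not under the normal closure is moved by an element that acts
on it with order `p`. -/
theorem exists_move (P : Subgroup G) (hP : IsPGroup p P) (c : Z → ZMod p)
    (hc : ¬ Subgroup.normalClosure (P : Set G) ≤ stab c) :
    ∃ y : G, act (ZMod p) y c ≠ c ∧ ((act (ZMod p) y) ^ p) c = c := by
  classical
  have h1 : ∃ y ∈ Group.conjugatesOfSet (P : Set G), y ∉ stab c := by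
    by_contra h2
    push Not at h2
    apply hc
    rw [Subgroup.normalClosure, Subgroup.closure_le]
    exact h2
  obtain ⟨y, hy, hyc⟩ := h1
  rw [Group.mem_conjugatesOfSet_iff] at hy
  obtain ⟨a, ha, hay⟩ := hy
  obtain ⟨n, hn⟩ := hP ⟨a, ha⟩
  have hn' : a ^ p ^ n = 1 := congrArg Subtype.val hn
  obtain ⟨b, hb⟩ := isConj_iff.1 hay
  have hyn : y ^ p ^ n = 1 := by
    rw [← hb, conj_pow, hn', mul_one, mul_inv_cancel]
  have hex : ∃ s, y ^ p ^ s ∈ stab c := ⟨n, by rw [hyn]; exact (stab c).one_mem⟩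
  let s := Nat.find hex
  have hs : y ^ p ^ s ∈ stab c := Nat.find_spec hex
  have hs0 : s ≠ 0 := by
    intro h2
    rw [h2, pow_zero, pow_one] at hs
    exact hyc hs
  obtain ⟨t, ht⟩ := Nat.exists_eq_succ_of_ne_zero hs0
  have hst : s = t + 1 := ht
  have ht' : y ^ p ^ t ∉ stab c := Nat.find_min hex (by
    change t < s
    omega)
  refine ⟨y ^ p ^ t, ht', ?_⟩
  rw [← act_pow, ← pow_mul, ← pow_succ, ← hst]
  exact hs

end fixed

section orbits

variable {p : ℕ} [Fact p.Prime] {G : Type*} [Group G] [Finite G] {Z : Type*} [Fintype Z]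
  [MulAction G Z] (inv : Z → Z)

/-- An element of odd order does not map an element to its conjugate. -/
theorem smul_ne_inv (hp2 : p ≠ 2) (P : Subgroup G) (hP : IsPGroup p P)
    (hinv : ∀ x, inv (inv x) = x) (hne : ∀ x, inv x ≠ x) (hG : ∀ (g : G) x, g • inv x = inv (g • x))
    (g : G) (hg : g ∈ P) (x : Z) : g • x ≠ inv x := by
  intro h
  obtain ⟨n, hn⟩ := hP ⟨g, hg⟩
  have hn' : g ^ p ^ n = 1 := congrArg Subtype.val hn
  have hodd : Odd (p ^ n) := ((Fact.out : p.Prime).odd_of_ne_two hp2).pow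
  have h1 : ∀ k : ℕ, g ^ (2 * k) • x = x := by
    intro k
    induction k with
    | zero => rw [mul_zero, pow_zero, one_smul]
    | succ k ih =>
      have h2 : g ^ (2 * (k + 1)) = g ^ (2 * k) * (g * g) := by
        rw [← pow_two, ← pow_add]
        congr 1
      rw [h2, mul_smul, mul_smul, h, hG, h, hinv, ih]
  obtain ⟨k, hk⟩ := hodd
  rw [hk, pow_succ] at hn'
  have h2 : (g ^ (2 * k) * g) • x = x := by rw [hn', one_smul]
  rw [mul_smul, h] at h2
  have h3 : g ^ (2 * k) • inv x = inv x := by rw [hG, h1]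
  rw [h3] at h2
  exact hne x h2

variable (S : Set Z)

/-- The orbits of `P` in `S`. -/
abbrev OrbIn (P : Subgroup G) : Type _ :=
  {ω : orbitRel.Quotient P Z // ∀ x, (Quotient.mk'' x : orbitRel.Quotient P Z) = ω → x ∈ S}

variable {S}

theorem mk_eq_iff {P : Subgroup G} {x y : Z} :
    (Quotient.mk'' x : orbitRel.Quotient P Z) = Quotient.mk'' y ↔ ∃ g ∈ P, g • y = x := by
  rw [Quotient.eq'', orbitRel_apply, mem_orbit_iff]
  constructor
  · rintro ⟨g, hg⟩
    exact ⟨g.1, g.2, hg⟩
  · rintro ⟨g, hg, h⟩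
    exact ⟨⟨g, hg⟩, h⟩

/-- The functions on `Z` that vanish outside of `S`, are antisymmetric, and invariant under `P`. -/
def Cand (F : Type*) [Field F] (S : Set Z) (P : Subgroup G) : Set (Z → F) :=
  {c | (∀ x, x ∉ S → c x = 0) ∧ (∀ x, c (inv x) = - c x) ∧ P ≤ stab c}

theorem ncard_cand_le (hp2 : p ≠ 2) (P : Subgroup G) (hP : IsPGroup p P)
    (hinv : ∀ x, inv (inv x) = x) (hne : ∀ x, inv x ≠ x) (hG : ∀ (g : G) x, g • inv x = inv (g • x))
    (hS : ∀ (g : G) x, x ∈ S → g • x ∈ S) (hSi : ∀ x, x ∈ S → inv x ∈ S) {m : ℕ}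
    (hm : Nat.card (OrbIn (G := G) S P) ≤ 2 * m) :
    (Cand inv (ZMod p) S P).ncard ≤ p ^ m := by
  classical
  have _ : Finite (OrbIn (G := G) S P) := inferInstance
  have _ : Fintype (OrbIn (G := G) S P) := Fintype.ofFinite _
  let f : orbitRel.Quotient P Z → orbitRel.Quotient P Z := Quotient.map' inv (by
    intro x y hxy
    rw [orbitRel_apply, mem_orbit_iff] at hxy ⊢
    obtain ⟨g, hg⟩ := hxy
    refine ⟨g, ?_⟩
    rw [← hg]
    exact hG g.1 y)
  have hf : ∀ x, f (Quotient.mk'' x) = Quotient.mk'' (inv x) := fun x => rfl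
  have hff : ∀ ω, f (f ω) = ω := by
    intro ω
    induction ω using Quotient.inductionOn' with
    | h x => rw [hf, hf, hinv]
  have hfS : ∀ ω : orbitRel.Quotient P Z, (∀ x, (Quotient.mk'' x : orbitRel.Quotient P Z) = ω → x ∈ S) →
      ∀ x, (Quotient.mk'' x : orbitRel.Quotient P Z) = f ω → x ∈ S := by
    intro ω hω x hx
    rw [← hinv x]
    apply hSi
    apply hω
    rw [← hf, hx, hff]
  let fS : OrbIn (G := G) S P → OrbIn (G := G) S P := fun ω => ⟨f ω.1, hfS ω.1 ω.2⟩
  have hfne : ∀ ω, fS ω ≠ ω := by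
    rintro ⟨ω, hω⟩ h
    have h1 : f ω = ω := congrArg Subtype.val h
    induction ω using Quotient.inductionOn' with
    | h x =>
      rw [hf, mk_eq_iff] at h1
      obtain ⟨g, hg, h2⟩ := h1
      exact smul_ne_inv inv hp2 P hP hinv hne hG g hg x h2
  obtain ⟨H, hH, hHc⟩ := exists_half fS (fun ω => Subtype.ext (hff ω.1)) hfne
  have hHm : H.card ≤ m := by
    rw [Nat.card_eq_fintype_card] at hm
    omega
  let rep : H → Z := fun ω => ω.1.1.out
  let res : (Z → ZMod p) → (H → ZMod p) := fun c ω => c (rep ω)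
  have hrep : ∀ (c : Z → ZMod p), P ≤ stab c → ∀ (x : Z) (ω : H), ω.1.1 = Quotient.mk'' x →
      c x = res c ω := by
    intro c hc x ω hω
    have h1 : (Quotient.mk'' (rep ω) : orbitRel.Quotient P Z) = Quotient.mk'' x := by
      rw [← hω]
      exact Quotient.out_eq' _
    rw [mk_eq_iff] at h1
    obtain ⟨g, hg, h2⟩ := h1
    change c x = c (rep ω)
    rw [← h2, stab_apply (hc hg)]
  have hinj : Set.InjOn res (Cand inv (ZMod p) S P) := by
    rintro c ⟨hc1, hc2, hc3⟩ c' ⟨hc1', hc2', hc3'⟩ hcc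
    funext x
    by_cases hx : x ∈ S
    · have hωS : ∀ y, (Quotient.mk'' y : orbitRel.Quotient P Z) = Quotient.mk'' x → y ∈ S := by
        intro y hy
        rw [mk_eq_iff] at hy
        obtain ⟨g, hg, h2⟩ := hy
        rw [← h2]
        exact hS g x hx
      by_cases hω : (⟨Quotient.mk'' x, hωS⟩ : OrbIn (G := G) S P) ∈ H
      · rw [hrep c hc3 x ⟨_, hω⟩ rfl, hrep c' hc3' x ⟨_, hω⟩ rfl, hcc]
      · have h1 : fS ⟨Quotient.mk'' x, hωS⟩ ∈ H := by
          by_contra h2
          exact hω ((hH _).2 h2)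
        have h2 : c (inv x) = c' (inv x) := by
          rw [hrep c hc3 (inv x) ⟨_, h1⟩ rfl, hrep c' hc3' (inv x) ⟨_, h1⟩ rfl, hcc]
        rw [hc2, hc2'] at h2
        exact neg_injective h2
    · rw [hc1 x hx, hc1' x hx]
  have h1 : (Cand inv (ZMod p) S P).ncard ≤ (Set.univ : Set (H → ZMod p)).ncard :=
    Set.ncard_le_ncard_of_injOn res (fun _ _ => Set.mem_univ _) hinj Set.finite_univ
  refine h1.trans ?_
  rw [Set.ncard_univ, Nat.card_eq_fintype_card, Fintype.card_fun, ZMod.card, Fintype.card_coe]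
  exact Nat.pow_le_pow_right (Fact.out : p.Prime).pos hHm

/-- The number of values of an invariant function. -/
theorem card_values_le (P : Subgroup G) {F : Type*} [Field F] (c : Z → F) (hc : P ≤ stab c)
    (hS : ∀ (g : G) x, x ∈ S → g • x ∈ S) :
    ∃ V : Finset F, V.card ≤ Nat.card (OrbIn (G := G) S P) ∧ ∀ x ∈ S, c x ∈ V := by
  classical
  have _ : Fintype (OrbIn (G := G) S P) := Fintype.ofFinite _
  refine ⟨univ.image (fun ω : OrbIn (G := G) S P => c ω.1.out), ?_, ?_⟩
  · rw [Nat.card_eq_fintype_card]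
    exact card_image_le
  · intro x hx
    rw [mem_image]
    refine ⟨⟨Quotient.mk'' x, ?_⟩, mem_univ _, ?_⟩
    · intro y hy
      rw [mk_eq_iff] at hy
      obtain ⟨g, hg, h2⟩ := hy
      rw [← h2]
      exact hS g x hx
    · have h1 : (Quotient.mk'' (Quotient.out (Quotient.mk'' x : orbitRel.Quotient P Z)) :
          orbitRel.Quotient P Z) = Quotient.mk'' x := Quotient.out_eq' _
      rw [mk_eq_iff] at h1
      obtain ⟨g, hg, h2⟩ := h1
      change c (Quotient.out (Quotient.mk'' x : orbitRel.Quotient P Z)) = c x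
      rw [← h2, stab_apply (hc hg)]

end orbits

end Pool.Agent.Y1.SM
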