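import Mathlib
import Pool.Agent.Y1.SM.Sylow

/-!
# Types orthogonal to a function that is invariant under a Sylow subgroup but not under its normal
closure
-/

set_option linter.unusedSectionVars false
set_option linter.unusedVariables false

namespace Pool.Agent.Y1.SM

open Finset Module MulAction

section rel

variable {G : Type*} [Group G] {Z : Type*} [Fintype Z] [MulAction G Z] {F : Type*} [Field F]

theorem sum_smul_eq (c u : Z → F) (g : G) :
    ∑ x, c x * u (g • x) = ∑ x, act F g c x * u x := by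
  refine Fintype.sum_equiv (MulAction.toPerm g) _ _ fun x => ?_
  rw [MulAction.toPerm_apply, act_apply, inv_smul_smul]

/-- The antisymmetric functions that vanish outside of `S` and whose translates are orthogonal
to `u`. -/
def relSpace (inv : Z → Z) (hG : ∀ (g : G) x, g • inv x = inv (g • x)) (S : Set Z)
    (hS : ∀ (g : G) x, x ∈ S → g • x ∈ S) (u : Z → F) : Submodule F (Z → F) where
  carrier := {c | (∀ x, x ∉ S → c x = 0) ∧ (∀ x, c (inv x) = - c x) ∧
    ∀ g : G, ∑ x, act F g c x * u x = 0}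
  zero_mem' := by
    refine ⟨fun _ _ => rfl, fun _ => ?_, fun g => ?_⟩
    · rw [Pi.zero_apply, Pi.zero_apply, neg_zero]
    · rw [map_zero]
      exact Finset.sum_eq_zero fun x _ => zero_mul _
  add_mem' := by
    rintro a b ⟨ha1, ha2, ha3⟩ ⟨hb1, hb2, hb3⟩
    refine ⟨fun x hx => ?_, fun x => ?_, fun g => ?_⟩
    · rw [Pi.add_apply, ha1 x hx, hb1 x hx, add_zero]
    · rw [Pi.add_apply, Pi.add_apply, ha2, hb2, neg_add]
    · simp only [map_add, Pi.add_apply, add_mul, Finset.sum_add_distrib]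
      rw [ha3 g, hb3 g, add_zero]
  smul_mem' := by
    rintro s a ⟨ha1, ha2, ha3⟩
    refine ⟨fun x hx => ?_, fun x => ?_, fun g => ?_⟩
    · rw [Pi.smul_apply, ha1 x hx, smul_zero]
    · rw [Pi.smul_apply, Pi.smul_apply, ha2, smul_neg]
    · simp only [map_smul, Pi.smul_apply, smul_eq_mul, mul_assoc]
      rw [← Finset.mul_sum, ha3 g, mul_zero]

theorem act_mem_relSpace {inv : Z → Z} {hG : ∀ (g : G) x, g • inv x = inv (g • x)} {S : Set Z}
    {hS : ∀ (g : G) x, x ∈ S → g • x ∈ S} {u : Z → F} (g : G) {c : Z → F}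
    (hc : c ∈ relSpace inv hG S hS u) : act F g c ∈ relSpace inv hG S hS u := by
  obtain ⟨h1, h2, h3⟩ := hc
  refine ⟨fun x hx => ?_, fun x => ?_, fun h => ?_⟩
  · rw [act_apply]
    apply h1
    intro h4
    apply hx
    have h5 := hS g _ h4
    rwa [smul_inv_smul] at h5
  · rw [act_apply, act_apply, hG, h2]
  · rw [← Module.End.mul_apply, ← act_mul]
    exact h3 _

theorem pow_mem_relSpace {inv : Z → Z} {hG : ∀ (g : G) x, g • inv x = inv (g • x)} {S : Set Z}
    {hS : ∀ (g : G) x, x ∈ S → g • x ∈ S} {u : Z → F} (g : G) {c : Z → F}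
    (hc : c ∈ relSpace inv hG S hS u) (k : ℕ) :
    ((act F g - 1) ^ k) c ∈ relSpace inv hG S hS u := by
  induction k with
  | zero => rwa [pow_zero, Module.End.one_apply]
  | succ k ih =>
    rw [pow_succ', Module.End.mul_apply, LinearMap.sub_apply, Module.End.one_apply]
    exact Submodule.sub_mem _ (act_mem_relSpace g ih) ih

end rel

variable {p : ℕ} [Fact p.Prime] {G : Type*} [Group G] [Finite G] {Z : Type*} [Fintype Z]
  [MulAction G Z] (inv : Z → Z) {S : Set Z}

theorem ncard_caseB (hp2 : p ≠ 2) (P : Subgroup G) (hP : IsPGroup p P)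
    (hinv : ∀ x, inv (inv x) = x) (hne : ∀ x, inv x ≠ x) (hG : ∀ (g : G) x, g • inv x = inv (g • x))
    (hS : ∀ (g : G) x, x ∈ S → g • x ∈ S) (hSi : ∀ x, x ∈ S → inv x ∈ S) {m : ℕ}
    (hm : Nat.card (OrbIn (G := G) S P) ≤ 2 * m) {M : Z → ZMod p} (hM0 : ∀ x, M x ≠ 0)
    (hM : ∀ x, M (inv x) = M x) {g : ℕ} (hg : Fintype.card Z = 2 * g) :
    {Φ : Set Z | IsTy inv Φ ∧ ∃ c ∈ Cand inv (ZMod p) S P,
      ¬ Subgroup.normalClosure (P : Set G) ≤ stab c ∧
        c ∈ relSpace inv hG S hS (sg M Φ)}.ncard * 2 ^ (p / (2 * m) + 2) ≤ p ^ m * 2 ^ g := by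
  classical
  have hprime : p.Prime := Fact.out
  have hfin : (Cand inv (ZMod p) S P).Finite := Set.toFinite _
  have h20 : (2 : ZMod p) ≠ 0 := by
    intro h
    have h1 : ((2 : ℕ) : ZMod p) = 0 := by exact_mod_cast h
    rw [ZMod.natCast_eq_zero_iff] at h1
    exact hp2 ((Nat.prime_dvd_prime_iff_eq hprime Nat.prime_two).1 h1)
  let B : (Z → ZMod p) → Set (Set Z) := fun c =>
    {Φ : Set Z | IsTy inv Φ ∧ ¬ Subgroup.normalClosure (P : Set G) ≤ stab c ∧
        c ∈ relSpace inv hG S hS (sg M Φ)}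
  have hB : ∀ c ∈ Cand inv (ZMod p) S P, (B c).ncard * 2 ^ (p / (2 * m) + 2) ≤ 2 ^ g := by
    rintro c ⟨hc1, hc2, hc3⟩
    by_cases hcK : Subgroup.normalClosure (P : Set G) ≤ stab c
    · have : B c = ∅ := by
        ext Φ
        simp only [B, Set.mem_ofPred_eq, Set.mem_empty_iff_false, iff_false]
        rintro ⟨_, h, _⟩
        exact h hcK
      rw [this, Set.ncard_empty, zero_mul]
      exact Nat.zero_le _
    obtain ⟨y, hy1, hy2⟩ := exists_move P hP c hcK
    obtain ⟨V, hV1, hV2⟩ := card_values_le P c hc3 hS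
    have hval : ∀ x, act (ZMod p) y c x ≠ c x → ∀ k, ((act (ZMod p) y) ^ k) c x ∈ V := by
      intro x hx k
      have hxS : x ∈ S := by
        by_contra h1
        apply hx
        rw [act_apply, hc1 x h1]
        apply hc1
        intro h2
        apply h1
        have h3 := hS y _ h2
        rwa [smul_inv_smul] at h3
      rw [← act_pow, act_apply]
      exact hV2 _ (hS _ _ hxS)
    obtain ⟨D, hD, hli⟩ := exists_chain (act (ZMod p) y) c hy2 hy1 V hval
    have hodd : ∀ (k : Fin (D + 1)) x, (((act (ZMod p) y) - 1) ^ (k : ℕ)) c (inv x) =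
        - (((act (ZMod p) y) - 1) ^ (k : ℕ)) c x := by
      intro k x
      have h1 : c ∈ relSpace inv hG S hS (0 : Z → ZMod p) := by
        refine ⟨hc1, hc2, fun g => ?_⟩
        exact Finset.sum_eq_zero fun x _ => mul_zero _
      exact (pow_mem_relSpace y h1 k).2.1 x
    have h1 := ncard_perp_le inv h20 hinv hne hM0 hM hg _ hodd hli
    have hD2 : p / (2 * m) + 2 ≤ D + 1 := by
      have h2 : p ≤ D * (2 * m) := hD.trans (Nat.mul_le_mul_left _ (hV1.trans hm))
      have h3 : p ≠ D * (2 * m) := by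
        intro h4
        have h5 : Even p := by
          rw [h4]
          exact ⟨D * m, by ring⟩
        exact hp2 ((hprime.even_iff).1 h5)
      have h6 : p < D * (2 * m) := lt_of_le_of_ne h2 h3
      have h7 : 0 < 2 * m := by
        rcases Nat.eq_zero_or_pos (2 * m) with h8 | h8
        · rw [h8, mul_zero] at h6
          omega
        · exact h8
      have h8 : p / (2 * m) < D := (Nat.div_lt_iff_lt_mul h7).2 h6
      omega
    have h3 : (B c).ncard ≤ 2 ^ (g - (D + 1)) := by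
      refine le_trans ?_ h1.2
      refine Set.ncard_le_ncard ?_ (Set.toFinite _)
      rintro Φ ⟨hΦ, _, hcΦ⟩
      refine ⟨hΦ, fun k => ?_⟩
      have h2 := (pow_mem_relSpace y hcΦ (k : ℕ)).2.2 1
      rw [act_one] at h2
      exact h2
    calc (B c).ncard * 2 ^ (p / (2 * m) + 2) ≤ 2 ^ (g - (D + 1)) * 2 ^ (D + 1) :=
          Nat.mul_le_mul h3 (Nat.pow_le_pow_right (by norm_num) hD2)
      _ = 2 ^ g := by rw [← pow_add, Nat.sub_add_cancel h1.1]
  have hsub : {Φ : Set Z | IsTy inv Φ ∧ ∃ c ∈ Cand inv (ZMod p) S P,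
      ¬ Subgroup.normalClosure (P : Set G) ≤ stab c ∧
        c ∈ relSpace inv hG S hS (sg M Φ)} ⊆ ⋃ c ∈ hfin.toFinset, B c := by
    rintro Φ ⟨hΦ, c, hc, h1, h2⟩
    rw [Set.mem_iUnion₂]
    exact ⟨c, hfin.mem_toFinset.2 hc, hΦ, h1, h2⟩
  calc _ ≤ (∑ c ∈ hfin.toFinset, (B c).ncard) * 2 ^ (p / (2 * m) + 2) :=
        Nat.mul_le_mul_right _ ((Set.ncard_le_ncard hsub (Set.toFinite _)).trans
          (Finset.set_ncard_biUnion_le _ _))
    _ = ∑ c ∈ hfin.toFinset, (B c).ncard * 2 ^ (p / (2 * m) + 2) := by rw [Finset.sum_mul]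
    _ ≤ ∑ c ∈ hfin.toFinset, 2 ^ g :=
        Finset.sum_le_sum fun c hc => hB c (hfin.mem_toFinset.1 hc)
    _ = (Cand inv (ZMod p) S P).ncard * 2 ^ g := by
        rw [Finset.sum_const, smul_eq_mul, ← Set.ncard_eq_toFinset_card _ hfin]
    _ ≤ _ := Nat.mul_le_mul_right _ (ncard_cand_le inv hp2 P hP hinv hne hG hS hSi hm)

end Pool.Agent.Y1.SM
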