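import Mathlib
import Pool.Agent.Y1.SM.CaseB

/-!
# Relations that are invariant under a normal subgroup
-/

set_option linter.unusedSectionVars false
set_option linter.unusedVariables false

namespace Pool.Agent.Y1.SM

open Finset Module MulAction

variable {G : Type*} [Group G] [Finite G] {X : Type*} [Fintype X] [MulAction G X] (K : Subgroup G)
  [hKn : K.Normal]

/-- The action on the orbits of a normal subgroup. -/
def gmap (g : G) : orbitRel.Quotient K X → orbitRel.Quotient K X :=
  Quotient.map' (fun x => g • x) (by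
    intro x y h
    rw [orbitRel_apply, mem_orbit_iff] at h ⊢
    obtain ⟨k, hk⟩ := h
    refine ⟨⟨g * k * g⁻¹, hKn.conj_mem _ k.2 g⟩, ?_⟩
    change (g * k * g⁻¹) • g • y = g • x
    rw [← hk, ← mul_smul, inv_mul_cancel_right, mul_smul]
    rfl)

theorem gmap_mk (g : G) (x : X) :
    gmap K g (Quotient.mk'' x) = (Quotient.mk'' (g • x) : orbitRel.Quotient K X) := rfl

theorem gmap_gmap (g h : G) (ω : orbitRel.Quotient K X) : gmap K g (gmap K h ω) = gmap K (g * h) ω := by
  induction ω using Quotient.inductionOn' with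
  | h x => rw [gmap_mk, gmap_mk, gmap_mk, mul_smul]

theorem gmap_one (ω : orbitRel.Quotient K X) : gmap K 1 ω = ω := by
  induction ω using Quotient.inductionOn' with
  | h x => rw [gmap_mk, one_smul]

theorem gmap_inj (g : G) : Function.Injective (gmap (X := X) K g) := by
  intro ω ω' h
  have h1 := congrArg (gmap K g⁻¹) h
  rwa [gmap_gmap, gmap_gmap, inv_mul_cancel, gmap_one, gmap_one] at h1

open Classical in
/-- The sum of `u` over an orbit of `K`. -/
noncomputable def bsum {F : Type*} [Field F] (u : X → F) (ω : orbitRel.Quotient K X) : F :=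
  ∑ x ∈ univ.filter (fun x => (Quotient.mk'' x : orbitRel.Quotient K X) = ω), u x

theorem bsum_gmap {F : Type*} [Field F] (u : X → F) (g : G) (ω : orbitRel.Quotient K X) :
    bsum K u (gmap K g ω) = bsum K (fun x => u (g • x)) ω := by
  classical
  rw [bsum, bsum]
  refine (Finset.sum_nbij' (fun x => g • x) (fun x => g⁻¹ • x) ?_ ?_ ?_ ?_ ?_).symm
  · intro x hx
    rw [mem_filter] at hx ⊢
    refine ⟨mem_univ _, ?_⟩
    rw [← gmap_mk, hx.2]
  · intro x hx
    rw [mem_filter] at hx ⊢
    refine ⟨mem_univ _, ?_⟩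
    rw [← gmap_mk, hx.2, gmap_gmap, inv_mul_cancel, gmap_one]
  · intro x _
    exact inv_smul_smul g x
  · intro x _
    exact smul_inv_smul g x
  · intro x _
    rfl

/-- A relation with coefficients invariant under `K` as a relation between the sums over the orbits
of `K`. -/
theorem rel_bsum [Fintype (orbitRel.Quotient K X)] {F : Type*} [Field F] (c u : X → F)
    (hc : K ≤ stab c) (hrel : ∀ g : G, ∑ x, c x * u (g • x) = 0) (g : G) :
    ∑ ω : orbitRel.Quotient K X, c ω.out * bsum K u (gmap K g ω) = 0 := by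
  classical
  rw [← hrel g, ← Finset.sum_fiberwise (s := (univ : Finset X))
    (g := fun x => (Quotient.mk'' x : orbitRel.Quotient K X))]
  refine Finset.sum_congr rfl fun ω _ => ?_
  rw [bsum_gmap, bsum, Finset.mul_sum]
  refine Finset.sum_congr rfl fun x hx => ?_
  rw [mem_filter] at hx
  congr 1
  have h1 : (Quotient.mk'' ω.out : orbitRel.Quotient K X) = Quotient.mk'' x := by
    rw [hx.2]
    exact Quotient.out_eq' _
  rw [mk_eq_iff] at h1
  obtain ⟨k, hk, h2⟩ := h1
  rw [← h2, stab_apply (hc hk)]

variable (inv : X → X)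

/-- If an orbit of `K` is its own conjugate there are no invariant antisymmetric functions. -/
theorem eq_zero_of_meet {F : Type*} [Field F] (h20 : (2 : F) ≠ 0) (htr : ∀ x y : X, ∃ g : G, g • x = y)
    (hG : ∀ (g : G) x, g • inv x = inv (g • x)) {k : G} (hk : k ∈ K) {x : X} (hx : k • x = inv x)
    (c : X → F) (hodd : ∀ x, c (inv x) = - c x) (hc : K ≤ stab c) : c = 0 := by
  funext y
  obtain ⟨g, rfl⟩ := htr x y
  have h1 : c (inv (g • x)) = c (g • x) := by
    rw [← hG, ← hx]
    have h2 : g • k • x = (g * k * g⁻¹) • g • x := by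
      rw [← mul_smul, ← mul_smul, inv_mul_cancel_right]
    rw [h2, stab_apply (hc (hKn.conj_mem _ hk g))]
  rw [hodd] at h1
  have h3 : (2 : F) * c (g • x) = 0 := by
    rw [two_mul]
    nth_rewrite 1 [← h1]
    exact neg_add_cancel _
  exact (mul_eq_zero.1 h3).resolve_left h20

/-- **The sum over one orbit of `K` is a root of a polynomial given by the other sums.** -/
theorem caseA_struct {F : Type*} [Field F] [DecidableEq F] (h20 : (2 : F) ≠ 0)
    (htr : ∀ x y : X, ∃ g : G, g • x = y) (x₀ : X)
    (hinv : ∀ x, inv (inv x) = x) (hne : ∀ x, inv x ≠ x) (hG : ∀ (g : G) x, g • inv x = inv (g • x))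
    (hfree : ∀ k ∈ K, ∀ x, k • x ≠ inv x) :
    ∃ (Y : Finset X) (R : (X → F) → Finset F) (d : ℕ),
      (∀ x, x ∈ Y ↔ ∃ k ∈ K, k • x₀ = x) ∧ Fintype.card X = 2 * (d * Y.card) ∧
      (∀ u, (R u).card ≤ d) ∧
      (∀ u u' : X → F, (∀ x, x ∉ Y → inv x ∉ Y → u x = u' x) → R u = R u') ∧
      ∀ u c : X → F, (∀ x, u (inv x) = - u x) → c ≠ 0 → (∀ x, c (inv x) = - c x) → K ≤ stab c →
        (∀ g : G, ∑ x, c x * u (g • x) = 0) → ∑ x ∈ Y, u x ∈ R u := by
  classical
  let B := orbitRel.Quotient K X
  have _ : Fintype B := Fintype.ofFinite _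
  let f : B → B := Quotient.map' inv (by
    intro x y hxy
    rw [orbitRel_apply, mem_orbit_iff] at hxy ⊢
    obtain ⟨g, hg⟩ := hxy
    refine ⟨g, ?_⟩
    rw [← hg]
    exact hG g.1 y)
  have hf : ∀ x, f (Quotient.mk'' x) = Quotient.mk'' (inv x) := fun x => rfl
  have hff : ∀ ω, f (f ω) = ω := by
    intro ω
    induction ω using Quotient.inductionOn' with
    | h x => rw [hf, hf, hinv]
  have hfne : ∀ ω, f ω ≠ ω := by
    intro ω h1
    induction ω using Quotient.inductionOn' with
    | h x =>
      rw [hf, mk_eq_iff] at h1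
      obtain ⟨g, hg, h2⟩ := h1
      exact hfree g hg x h2
  have hfg : ∀ (g : G) ω, gmap K g (f ω) = f (gmap K g ω) := by
    intro g ω
    induction ω using Quotient.inductionOn' with
    | h x => rw [hf, gmap_mk, gmap_mk, hf, hG]
  obtain ⟨H, hH, hHc⟩ := exists_half f hff hfne
  let ω₁ : B := Quotient.mk'' x₀
  have hmove : ∀ ω : B, ∃ g : G, gmap K g ω = ω₁ := by
    intro ω
    induction ω using Quotient.inductionOn' with
    | h x =>
      obtain ⟨g, hg⟩ := htr x x₀
      exact ⟨g, by rw [gmap_mk, hg]⟩
  choose γ hγ using hmove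
  let Y : Finset X := univ.filter (fun x => (Quotient.mk'' x : B) = ω₁)
  -- the matrix with zero diagonal
  let A' : (X → F) → Matrix H H F := fun u i j =>
    if i = j then 0 else bsum K u (gmap K (γ i.1) j.1)
  let R : (X → F) → Finset F := fun u => (-(A' u)).charpoly.roots.toFinset
  have hYmem : ∀ x, x ∈ Y ↔ ∃ k ∈ K, k • x₀ = x := by
    intro x
    rw [mem_filter]
    change x ∈ univ ∧ (Quotient.mk'' x : B) = Quotient.mk'' x₀ ↔ _
    rw [mk_eq_iff]
    exact ⟨fun h => h.2, fun h => ⟨mem_univ _, h⟩⟩
  have hfib : ∀ ω : B, (univ.filter (fun x : X => (Quotient.mk'' x : B) = ω)).card = Y.card := by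
    intro ω
    refine Finset.card_nbij' (fun x => γ ω • x) (fun x => (γ ω)⁻¹ • x) ?_ ?_ ?_ ?_
    · intro x hx
      rw [mem_coe, mem_filter] at hx ⊢
      refine ⟨mem_univ _, ?_⟩
      rw [← gmap_mk, hx.2, hγ]
    · intro x hx
      rw [mem_coe, mem_filter] at hx ⊢
      refine ⟨mem_univ _, ?_⟩
      rw [← gmap_mk, hx.2, ← hγ ω, gmap_gmap, inv_mul_cancel, gmap_one]
    · intro x _
      exact inv_smul_smul _ _
    · intro x _
      exact smul_inv_smul _ _
  refine ⟨Y, R, H.card, hYmem, ?_, ?_, ?_, ?_⟩
  · have h1 : Fintype.card X = ∑ ω : B, (univ.filter (fun x : X => (Quotient.mk'' x : B) = ω)).card := by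
      rw [← Finset.card_univ]
      exact Finset.card_eq_sum_card_fiberwise (fun _ _ => mem_univ _)
    rw [h1, Finset.sum_congr rfl fun ω _ => hfib ω, Finset.sum_const, card_univ, smul_eq_mul, ← hHc,
      mul_assoc]
  · intro u
    refine (Multiset.toFinset_card_le _).trans ?_
    refine (Polynomial.card_roots' _).trans ?_
    rw [Matrix.charpoly_natDegree_eq_dim, Fintype.card_coe]
  · intro u u' huu
    have h1 : A' u = A' u' := by
      funext i j
      simp only [A']
      by_cases hij : i = j
      · rw [if_pos hij, if_pos hij]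
      · rw [if_neg hij, if_neg hij, bsum, bsum]
        refine Finset.sum_congr rfl fun x hx => ?_
        rw [mem_filter] at hx
        apply huu
        · intro hxY
          rw [mem_filter] at hxY
          apply hij
          have h2 : gmap K (γ i.1) j.1 = gmap K (γ i.1) i.1 := by
            rw [hγ, ← hxY.2, hx.2]
          exact (Subtype.ext (gmap_inj K _ h2)).symm
        · intro hxY
          rw [mem_filter, ← hf, hx.2] at hxY
          have h2 : gmap K (γ i.1) (f j.1) = gmap K (γ i.1) i.1 := by
            rw [hγ, hfg, hxY.2]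
          have h3 := gmap_inj K _ h2
          have h4 := (hH j.1).1 j.2
          apply h4
          rw [h3]
          exact i.2
    simp only [R, h1]
  · intro u c hu hc0 hodd hcK hrel
    -- the coefficients on the blocks
    let cc : B → F := fun ω => c ω.out
    have hcc : ∀ x, cc (Quotient.mk'' x) = c x := by
      intro x
      have h1 : (Quotient.mk'' (Quotient.out (Quotient.mk'' x : B)) : B) = Quotient.mk'' x :=
        Quotient.out_eq' _
      rw [mk_eq_iff] at h1
      obtain ⟨k, hk, h2⟩ := h1
      change c (Quotient.out (Quotient.mk'' x : B)) = c x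
      rw [← h2, stab_apply (hcK hk)]
    have hccodd : ∀ ω, cc (f ω) = - cc ω := by
      intro ω
      induction ω using Quotient.inductionOn' with
      | h x => rw [hf, hcc, hcc, hodd]
    have hbodd : ∀ ω, bsum K u (f ω) = - bsum K u ω := by
      intro ω
      rw [bsum, bsum, ← Finset.sum_neg_distrib]
      refine Finset.sum_nbij' inv inv ?_ ?_ ?_ ?_ ?_
      · intro x hx
        rw [mem_filter] at hx ⊢
        exact ⟨mem_univ _, by rw [← hf, hx.2, hff]⟩
      · intro x hx
        rw [mem_filter] at hx ⊢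
        exact ⟨mem_univ _, by rw [← hf, hx.2]⟩
      · intro x _
        exact hinv x
      · intro x _
        exact hinv x
      · intro x _
        rw [hu, neg_neg]
    have h1 : ∀ g : G, ∑ ω ∈ H, cc ω * bsum K u (gmap K g ω) = 0 := by
      intro g
      have h2 := rel_bsum K c u hcK hrel g
      rw [sum_half f hff hH _ (fun ω => by
        rw [hfg, hbodd]
        change cc (f ω) * _ = cc ω * _
        rw [hccodd, neg_mul_neg])] at h2
      exact (mul_eq_zero.1 h2).resolve_left h20
    let v : H → F := fun i => cc i.1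
    have hv : v ≠ 0 := by
      intro h2
      apply hc0
      funext x
      rw [← hcc, Pi.zero_apply]
      by_cases hx : (Quotient.mk'' x : B) ∈ H
      · exact congrFun h2 ⟨_, hx⟩
      · have h3 : f (Quotient.mk'' x) ∈ H := by
          by_contra h4
          exact hx ((hH _).2 h4)
        have h4 : cc (f (Quotient.mk'' x)) = 0 := congrFun h2 ⟨_, h3⟩
        rw [hccodd] at h4
        exact neg_eq_zero.1 h4
    set τ : F := ∑ x ∈ Y, u x with hτ
    have hmul : (Matrix.scalar H τ + A' u).mulVec v = 0 := by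
      funext i
      rw [Pi.zero_apply, ← h1 (γ i.1), ← Finset.sum_coe_sort H]
      rw [Matrix.mulVec, dotProduct]
      refine Finset.sum_congr rfl fun j _ => ?_
      rw [mul_comm]
      congr 1
      rw [Matrix.add_apply, Matrix.scalar_apply]
      simp only [A']
      by_cases hij : i = j
      · rw [if_pos hij, add_zero, hij, Matrix.diagonal_apply_eq, hγ]
        rfl
      · rw [if_neg hij, Matrix.diagonal_apply_ne _ hij, zero_add]
    have hdet : (Matrix.scalar H τ + A' u).det = 0 :=
      Matrix.exists_mulVec_eq_zero_iff.1 ⟨v, hv, hmul⟩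
    have h2 : ((-(A' u)).charpoly).eval τ = 0 := by
      rw [Matrix.eval_charpoly, sub_neg_eq_add]
      exact hdet
    rw [Multiset.mem_toFinset, Polynomial.mem_roots (Matrix.charpoly_monic _).ne_zero]
    exact h2

end Pool.Agent.Y1.SM
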