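import Mathlib
import Pool.Agent.Y1.SM.CaseA

/-!
# Independence of relations
-/

set_option linter.unusedSectionVars false
set_option linter.unusedVariables false

namespace Pool.Agent.Y1.SM

open Finset Module MulAction

/-- A relation over the integers between independent blocks is a relation for each block. -/
theorem indep_blocks {J : Type*} [Fintype J] [DecidableEq J] {G : Type*} [Group G] [Fintype G]
    {Z : Type*} [Fintype Z] [MulAction G Z] (β : Z → J) (inv : Z → Z) (e : Z → ℤ)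
    (he : ∀ x, e (inv x) = -e x) (hG : ∀ (g : G) x, g • inv x = inv (g • x))
    (h : ∀ x y : Z, β x ≠ β y → ∃ g : G, g • x = x ∧ g • y = inv y)
    (c : Z → ℤ) (hrel : ∀ g : G, ∑ x, c x * e (g • x) = 0) (j : J) (g : G) :
    ∑ x, (if β x = j then c x else 0) * e (g • x) = 0 := by
  classical
  let T : J → G → ℤ := fun j g => ∑ x, (if β x = j then c x else 0) * e (g • x)
  have hcross : ∀ j j', j ≠ j' → ∑ g, T j g * T j' g = 0 := by
    intro j j' hjj
    have h0 : ∀ x y, β x ≠ β y → ∑ g : G, e (g • x) * e (g • y) = 0 := by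
      intro x y hxy
      obtain ⟨s, hs1, hs2⟩ := h x y hxy
      have h1 : ∑ g : G, e ((g * s) • x) * e ((g * s) • y) =
          ∑ g : G, e (g • x) * e (g • y) :=
        Fintype.sum_equiv (Equiv.mulRight s) _ _ (fun g => rfl)
      have h2 : ∑ g : G, e ((g * s) • x) * e ((g * s) • y) =
          - ∑ g : G, e (g • x) * e (g • y) := by
        rw [← Finset.sum_neg_distrib]
        refine Finset.sum_congr rfl fun g _ => ?_
        rw [mul_smul, mul_smul, hs1, hs2, hG, he, mul_neg]
      omega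
    calc ∑ g, T j g * T j' g
        = ∑ g, ∑ x, ∑ y, ((if β x = j then c x else 0) * (if β y = j' then c y else 0)) *
            (e (g • x) * e (g • y)) := by
          refine Finset.sum_congr rfl fun g _ => ?_
          rw [Finset.sum_mul_sum]
          refine Finset.sum_congr rfl fun x _ => Finset.sum_congr rfl fun y _ => ?_
          ring
      _ = ∑ x, ∑ y, ((if β x = j then c x else 0) * (if β y = j' then c y else 0)) *
            ∑ g : G, (e (g • x) * e (g • y)) := by
          rw [Finset.sum_comm]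
          refine Finset.sum_congr rfl fun x _ => ?_
          rw [Finset.sum_comm]
          refine Finset.sum_congr rfl fun y _ => ?_
          rw [Finset.mul_sum]
      _ = 0 := by
          refine Finset.sum_eq_zero fun x _ => Finset.sum_eq_zero fun y _ => ?_
          by_cases hx : β x = j
          · by_cases hy : β y = j'
            · rw [h0 x y (by rw [hx, hy]; exact hjj), mul_zero]
            · rw [if_neg hy, mul_zero, zero_mul]
          · rw [if_neg hx, zero_mul, zero_mul]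
  have hsum : ∀ g, ∑ j, T j g = 0 := by
    intro g
    rw [← hrel g, Finset.sum_comm]
    refine Finset.sum_congr rfl fun x _ => ?_
    rw [← Finset.sum_mul, Finset.sum_ite_eq, if_pos (Finset.mem_univ _)]
  have hsq : ∑ j, ∑ g, T j g * T j g = 0 := by
    have h1 : ∑ g : G, (∑ j, T j g) * (∑ j, T j g) = 0 := by
      refine Finset.sum_eq_zero fun g _ => ?_
      rw [hsum g, zero_mul]
    have h2 : ∑ g : G, (∑ j, T j g) * (∑ j, T j g) = ∑ j, ∑ j', ∑ g, T j g * T j' g := by
      calc ∑ g : G, (∑ j, T j g) * (∑ j, T j g)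
          = ∑ g : G, ∑ j, ∑ j', T j g * T j' g :=
            Finset.sum_congr rfl fun g _ => Finset.sum_mul_sum _ _ _ _
        _ = _ := by
          rw [Finset.sum_comm]
          exact Finset.sum_congr rfl fun j _ => Finset.sum_comm
    rw [h2] at h1
    rw [← h1]
    refine Finset.sum_congr rfl fun j _ => ?_
    rw [Finset.sum_eq_single j]
    · intro j' _ hne
      exact hcross j j' (Ne.symm hne)
    · intro hj
      exact absurd (Finset.mem_univ j) hj
  have h3 := (Finset.sum_eq_zero_iff_of_nonneg (fun j _ =>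
    Finset.sum_nonneg fun g _ => mul_self_nonneg (T j g))).1 hsq j (Finset.mem_univ j)
  have h4 := (Finset.sum_eq_zero_iff_of_nonneg (fun g _ => mul_self_nonneg (T j g))).1 h3 g
    (Finset.mem_univ g)
  exact mul_self_eq_zero.1 h4

variable {p : ℕ} [Fact p.Prime] {G : Type*} [Group G] [Finite G] {Z : Type*} [Fintype Z]
  [MulAction G Z] (inv : Z → Z)

/-- Modulo `p`: the functions invariant under a normal subgroup of an index prime to `p`.  From such
a function in a space of relations one obtains a function supported on one class. -/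
theorem exists_one_class (hp2 : p ≠ 2) (K : Subgroup G) [hKn : K.Normal] (hK : ¬ p ∣ K.index)
    (hG : ∀ (g : G) x, g • inv x = inv (g • x)) {ι : Type*} (comp : Z → ι)
    (hcomp : ∀ (g : G) x, comp (g • x) = comp x) {S : Set Z}
    (hS : ∀ (g : G) x, x ∈ S → g • x ∈ S) (u : Z → ZMod p) (c : Z → ZMod p)
    (hc : c ∈ relSpace inv hG S hS u) (hcK : K ≤ stab c) (x₀ : Z) (hx₀ : c x₀ ≠ 0)
    (hind : ∀ y, y ∈ S → comp y ≠ comp x₀ → c y ≠ 0 → ∃ g : G, (∃ k ∈ K, g • x₀ = k • x₀) ∧
      ∃ k ∈ K, g • y = k • inv y) :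
    ∃ c' : Z → ZMod p, c' ∈ relSpace inv hG S hS u ∧ K ≤ stab c' ∧ c' x₀ ≠ 0 ∧
      ∀ y, comp y ≠ comp x₀ → c' y = 0 := by
  classical
  have hprime : p.Prime := Fact.out
  have h20 : (2 : ZMod p) ≠ 0 := by
    intro h
    have h1 : ((2 : ℕ) : ZMod p) = 0 := by exact_mod_cast h
    rw [ZMod.natCast_eq_zero_iff] at h1
    exact hp2 ((Nat.prime_dvd_prime_iff_eq hprime Nat.prime_two).1 h1)
  obtain ⟨hc1, hc2, hc3⟩ := id hc
  -- the translates depend on the class modulo `K`
  let A : G ⧸ K → (Z → ZMod p) := fun q => act (ZMod p) q.out c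
  have hA : ∀ g : G, A (g : G ⧸ K) = act (ZMod p) g c := by
    intro g
    obtain ⟨k, hk⟩ := QuotientGroup.mk_out_eq_mul K g
    change act (ZMod p) (Quotient.out (g : G ⧸ K)) c = _
    rw [hk, act_mul, Module.End.mul_apply]
    congr 1
    exact hcK k.2
  -- the stabilizer of the class of `x₀`
  let Γ : Subgroup G :=
    { carrier := {g | ∃ k ∈ K, g • x₀ = k • x₀}
      one_mem' := ⟨1, K.one_mem, rfl⟩
      mul_mem' := by
        rintro a b ⟨k, hk, hk'⟩ ⟨l, hl, hl'⟩
        refine ⟨a * l * a⁻¹ * k, K.mul_mem (hKn.conj_mem l hl a) hk, ?_⟩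
        rw [mul_smul, hl', mul_smul (a * l * a⁻¹), ← hk', ← mul_smul, ← mul_smul,
          inv_mul_cancel_right]
      inv_mem' := by
        rintro a ⟨k, hk, hk'⟩
        refine ⟨a⁻¹ * k⁻¹ * a, ?_, ?_⟩
        · have := hKn.conj_mem k⁻¹ (K.inv_mem hk) a⁻¹
          rwa [inv_inv] at this
        · rw [mul_smul, mul_smul, hk', inv_smul_smul] }
  have hΓ : ∀ g, g ∈ Γ ↔ ∃ k ∈ K, g • x₀ = k • x₀ := fun g => Iff.rfl
  let Γ' : Subgroup (G ⧸ K) := Γ.map (QuotientGroup.mk' K)
  have _ : Fintype Γ' := Fintype.ofFinite _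
  have hcardΓ : ((Fintype.card Γ' : ℕ) : ZMod p) ≠ 0 := by
    intro h1
    rw [ZMod.natCast_eq_zero_iff] at h1
    apply hK
    refine h1.trans ?_
    rw [← Nat.card_eq_fintype_card, Subgroup.index]
    exact Subgroup.card_subgroup_dvd_card Γ'
  let c' : Z → ZMod p := ∑ q : Γ', A q.1
  have hrep : ∀ q : Γ', ∃ g ∈ Γ, (g : G ⧸ K) = q.1 := by
    intro q
    obtain ⟨g, hg, h1⟩ := Subgroup.mem_map.1 q.2
    exact ⟨g, hg, h1⟩
  have hmem : c' ∈ relSpace inv hG S hS u := by
    refine Submodule.sum_mem _ fun q _ => ?_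
    exact act_mem_relSpace _ hc
  have hx : c' x₀ ≠ 0 := by
    have h1 : c' x₀ = (Fintype.card Γ' : ZMod p) * c x₀ := by
      change (∑ q : Γ', A q.1) x₀ = _
      rw [Finset.sum_apply]
      have h2 : ∀ q : Γ', A q.1 x₀ = c x₀ := by
        intro q
        obtain ⟨g, hg, hgq⟩ := hrep q
        rw [← hgq, hA, act_apply]
        obtain ⟨k, hk, h3⟩ := (hΓ g⁻¹).1 (Γ.inv_mem hg)
        rw [h3, stab_apply (hcK hk)]
      rw [Finset.sum_congr rfl fun q _ => h2 q, Finset.sum_const, Finset.card_univ, nsmul_eq_mul]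
    rw [h1]
    exact mul_ne_zero hcardΓ hx₀
  refine ⟨c', hmem, ?_, hx, ?_⟩
  · intro k hk
    rw [mem_stab]
    change act (ZMod p) k (∑ q : Γ', A q.1) = ∑ q : Γ', A q.1
    rw [map_sum]
    refine Finset.sum_congr rfl fun q _ => ?_
    obtain ⟨g, hg, hgq⟩ := hrep q
    rw [← hgq, hA, ← Module.End.mul_apply, ← act_mul]
    have h1 : k * g = g * (g⁻¹ * k * g) := by group
    rw [h1, act_mul, Module.End.mul_apply]
    congr 1
    apply hcK
    have := hKn.conj_mem k hk g⁻¹
    rwa [inv_inv] at this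
  · intro y hy
    by_cases hyS : y ∈ S
    · -- either all translates vanish at `y` or the sum changes its sign
      by_cases hex : ∃ g ∈ Γ, c (g⁻¹ • y) ≠ 0
      · obtain ⟨g₀, hg₀, hne⟩ := hex
        obtain ⟨γ, ⟨k₁, hk₁, h1⟩, k₂, hk₂, h2⟩ := hind (g₀⁻¹ • y) (hS _ _ hyS)
          (by rw [hcomp]; exact hy) hne
        have hγ : γ ∈ Γ := (hΓ γ).2 ⟨k₁, hk₁, h1⟩
        -- conjugate `γ`
        let δ : G := g₀ * γ * g₀⁻¹
        have hδ : δ ∈ Γ := Γ.mul_mem (Γ.mul_mem hg₀ hγ) (Γ.inv_mem hg₀)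
        have hδy : δ • y = (g₀ * k₂ * g₀⁻¹) • inv y := by
          change (g₀ * γ * g₀⁻¹) • y = _
          rw [mul_smul, mul_smul, h2, mul_smul, mul_smul, hG g₀⁻¹ y]
        have hk₃ : g₀ * k₂ * g₀⁻¹ ∈ K := hKn.conj_mem k₂ hk₂ g₀
        have hδ' : ((δ⁻¹ : G) : G ⧸ K) ∈ Γ' := Subgroup.mem_map.2 ⟨δ⁻¹, Γ.inv_mem hδ, rfl⟩
        have h3 : c' y = - c' y := by
          change (∑ q : Γ', A q.1) y = - (∑ q : Γ', A q.1) y
          rw [Finset.sum_apply, ← Finset.sum_neg_distrib]
          refine (Fintype.sum_equiv (Equiv.mulLeft (⟨_, hδ'⟩ : Γ')) _ _ fun q => ?_).symm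
          obtain ⟨g, hg, hgq⟩ := hrep q
          change - A q.1 y = A ((((δ⁻¹ : G) : G ⧸ K)) * q.1) y
          rw [← hgq, ← QuotientGroup.mk_mul, hA, hA, act_apply, act_apply, mul_inv_rev, inv_inv,
            mul_smul, hδy]
          have h4 : g⁻¹ • (g₀ * k₂ * g₀⁻¹) • inv y =
              (g⁻¹ * (g₀ * k₂ * g₀⁻¹) * (g⁻¹)⁻¹) • inv (g⁻¹ • y) := by
            rw [← hG, ← mul_smul, ← mul_smul, inv_mul_cancel_right]
          rw [h4, stab_apply (hcK (hKn.conj_mem _ hk₃ g⁻¹)), hc2]
        have h4 : (2 : ZMod p) * c' y = 0 := by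
          rw [two_mul]
          nth_rewrite 1 [h3]
          exact neg_add_cancel _
        exact (mul_eq_zero.1 h4).resolve_left h20
      · push Not at hex
        change (∑ q : Γ', A q.1) y = 0
        rw [Finset.sum_apply]
        refine Finset.sum_eq_zero fun q _ => ?_
        obtain ⟨g, hg, hgq⟩ := hrep q
        rw [← hgq, hA, act_apply]
        exact hex g hg
    · exact hmem.1 y hyS

end Pool.Agent.Y1.SM
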