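import Mathlib
import Pool.Agent.TH170.MF.Weight

/-!
# The probability of a value of a sum of independent signs with weights modulo a prime
-/

set_option linter.unusedSectionVars false
set_option linter.unusedVariables false

namespace Pool.Agent.Y1.SM

open Finset Real Pool.Agent.TH170.MF

variable (p : ℕ) [Fact p.Prime]

theorem map_sum_char {A κ : Type*} [AddCommGroup A] (ψ : AddChar A ℂ) (s : Finset κ) (f : κ → A) :
    ψ (∑ k ∈ s, f k) = ∏ k ∈ s, ψ (f k) := by
  classical
  induction s using Finset.induction_on with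
  | empty => rw [sum_empty, prod_empty, AddChar.map_zero_eq_one]
  | insert k s hk ih => rw [sum_insert hk, prod_insert hk, AddChar.map_add_eq_mul, ih]

theorem fourier_le {N : Type*} [Fintype N] [DecidableEq N] (a : N → ZMod p) (t : ZMod p) :
    (((univ : Finset (N → Bool)).filter (fun e => ∑ i, (if e i then a i else - a i) = t)).card : ℝ) *
      p ≤ 2 ^ Fintype.card N * ∑ k : ZMod p, ∏ i, cw p (k * a i) := by
  classical
  set ψ : AddChar (ZMod p) ℂ := ZMod.stdAddChar with hψ
  have hprim : ψ.IsPrimitive := ZMod.isPrimitive_stdAddChar p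
  let s : (N → Bool) → ZMod p := fun e => ∑ i, (if e i then a i else - a i)
  let r : (N → Bool) → ℝ := fun e => if s e - t = 0 then (p : ℝ) else 0
  have hr0 : ∀ e, 0 ≤ r e := fun e => by
    simp only [r]
    split_ifs
    · exact Nat.cast_nonneg p
    · exact le_rfl
  have hr : ∀ e, ((r e : ℝ) : ℂ) = ∑ k : ZMod p, ψ (k * (s e - t)) := by
    intro e
    rw [AddChar.sum_mulShift _ hprim, ZMod.card]
    simp only [r]
    split_ifs
    · push_cast
      rfl
    · push_cast
      rfl
  have hgood : (((univ : Finset (N → Bool)).filter (fun e => s e = t)).card : ℝ) * p ≤ ∑ e, r e := by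
    rw [← nsmul_eq_mul, ← sum_const]
    refine (sum_le_sum fun e he => ?_).trans
      (sum_le_sum_of_subset_of_nonneg (filter_subset _ _) fun e _ _ => hr0 e)
    have h1 := (mem_filter.1 he).2
    simp only [r]
    rw [if_pos (sub_eq_zero.2 h1)]
  refine hgood.trans ?_
  have h1 : ((∑ e, r e : ℝ) : ℂ) =
      ∑ k : ZMod p, ψ (-(k * t)) * ∏ i, (ψ (k * a i) + ψ (-(k * a i))) := by
    push_cast
    rw [sum_congr rfl fun e _ => hr e, sum_comm]
    refine sum_congr rfl fun k _ => ?_
    have h2 : ∀ e : N → Bool, ψ (k * (s e - t)) =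
        ψ (-(k * t)) * ∏ i, (if e i then ψ (k * a i) else ψ (-(k * a i))) := by
      intro e
      have h3 : k * (s e - t) = -(k * t) + ∑ i, (if e i then k * a i else -(k * a i)) := by
        simp only [s]
        rw [mul_sub, mul_sum, sub_eq_neg_add]
        congr 1
        refine sum_congr rfl fun i _ => ?_
        split_ifs
        · rfl
        · rw [mul_neg]
      rw [h3, AddChar.map_add_eq_mul, map_sum_char]
      congr 1
      refine prod_congr rfl fun i _ => ?_
      split_ifs
      · rfl
      · rfl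
    rw [sum_congr rfl fun e _ => h2 e, ← mul_sum]
    congr 1
    have h3 := prod_univ_sum (t := fun _ : N => (univ : Finset Bool))
      (f := fun i (b : Bool) => if b then ψ (k * a i) else ψ (-(k * a i)))
    rw [Fintype.piFinset_univ] at h3
    rw [← h3]
    refine prod_congr rfl fun i _ => ?_
    rw [Fintype.sum_bool]
    simp
  have h2 : (∑ e, r e : ℝ) = ‖((∑ e, r e : ℝ) : ℂ)‖ := by
    rw [Complex.norm_real, Real.norm_eq_abs, abs_of_nonneg (sum_nonneg fun e _ => hr0 e)]
  rw [h2, h1]
  refine (norm_sum_le _ _).trans (le_of_eq ?_)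
  rw [mul_sum]
  refine sum_congr rfl fun k _ => ?_
  rw [norm_mul, AddChar.norm_apply, one_mul, norm_prod, ← card_univ, ← prod_const,
    ← prod_mul_distrib]
  refine prod_congr rfl fun i _ => ?_
  rw [cw, ← hψ]
  ring

/-- The inequality of the arithmetic and geometric means. -/
theorem prod_le_mean {N : Type*} [Fintype N] [Nonempty N] (b : N → ℝ) (hb : ∀ i, 0 ≤ b i) :
    ∏ i, b i ≤ (∑ i, b i ^ (Fintype.card N : ℝ)) / Fintype.card N := by
  classical
  have hn : (Fintype.card N : ℝ) ≠ 0 := Nat.cast_ne_zero.2 Fintype.card_ne_zero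
  have h1 := Real.geom_mean_le_arith_mean_weighted (univ : Finset N)
    (fun _ => (1 / (Fintype.card N : ℝ))) (fun i => b i ^ (Fintype.card N : ℝ))
    (fun i _ => by positivity) (by rw [sum_const, card_univ, nsmul_eq_mul]; field_simp)
    (fun i _ => rpow_nonneg (hb i) _)
  have h2 : ∀ i, (b i ^ (Fintype.card N : ℝ)) ^ (1 / (Fintype.card N : ℝ)) = b i := by
    intro i
    rw [← rpow_mul (hb i), mul_one_div_cancel hn, rpow_one]
  simp only [h2] at h1
  refine h1.trans (le_of_eq ?_)
  rw [← mul_sum]
  ring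

/-- The bound for the probability. -/
noncomputable def kap (p n : ℕ) : ℝ := 1 / p + √(2 / (π * n))

theorem kap_nonneg (n : ℕ) : 0 ≤ kap p n := by
  unfold kap
  positivity

theorem kap_anti {n m : ℕ} (hn : 0 < n) (h : n ≤ m) : kap p m ≤ kap p n := by
  unfold kap
  have h1 : (n : ℝ) ≤ m := Nat.cast_le.2 h
  have h2 : (0 : ℝ) < n := Nat.cast_pos.2 hn
  gcongr

/-- **The probability that a weighted sum of signs has a given value modulo `p`.** -/
theorem card_sum_eq_le (hp2 : p ≠ 2) {N : Type*} [Fintype N] [DecidableEq N] [Nonempty N]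
    (a : N → ZMod p) (ha : ∀ i, a i ≠ 0) (t : ZMod p) :
    (((univ : Finset (N → Bool)).filter (fun e => ∑ i, (if e i then a i else - a i) = t)).card : ℝ) ≤
      2 ^ Fintype.card N * kap p (Fintype.card N) := by
  classical
  have hp0 : (0 : ℝ) < p := Nat.cast_pos.2 (Fact.out : p.Prime).pos
  have hodd : Odd p := (Fact.out : p.Prime).odd_of_ne_two hp2
  have hn : (0 : ℝ) < Fintype.card N := Nat.cast_pos.2 Fintype.card_pos
  have h1 := fourier_le p a t
  have h2 : ∑ k : ZMod p, ∏ i, cw p (k * a i) ≤
      ∑ k : ZMod p, (∑ i, cw p (k * a i) ^ (Fintype.card N : ℝ)) / Fintype.card N :=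
    sum_le_sum fun k _ => prod_le_mean _ fun i => cw_nonneg p _
  have h3 : ∑ k : ZMod p, (∑ i, cw p (k * a i) ^ (Fintype.card N : ℝ)) / Fintype.card N =
      ∑ k : ZMod p, cw p k ^ (Fintype.card N : ℝ) := by
    rw [← sum_div, sum_comm]
    have h4 : ∀ i, ∑ k : ZMod p, cw p (k * a i) ^ (Fintype.card N : ℝ) =
        ∑ k : ZMod p, cw p k ^ (Fintype.card N : ℝ) := by
      intro i
      exact Fintype.sum_equiv (Equiv.mulRight₀ (a i) (ha i)) _ _ fun k => rfl
    rw [sum_congr rfl fun i _ => h4 i, sum_const, card_univ, nsmul_eq_mul]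
    field_simp
  rw [h3] at h2
  have h4 := sum_cw_le p hodd hn
  have h5 : (((univ : Finset (N → Bool)).filter
      (fun e => ∑ i, (if e i then a i else - a i) = t)).card : ℝ) * p ≤
      (2 ^ Fintype.card N * kap p (Fintype.card N)) * p := by
    refine h1.trans ?_
    refine (mul_le_mul_of_nonneg_left (h2.trans h4) (by positivity)).trans (le_of_eq ?_)
    rw [kap]
    field_simp
  exact le_of_mul_le_mul_right h5 hp0

end Pool.Agent.Y1.SM
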