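import Mathlib
import Pool.Agent.Y1.SM.CaseA
import Pool.Agent.Y1.SM.Kappa

/-!
# The number of types with a condition on one sum
-/

set_option linter.unusedSectionVars false
set_option linter.unusedVariables false

namespace Pool.Agent.Y1.SM

open Finset Module MulAction

variable {p : ℕ} [Fact p.Prime] {Z : Type*} [Fintype Z] (inv : Z → Z)

theorem exists_half_of (hinv : ∀ x, inv (inv x) = x) (hne : ∀ x, inv x ≠ x) (Y : Finset Z)
    (hY : ∀ x ∈ Y, inv x ∉ Y) :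
    ∃ H : Finset Z, Y ⊆ H ∧ (∀ x, x ∈ H ↔ inv x ∉ H) ∧ 2 * H.card = Fintype.card Z := by
  classical
  obtain ⟨H₀, hH₀, hc⟩ := exists_half inv hinv hne
  let H : Finset Z := univ.filter (fun x => x ∈ Y ∨ (x ∈ H₀ ∧ x ∉ Y ∧ inv x ∉ Y))
  have hmem : ∀ x, x ∈ H ↔ x ∈ Y ∨ (x ∈ H₀ ∧ x ∉ Y ∧ inv x ∉ Y) := by
    intro x
    simp only [H, mem_filter, mem_univ, true_and]
  have hH : ∀ x, x ∈ H ↔ inv x ∉ H := by
    intro x
    rw [hmem, hmem, hinv]
    have h1 := hH₀ x
    have h2 := hY x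
    have h3 := hY (inv x)
    rw [hinv] at h3
    tauto
  refine ⟨H, fun x hx => (hmem x).2 (Or.inl hx), hH, ?_⟩
  have h1 : (H.image inv).card = H.card :=
    card_image_of_injective _ (Function.LeftInverse.injective hinv)
  have h2 : H.image inv = univ \ H := by
    ext x
    rw [mem_image, mem_sdiff]
    constructor
    · rintro ⟨y, hy, rfl⟩
      exact ⟨mem_univ _, (hH y).1 hy⟩
    · rintro ⟨-, hx⟩
      refine ⟨inv x, ?_, hinv x⟩
      by_contra h3
      exact hx ((hH x).2 h3)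
  have h3 : (univ \ H).card = Fintype.card Z - H.card := by
    rw [card_sdiff_of_subset (subset_univ _), card_univ]
  have h4 : H.card ≤ Fintype.card Z := card_le_univ _
  rw [h2, h3] at h1
  omega

theorem ncard_sum_mem_le (hp2 : p ≠ 2) (hinv : ∀ x, inv (inv x) = x) (hne : ∀ x, inv x ≠ x)
    {M : Z → ZMod p} (hM0 : ∀ x, M x ≠ 0) {g : ℕ} (hg : Fintype.card Z = 2 * g) (Y : Finset Z)
    (hY : ∀ x ∈ Y, inv x ∉ Y) (hYne : Y.Nonempty) (R : Set Z → Finset (ZMod p)) (d : ℕ)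
    (hR : ∀ Φ, (R Φ).card ≤ d)
    (hdep : ∀ Φ Ψ : Set Z, (∀ x, x ∉ Y → inv x ∉ Y → (x ∈ Φ ↔ x ∈ Ψ)) → R Φ = R Ψ) :
    ({Φ : Set Z | IsTy inv Φ ∧ ∑ x ∈ Y, sg M Φ x ∈ R Φ}.ncard : ℝ) ≤
      2 ^ g * (d * kap p Y.card) := by
  classical
  obtain ⟨H, hYH, hH, hc⟩ := exists_half_of inv hinv hne Y hY
  have hHg : H.card = g := by omega
  have hHY : (H \ Y).card = g - Y.card := by rw [card_sdiff_of_subset hYH, hHg]
  have hYg : Y.card ≤ g := by rw [← hHg]; exact card_le_card hYH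
  set A : Set (Set Z) := {Φ : Set Z | IsTy inv Φ ∧ ∑ x ∈ Y, sg M Φ x ∈ R Φ} with hA
  have hAfin : A.Finite := Set.toFinite _
  let T : Finset (Set Z) := hAfin.toFinset
  have hT : ∀ Φ, Φ ∈ T ↔ Φ ∈ A := fun Φ => hAfin.mem_toFinset
  have hTc : A.ncard = T.card := Set.ncard_eq_toFinset_card _ hAfin
  rw [hTc]
  let f : Set Z → ((H \ Y : Finset Z) → Bool) := vec (H \ Y)
  have h1 : T.card = ∑ w : ((H \ Y : Finset Z) → Bool), (T.filter (fun Φ => f Φ = w)).card :=
    Finset.card_eq_sum_card_fiberwise (fun _ _ => mem_univ _)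
  have _ : Nonempty Y := ⟨⟨hYne.choose, hYne.choose_spec⟩⟩
  let sol : ZMod p → Finset (Y → Bool) := fun t =>
    univ.filter (fun e => ∑ i : Y, (if e i then M i.1 else - M i.1) = t)
  have hsol : ∀ t, ((sol t).card : ℝ) ≤ 2 ^ Y.card * kap p Y.card := by
    intro t
    have h2 := card_sum_eq_le p hp2 (fun i : Y => M i.1) (fun i => hM0 i.1) t
    rw [Fintype.card_coe] at h2
    exact h2
  have h2 : ∀ w, ((T.filter (fun Φ => f Φ = w)).card : ℝ) ≤ d * (2 ^ Y.card * kap p Y.card) := by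
    intro w
    rcases (T.filter (fun Φ => f Φ = w)).eq_empty_or_nonempty with h3 | ⟨Φ₀, hΦ₀⟩
    · rw [h3, card_empty, Nat.cast_zero]
      have := kap_nonneg p Y.card
      positivity
    rw [mem_filter] at hΦ₀
    have hsame : ∀ Φ, IsTy inv Φ → f Φ = w → R Φ = R Φ₀ := by
      intro Φ hΦ hf
      apply hdep
      have h4 : ∀ x ∈ H, x ∉ Y → (x ∈ Φ ↔ x ∈ Φ₀) := by
        intro x hx hxY
        have h5 : decide (x ∈ Φ) = decide (x ∈ Φ₀) :=
          congrFun (hf.trans hΦ₀.2.symm) ⟨x, mem_sdiff.2 ⟨hx, hxY⟩⟩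
        exact decide_eq_decide.1 h5
      intro x hxY hiY
      by_cases hx : x ∈ H
      · exact h4 x hx hxY
      · have h5 : inv x ∈ H := by
          by_contra h6
          exact hx ((hH x).2 h6)
        have h6 := h4 _ h5 hiY
        have h7 := hΦ x
        have h8 := ((hT Φ₀).1 hΦ₀.1).1 x
        tauto
    have h4 : (T.filter (fun Φ => f Φ = w)).card ≤ ((R Φ₀).biUnion sol).card := by
      refine card_le_card_of_injOn (vec Y) ?_ ?_
      · intro Φ hΦ
        rw [mem_coe, mem_filter] at hΦ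
        have h5 := (hT Φ).1 hΦ.1
        rw [mem_coe, mem_biUnion]
        refine ⟨∑ x ∈ Y, sg M Φ x, ?_, ?_⟩
        · rw [← hsame Φ h5.1 hΦ.2]
          exact h5.2
        · rw [mem_filter]
          refine ⟨mem_univ _, ?_⟩
          rw [← Finset.sum_coe_sort Y]
          refine Finset.sum_congr rfl fun x _ => ?_
          simp only [vec, sg, decide_eq_true_eq]
      · intro Φ hΦ Ψ hΨ h5
        rw [mem_coe, mem_filter] at hΦ hΨ
        have h6 := (hT Φ).1 hΦ.1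
        have h7 := (hT Ψ).1 hΨ.1
        refine vec_inj inv hinv hH h6.1 h7.1 ?_
        funext x
        by_cases hx : x.1 ∈ Y
        · exact congrFun h5 ⟨x.1, hx⟩
        · exact congrFun (hΦ.2.trans hΨ.2.symm) ⟨x.1, mem_sdiff.2 ⟨x.2, hx⟩⟩
    calc ((T.filter (fun Φ => f Φ = w)).card : ℝ) ≤ (((R Φ₀).biUnion sol).card : ℝ) :=
          Nat.cast_le.2 h4
      _ ≤ ((∑ t ∈ R Φ₀, (sol t).card : ℕ) : ℝ) := Nat.cast_le.2 card_biUnion_le
      _ = ∑ t ∈ R Φ₀, ((sol t).card : ℝ) := by rw [Nat.cast_sum]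
      _ ≤ ∑ t ∈ R Φ₀, (2 ^ Y.card * kap p Y.card) := Finset.sum_le_sum fun t _ => hsol t
      _ = (R Φ₀).card * (2 ^ Y.card * kap p Y.card) := by rw [sum_const, nsmul_eq_mul]
      _ ≤ d * (2 ^ Y.card * kap p Y.card) := by
          have h5 : ((R Φ₀).card : ℝ) ≤ d := Nat.cast_le.2 (hR Φ₀)
          have h6 := kap_nonneg p Y.card
          exact mul_le_mul_of_nonneg_right h5 (by positivity)
  have h3 : Fintype.card ((H \ Y : Finset Z) → Bool) = 2 ^ (g - Y.card) := by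
    rw [Fintype.card_fun, Fintype.card_bool, Fintype.card_coe, hHY]
  calc (T.card : ℝ) = ∑ w, ((T.filter (fun Φ => f Φ = w)).card : ℝ) := by
        rw [h1, Nat.cast_sum]
    _ ≤ ∑ w : ((H \ Y : Finset Z) → Bool), d * (2 ^ Y.card * kap p Y.card) :=
        Finset.sum_le_sum fun w _ => h2 w
    _ = 2 ^ (g - Y.card) * (d * (2 ^ Y.card * kap p Y.card)) := by
        rw [sum_const, card_univ, h3, nsmul_eq_mul]
        push_cast
        ring
    _ = (2 ^ (g - Y.card) * 2 ^ Y.card) * (d * kap p Y.card) := by ring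
    _ = 2 ^ g * (d * kap p Y.card) := by rw [← pow_add, Nat.sub_add_cancel hYg]

end Pool.Agent.Y1.SM
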