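import Mathlib
import Pool.Agent.Y1.SM.CaseB

/-!
# The sizes of the orbits of a Sylow subgroup
-/

set_option linter.unusedSectionVars false
set_option linter.unusedVariables false

namespace Pool.Agent.Y1.SM

open Finset Module MulAction

variable {p : ℕ} [Fact p.Prime] {G : Type*} [Group G] [Finite G]

theorem pow_dvd_orbit {X : Type*} [Finite X] [MulAction G X] (P : Sylow p G)
    (htr : ∀ x y : X, ∃ g : G, g • x = y) {k : ℕ} (hk : p ^ k ∣ Nat.card X) (x : X) :
    p ^ k ∣ Nat.card (orbit (P : Subgroup G) x) := by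
  classical
  have _ : Fintype G := Fintype.ofFinite G
  have _ : Fintype X := Fintype.ofFinite X
  have _ : Fintype (P : Subgroup G) := Fintype.ofFinite _
  have hp0 : 0 < p := (Fact.out : p.Prime).pos
  have horb : orbit G x = Set.univ := by
    ext y
    simp only [Set.mem_univ, iff_true]
    obtain ⟨g, hg⟩ := htr x y
    exact ⟨g, hg⟩
  have h1 := card_orbit_mul_card_stabilizer_eq_card_group G x
  have h2 := card_orbit_mul_card_stabilizer_eq_card_group (P : Subgroup G) x
  rw [← Nat.card_eq_fintype_card, ← Nat.card_eq_fintype_card, ← Nat.card_eq_fintype_card] at h1 h2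
  have h3 : Nat.card (orbit G x) = Nat.card X := by
    rw [horb]
    exact Nat.card_congr (Equiv.Set.univ X)
  rw [h3] at h1
  have hstab : IsPGroup p (stabilizer (P : Subgroup G) x) := P.isPGroup'.to_subgroup _
  obtain ⟨b, hb⟩ := hstab.exists_card_eq
  have h4 : p ^ b ∣ Nat.card (stabilizer G x) := by
    rw [← hb]
    let f : stabilizer (P : Subgroup G) x →* stabilizer G x :=
      { toFun := fun s => ⟨s.1.1, s.2⟩
        map_one' := rfl
        map_mul' := fun _ _ => rfl }
    refine Subgroup.card_dvd_of_injective f ?_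
    intro s s' h
    have h5 : s.1.1 = s'.1.1 := congrArg (fun a : stabilizer G x => (a : G)) h
    exact Subtype.ext (Subtype.ext h5)
  have h5 : p ^ (k + b) ∣ Nat.card (P : Subgroup G) := by
    apply P.pow_dvd_card_of_pow_dvd_card
    rw [← h1, pow_add]
    exact Nat.mul_dvd_mul hk h4
  rw [← h2, hb, pow_add] at h5
  exact Nat.dvd_of_mul_dvd_mul_right (pow_pos hp0 b) h5

variable {ι : Type*} [Fintype ι] {X : ι → Type*} [∀ i, Fintype (X i)] [∀ i, MulAction G (X i)]

theorem card_orbIn_le (P : Sylow p G) (htr : ∀ i, ∀ x y : X i, ∃ g : G, g • x = y)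
    (m k : ι → ℕ) (hcard : ∀ i, Fintype.card (X i) = 2 * (m i * p ^ k i)) (B : Finset ι) :
    Nat.card (OrbIn (G := G) {z : Σ i, X i | z.1 ∈ B} (P : Subgroup G)) ≤ 2 * ∑ i ∈ B, m i := by
  classical
  have hp0 : 0 < p := (Fact.out : p.Prime).pos
  let Ω := orbitRel.Quotient (P : Subgroup G) (Σ i, X i)
  have _ : Fintype Ω := Fintype.ofFinite _
  have _ : Fintype (OrbIn (G := G) {z : Σ i, X i | z.1 ∈ B} (P : Subgroup G)) := Fintype.ofFinite _
  let comp : Ω → ι := fun ω => ω.out.1
  have hcomp : ∀ z : Σ i, X i, comp (Quotient.mk'' z) = z.1 := by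
    intro z
    have h1 : (Quotient.mk'' (Quotient.out (Quotient.mk'' z : Ω)) : Ω) = Quotient.mk'' z :=
      Quotient.out_eq' _
    rw [mk_eq_iff] at h1
    obtain ⟨g, hg, h2⟩ := h1
    change (Quotient.out (Quotient.mk'' z : Ω)).1 = z.1
    rw [← h2]
    rfl
  have hfib : ∀ i, (univ.filter (fun ω : Ω => comp ω = i)).card ≤ 2 * m i := by
    intro i
    have h1 : ∀ ω ∈ univ.filter (fun ω : Ω => comp ω = i),
        p ^ k i ≤ ((univ : Finset (X i)).filter (fun x => (Quotient.mk'' ⟨i, x⟩ : Ω) = ω)).card := by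
      intro ω hω
      rw [mem_filter] at hω
      induction ω using Quotient.inductionOn' with
      | h z =>
        have h2 : z.1 = i := by rw [← hcomp z]; exact hω.2
        obtain ⟨i', x⟩ := z
        dsimp only at h2
        subst h2
        have h3 := pow_dvd_orbit (X := X i') P (htr i') (k := k i')
          (by rw [Nat.card_eq_fintype_card, hcard i']; exact ⟨2 * m i', by ring⟩) x
        have h4 : Nat.card (orbit (P : Subgroup G) x) =
            ((univ : Finset (X i')).filter (fun y => (Quotient.mk'' ⟨i', y⟩ : Ω) =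
              Quotient.mk'' ⟨i', x⟩)).card := by
          rw [Nat.card_coe_set_eq, ← Set.ncard_coe_finset]
          congr 1
          ext y
          rw [mem_coe, mem_filter, mk_eq_iff, mem_orbit_iff]
          constructor
          · rintro ⟨g, hg⟩
            refine ⟨mem_univ _, g.1, g.2, ?_⟩
            rw [← hg]
            rfl
          · rintro ⟨-, g, hg, h5⟩
            refine ⟨⟨g, hg⟩, ?_⟩
            have h6 : (⟨i', g • x⟩ : Σ i, X i) = ⟨i', y⟩ := h5
            exact eq_of_heq (Sigma.mk.inj h6).2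
        rw [← h4]
        apply Nat.le_of_dvd _ h3
        rw [Nat.card_pos_iff]
        exact ⟨⟨⟨x, mem_orbit_self x⟩⟩, inferInstance⟩
    have h2 : (univ.filter (fun ω : Ω => comp ω = i)).card * p ^ k i ≤ Fintype.card (X i) := by
      rw [← smul_eq_mul, ← Finset.sum_const]
      refine (Finset.sum_le_sum h1).trans ?_
      rw [← Finset.card_univ (α := X i)]
      rw [← Finset.card_biUnion]
      · exact card_le_card (subset_univ _)
      · intro ω _ ω' _ hne
        rw [Function.onFun, Finset.disjoint_left]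
        intro x hx hx'
        rw [mem_filter] at hx hx'
        exact hne (hx.2.symm.trans hx'.2)
    rw [hcard i, ← mul_assoc] at h2
    exact Nat.le_of_mul_le_mul_right h2 (pow_pos hp0 _)
  rw [Nat.card_eq_fintype_card, Fintype.card_subtype, Finset.mul_sum]
  refine le_trans ?_ (Finset.sum_le_sum fun i _ => hfib i)
  rw [← Finset.card_biUnion]
  · refine card_le_card ?_
    intro ω hω
    rw [mem_filter] at hω
    rw [mem_biUnion]
    refine ⟨comp ω, ?_, mem_filter.2 ⟨mem_univ _, rfl⟩⟩
    have h1 := hω.2 ω.out (Quotient.out_eq' ω)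
    exact h1
  · intro i _ i' _ hne
    rw [Function.onFun, Finset.disjoint_left]
    intro ω hω hω'
    rw [mem_filter] at hω hω'
    exact hne (hω.2.symm.trans hω'.2)

end Pool.Agent.Y1.SM
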