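import Mathlib
import Pool.Agent.Y1.SM.BlockIndep
import Pool.Agent.Y1.SM.CountA
import Pool.Agent.Y1.SM.OrbitSize

/-!
# The number of families of types with a relation modulo a prime
-/

set_option linter.unusedSectionVars false
set_option linter.unusedVariables false

namespace Pool.Agent.Y1.SM

open Finset Module MulAction

variable {p : ℕ} [Fact p.Prime] {G : Type*} [Group G] [Finite G] {ι : Type*} [Fintype ι]
  {X : ι → Type*} [∀ i, Fintype (X i)] [∀ i, MulAction G (X i)]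

/-- The involution on the disjoint union. -/
def tot (inv : ∀ i, X i → X i) (z : Σ i, X i) : Σ i, X i := ⟨z.1, inv z.1 z.2⟩

/-- No orbit of the normal closure of a Sylow subgroup contains an element and its conjugate. -/
def KFree (K : Subgroup G) {Y : Type*} [MulAction G Y] (inv : Y → Y) : Prop :=
  ∀ k ∈ K, ∀ x : Y, k • x ≠ inv x

theorem two_ne_zero_zmod (hp2 : p ≠ 2) : (2 : ZMod p) ≠ 0 := by
  intro h
  have h1 : ((2 : ℕ) : ZMod p) = 0 := by exact_mod_cast h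
  rw [ZMod.natCast_eq_zero_iff] at h1
  exact hp2 ((Nat.prime_dvd_prime_iff_eq Fact.out Nat.prime_two).1 h1)

theorem sum_comp {F : Type*} [Field F] (i₀ : ι) (f : (Σ i, X i) → F) (hf : ∀ z, z.1 ≠ i₀ → f z = 0) :
    ∑ z, f z = ∑ x : X i₀, f ⟨i₀, x⟩ := by
  classical
  rw [Fintype.sum_sigma, Finset.sum_eq_single i₀]
  · intro i _ hi
    exact Finset.sum_eq_zero fun x _ => hf ⟨i, x⟩ hi
  · intro h
    exact absurd (mem_univ _) h

open Classical in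
theorem ncard_block_le (hp2 : p ≠ 2) (P : Sylow p G) (inv : ∀ i, X i → X i)
    (htr : ∀ i, ∀ x y : X i, ∃ g : G, g • x = y) (hne0 : ∀ i, Nonempty (X i))
    (hinv : ∀ i x, inv i (inv i x) = x) (hne : ∀ i x, inv i x ≠ x)
    (hG : ∀ i, ∀ (g : G) x, g • inv i x = inv i (g • x))
    (m k : ι → ℕ) (hcard : ∀ i, Fintype.card (X i) = 2 * (m i * p ^ k i)) (B : Finset ι)
    {M : (Σ i, X i) → ZMod p} (hM0 : ∀ x, M x ≠ 0) (hM : ∀ x, M (tot inv x) = M x)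
    (hind : ∀ i ∈ B, ∀ i' ∈ B, i ≠ i' →
      KFree (Subgroup.normalClosure ((P : Subgroup G) : Set G)) (inv i) →
      KFree (Subgroup.normalClosure ((P : Subgroup G) : Set G)) (inv i') →
      ∀ (x : X i) (y : X i'), ∃ g : G,
        (∃ k ∈ Subgroup.normalClosure ((P : Subgroup G) : Set G), g • x = k • x) ∧
        ∃ k ∈ Subgroup.normalClosure ((P : Subgroup G) : Set G), g • y = k • inv i' y)
    {g : ℕ} (hg : Fintype.card (Σ i, X i) = 2 * g)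
    (hGt : ∀ (g : G) (x : Σ i, X i), g • tot inv x = tot inv (g • x))
    (hS : ∀ (g : G) (x : Σ i, X i), x ∈ {z : Σ i, X i | z.1 ∈ B} → g • x ∈ {z : Σ i, X i | z.1 ∈ B}) :
    ({Φ : Set (Σ i, X i) | IsTy (tot inv) Φ ∧ ∃ c : (Σ i, X i) → ZMod p, c ≠ 0 ∧
      c ∈ relSpace (tot inv) hGt {z | z.1 ∈ B} hS (sg M Φ)}.ncard : ℝ) ≤
      2 ^ g * ((∑ i ∈ B.filter
        (fun i => KFree (Subgroup.normalClosure ((P : Subgroup G) : Set G)) (inv i)),
          m i * kap p (p ^ k i)) +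
        (p : ℝ) ^ (∑ i ∈ B, m i) / 2 ^ (p / (2 * ∑ i ∈ B, m i) + 2)) := by
  have hp0 : 0 < p := (Fact.out : p.Prime).pos
  set K : Subgroup G := Subgroup.normalClosure ((P : Subgroup G) : Set G) with hKdef
  have hKn : K.Normal := Subgroup.normalClosure_normal
  have hPK : (P : Subgroup G) ≤ K := Subgroup.le_normalClosure
  have hKi : ¬ p ∣ K.index := fun h => P.not_dvd_index (h.trans (Subgroup.index_dvd_of_le hPK))
  have hinvt : ∀ z : Σ i, X i, tot inv (tot inv z) = z := by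
    rintro ⟨i, x⟩
    change (⟨i, inv i (inv i x)⟩ : Σ i, X i) = ⟨i, x⟩
    rw [hinv]
  have hnet : ∀ z : Σ i, X i, tot inv z ≠ z := by
    rintro ⟨i, x⟩ h
    have h1 : (⟨i, inv i x⟩ : Σ i, X i) = ⟨i, x⟩ := h
    exact hne i x (eq_of_heq (Sigma.mk.inj h1).2)
  have hSi : ∀ x : Σ i, X i, x ∈ {z : Σ i, X i | z.1 ∈ B} → tot inv x ∈ {z : Σ i, X i | z.1 ∈ B} :=
    fun x hx => hx
  have h20 : (2 : ZMod p) ≠ 0 := two_ne_zero_zmod hp2
  -- the data of the components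
  have hstruct : ∀ i, ∃ (Y : Finset (Σ i, X i)) (R : Set (Σ i, X i) → Finset (ZMod p)) (d : ℕ),
      KFree K (inv i) → (∀ z ∈ Y, tot inv z ∉ Y) ∧ Y.Nonempty ∧
      (d * kap p Y.card ≤ m i * kap p (p ^ k i)) ∧ (∀ Φ, (R Φ).card ≤ d) ∧
      (∀ Φ Ψ : Set (Σ i, X i), (∀ x, x ∉ Y → tot inv x ∉ Y → (x ∈ Φ ↔ x ∈ Ψ)) → R Φ = R Ψ) ∧
      ∀ Φ : Set (Σ i, X i), IsTy (tot inv) Φ → (∃ c : (Σ i, X i) → ZMod p,
        c ∈ relSpace (tot inv) hGt {z | z.1 ∈ B} hS (sg M Φ) ∧ K ≤ stab c ∧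
        (∃ x : X i, c ⟨i, x⟩ ≠ 0) ∧ ∀ z, z.1 ≠ i → c z = 0) → ∑ z ∈ Y, sg M Φ z ∈ R Φ := by
    intro i
    by_cases hfree : KFree K (inv i)
    · obtain ⟨x₀⟩ := hne0 i
      obtain ⟨Y, R, d, hY, hYc, hRd, hRdep, hR⟩ := caseA_struct (X := X i) K (inv i) h20 (htr i) x₀
        (hinv i) (hne i) (hG i) hfree
      have hemb : Function.Injective (fun x : X i => (⟨i, x⟩ : Σ i, X i)) := sigma_mk_injective
      let e : X i ↪ Σ i, X i := ⟨fun x => ⟨i, x⟩, hemb⟩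
      have hmemY : ∀ x : X i, (⟨i, x⟩ : Σ i, X i) ∈ Y.map e ↔ x ∈ Y := by
        intro x
        exact mem_map' e
      refine ⟨Y.map e, fun Φ => R (fun x => sg M Φ ⟨i, x⟩), d, fun _ => ⟨?_, ?_, ?_, ?_, ?_, ?_⟩⟩
      · intro z hz hz'
        obtain ⟨x, hx, rfl⟩ := mem_map.1 hz
        have h1 : inv i x ∈ Y := (hmemY (inv i x)).1 hz'
        obtain ⟨k₁, hk₁, h2⟩ := (hY x).1 hx
        obtain ⟨k₂, hk₂, h3⟩ := (hY _).1 h1
        apply hfree (k₂ * k₁⁻¹) (K.mul_mem hk₂ (K.inv_mem hk₁)) x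
        rw [mul_smul, ← h2, inv_smul_smul, h3, h2]
      · exact ⟨e x₀, mem_map_of_mem e ((hY x₀).2 ⟨1, K.one_mem, one_smul _ _⟩)⟩
      · rw [card_map]
        have hYge : p ^ k i ≤ Y.card := by
          have h1 := pow_dvd_orbit P (htr i) (k := k i)
            (by rw [Nat.card_eq_fintype_card, hcard i]; exact ⟨2 * m i, by ring⟩) x₀
          have h2 : Nat.card (orbit (P : Subgroup G) x₀) ≤ Y.card := by
            rw [Nat.card_coe_set_eq, ← Set.ncard_coe_finset]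
            refine Set.ncard_le_ncard ?_ (Finset.finite_toSet Y)
            rintro _ ⟨g, rfl⟩
            exact (hY _).2 ⟨g.1, hPK g.2, rfl⟩
          refine le_trans (Nat.le_of_dvd ?_ h1) h2
          rw [Nat.card_pos_iff]
          exact ⟨⟨⟨x₀, mem_orbit_self x₀⟩⟩, inferInstance⟩
        have hdm : d ≤ m i := by
          rw [hcard i] at hYc
          have h1 : m i * p ^ k i = d * Y.card := by omega
          have h2 : d * Y.card ≤ m i * Y.card := by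
            rw [← h1]
            exact Nat.mul_le_mul_left _ hYge
          exact Nat.le_of_mul_le_mul_right h2 (lt_of_lt_of_le (pow_pos hp0 _) hYge)
        have h1 := kap_anti p (pow_pos hp0 (k i)) hYge
        have h2 : (d : ℝ) ≤ m i := Nat.cast_le.2 hdm
        have h3 := kap_nonneg p Y.card
        calc (d : ℝ) * kap p Y.card ≤ m i * kap p Y.card := mul_le_mul_of_nonneg_right h2 h3
          _ ≤ m i * kap p (p ^ k i) := mul_le_mul_of_nonneg_left h1 (Nat.cast_nonneg _)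
      · intro Φ
        exact hRd _
      · intro Φ Ψ h
        apply hRdep
        intro x hx hx'
        have h1 := h ⟨i, x⟩ (fun h2 => hx ((hmemY x).1 h2)) (fun h2 => hx' ((hmemY (inv i x)).1 h2))
        simp only [sg, h1]
      · rintro Φ hΦ ⟨c, hc, hcK, ⟨x₁, hx₁⟩, hc0⟩
        rw [sum_map]
        refine hR _ (fun x => c ⟨i, x⟩) ?_ ?_ ?_ ?_ ?_
        · intro x
          exact sg_inv (tot inv) hM hΦ ⟨i, x⟩
        · intro h1
          exact hx₁ (congrFun h1 x₁)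
        · intro x
          exact hc.2.1 ⟨i, x⟩
        · intro k hk
          exact mem_stab_of fun x => stab_apply (hcK hk) ⟨i, x⟩
        · intro h
          have h1 := hc.2.2 h
          rw [← sum_smul_eq, sum_comp i _ (fun z hz => by rw [hc0 z hz, zero_mul])] at h1
          exact h1
    · exact ⟨∅, fun _ => ∅, 0, fun h => absurd h hfree⟩
  choose Y R d hYRd using hstruct
  let BadB : Set (Set (Σ i, X i)) := {Φ | IsTy (tot inv) Φ ∧
    ∃ c ∈ Cand (tot inv) (ZMod p) {z : Σ i, X i | z.1 ∈ B} (P : Subgroup G),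
      ¬ Subgroup.normalClosure ((P : Subgroup G) : Set G) ≤ stab c ∧
        c ∈ relSpace (tot inv) hGt {z | z.1 ∈ B} hS (sg M Φ)}
  let BadA : ι → Set (Set (Σ i, X i)) := fun i =>
    {Φ | IsTy (tot inv) Φ ∧ ∑ z ∈ Y i, sg M Φ z ∈ R i Φ}
  let FB : Finset ι := B.filter (fun i => KFree K (inv i))
  have hcover : {Φ : Set (Σ i, X i) | IsTy (tot inv) Φ ∧ ∃ c : (Σ i, X i) → ZMod p, c ≠ 0 ∧
      c ∈ relSpace (tot inv) hGt {z | z.1 ∈ B} hS (sg M Φ)} ⊆ BadB ∪ ⋃ i ∈ FB, BadA i := by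
    rintro Φ ⟨hΦ, c, hc0, hc⟩
    have hN : relSpace (tot inv) hGt {z | z.1 ∈ B} hS (sg M Φ) ≠ ⊥ := by
      intro h
      rw [h, Submodule.mem_bot] at hc
      exact hc0 hc
    obtain ⟨c₁, hc₁, hc₁0, hc₁P⟩ := exists_fixed (P : Subgroup G) P.isPGroup'
      (relSpace (tot inv) hGt {z | z.1 ∈ B} hS (sg M Φ))
      (fun g _ c hc => act_mem_relSpace g hc) hN
    by_cases hK1 : K ≤ stab c₁
    · right
      obtain ⟨⟨i₀, x₀⟩, hx₀⟩ := Function.ne_iff.1 hc₁0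
      have hfree : ∀ (i : ι) (x : X i), c₁ ⟨i, x⟩ ≠ 0 → KFree K (inv i) := by
        intro i x hx k hk y hy
        have h1 := eq_zero_of_meet K (inv i) h20 (htr i) (hG i) hk hy (fun x => c₁ ⟨i, x⟩)
          (fun x => hc₁.2.1 ⟨i, x⟩) (fun k hk => mem_stab_of fun x => stab_apply (hK1 hk) ⟨i, x⟩)
        exact hx (congrFun h1 x)
      have hB : ∀ (i : ι) (x : X i), c₁ ⟨i, x⟩ ≠ 0 → i ∈ B := by
        intro i x hx
        by_contra h
        exact hx (hc₁.1 ⟨i, x⟩ h)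
      obtain ⟨c₂, hc₂, hc₂K, hc₂0, hc₂z⟩ := exists_one_class (tot inv) hp2 K hKi hGt
        (fun z : Σ i, X i => z.1) (fun _ _ => rfl) hS (sg M Φ) c₁ hc₁ hK1 ⟨i₀, x₀⟩ hx₀ (by
          rintro ⟨i, y⟩ hyS hyi hy
          obtain ⟨γ, ⟨k₁, hk₁, h1⟩, k₂, hk₂, h2⟩ := hind i₀ (hB i₀ x₀ hx₀) i (hB i y hy)
            (Ne.symm hyi) (hfree i₀ x₀ hx₀) (hfree i y hy) x₀ y
          refine ⟨γ, ⟨k₁, hk₁, ?_⟩, k₂, hk₂, ?_⟩
          · exact congrArg (Sigma.mk i₀) h1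
          · exact congrArg (Sigma.mk i) h2)
      rw [Set.mem_iUnion₂]
      refine ⟨i₀, mem_filter.2 ⟨hB i₀ x₀ hx₀, hfree i₀ x₀ hx₀⟩, hΦ, ?_⟩
      exact (hYRd i₀ (hfree i₀ x₀ hx₀)).2.2.2.2.2 Φ hΦ ⟨c₂, hc₂, hc₂K, ⟨x₀, hc₂0⟩, hc₂z⟩
    · left
      exact ⟨hΦ, c₁, ⟨hc₁.1, hc₁.2.1, hc₁P⟩, hK1, hc₁⟩
  have hBadB : (BadB.ncard : ℝ) ≤
      2 ^ g * ((p : ℝ) ^ (∑ i ∈ B, m i) / 2 ^ (p / (2 * ∑ i ∈ B, m i) + 2)) := by
    have h1 := ncard_caseB (tot inv) hp2 (P : Subgroup G) P.isPGroup' hinvt hnet hGt hS hSi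
      (card_orbIn_le P htr m k hcard B) hM0 hM hg
    have h2 : ((BadB.ncard * 2 ^ (p / (2 * ∑ i ∈ B, m i) + 2) : ℕ) : ℝ) ≤
        ((p ^ (∑ i ∈ B, m i) * 2 ^ g : ℕ) : ℝ) := Nat.cast_le.2 h1
    push_cast at h2
    rw [mul_div_assoc', le_div_iff₀ (by positivity)]
    linarith
  have hBadA : ∀ i ∈ FB, ((BadA i).ncard : ℝ) ≤ 2 ^ g * (m i * kap p (p ^ k i)) := by
    intro i hi
    obtain ⟨h1, h2, h3, h4, h5, h6⟩ := hYRd i (mem_filter.1 hi).2
    refine (ncard_sum_mem_le (tot inv) hp2 hinvt hnet hM0 hg (Y i) h1 h2 (R i) (d i) h4 h5).trans ?_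
    exact mul_le_mul_of_nonneg_left h3 (by positivity)
  have h1 : {Φ : Set (Σ i, X i) | IsTy (tot inv) Φ ∧ ∃ c : (Σ i, X i) → ZMod p, c ≠ 0 ∧
      c ∈ relSpace (tot inv) hGt {z | z.1 ∈ B} hS (sg M Φ)}.ncard ≤
      BadB.ncard + ∑ i ∈ FB, (BadA i).ncard := by
    refine (Set.ncard_le_ncard hcover (Set.toFinite _)).trans ?_
    refine (Set.ncard_union_le _ _).trans ?_
    exact Nat.add_le_add_left (Finset.set_ncard_biUnion_le _ _) _
  calc _ ≤ ((BadB.ncard + ∑ i ∈ FB, (BadA i).ncard : ℕ) : ℝ) := Nat.cast_le.2 h1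
    _ = (BadB.ncard : ℝ) + ∑ i ∈ FB, ((BadA i).ncard : ℝ) := by push_cast; rfl
    _ ≤ 2 ^ g * ((p : ℝ) ^ (∑ i ∈ B, m i) / 2 ^ (p / (2 * ∑ i ∈ B, m i) + 2)) +
        ∑ i ∈ FB, 2 ^ g * (m i * kap p (p ^ k i)) :=
        add_le_add hBadB (Finset.sum_le_sum hBadA)
    _ = _ := by rw [← Finset.mul_sum]; ring

end Pool.Agent.Y1.SM
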