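import Mathlib
import Pool.Agent.Y1.SM.Sylow

/-!
# The dimension of spaces of functions of small degree along all lines
-/

set_option linter.unusedSectionVars false
set_option linter.unusedVariables false

namespace Pool.Agent.Y1.SM

open Finset Module MulAction Polynomial

variable {p : ℕ} [Fact p.Prime]

/-- The values along an orbit as values of a polynomial. -/
theorem exists_poly {Z : Type*} (T : Module.End (ZMod p) (Z → ZMod p)) (c : Z → ZMod p) {D : ℕ}
    (hDp : D < p) (h0 : ((T - 1) ^ (D + 1)) c = 0) (x : Z) :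
    ∃ Q : (ZMod p)[X], Q.natDegree ≤ D ∧ ∀ n : ℕ, Q.eval (n : ZMod p) = ((T ^ n) c) x := by
  classical
  have hprime : p.Prime := Fact.out
  set N : Module.End (ZMod p) (Z → ZMod p) := T - 1 with hN
  have hz : ∀ n, D + 1 ≤ n → (N ^ n) c = 0 := by
    intro n hn
    obtain ⟨s, rfl⟩ := Nat.exists_eq_add_of_le hn
    rw [add_comm (D + 1) s, pow_add, Module.End.mul_apply, h0, map_zero]
  let Q : (ZMod p)[X] := ∑ j ∈ range (D + 1),
    C (((N ^ j) c) x * ((j.factorial : ℕ) : ZMod p)⁻¹) * descPochhammer (ZMod p) j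
  refine ⟨Q, ?_, ?_⟩
  · refine natDegree_sum_le_of_forall_le _ _ fun j hj => ?_
    have hj' : j ≤ D := Nat.lt_succ_iff.1 (mem_range.1 hj)
    refine (natDegree_C_mul_le _ _).trans ?_
    have h2 : (descPochhammer (ZMod p) j).natDegree = j := descPochhammer_natDegree _ _
    rw [h2]
    exact hj'
  · intro n
    have h2 : T = N + 1 := by rw [hN, sub_add_cancel]
    have h3 : T ^ n = ∑ j ∈ range (n + 1), (n.choose j : Module.End (ZMod p) (Z → ZMod p)) * N ^ j := by
      rw [h2, (Commute.one_right N).add_pow]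
      refine Finset.sum_congr rfl fun j _ => ?_
      rw [one_pow, mul_one]
      exact (Nat.cast_commute _ _).symm
    have h4 : ((T ^ n) c) x = ∑ j ∈ range (n + 1), (n.choose j : ZMod p) * ((N ^ j) c) x := by
      rw [h3, LinearMap.sum_apply, Finset.sum_apply]
      refine Finset.sum_congr rfl fun j _ => ?_
      rw [Module.End.mul_apply]
      have h5 : ∀ (s : ℕ) (v : Z → ZMod p),
          (s : Module.End (ZMod p) (Z → ZMod p)) v = (s : ZMod p) • v := by
        intro s v
        rw [← nsmul_one, LinearMap.smul_apply, Module.End.one_apply, Nat.cast_smul_eq_nsmul]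
      rw [h5, Pi.smul_apply, smul_eq_mul]
    have h6 : ∀ j ∈ range (D + 1), eval (n : ZMod p)
        (C (((N ^ j) c) x * ((j.factorial : ℕ) : ZMod p)⁻¹) * descPochhammer (ZMod p) j) =
        (n.choose j : ZMod p) * ((N ^ j) c) x := by
      intro j hj
      have hj' : j < p := by
        have := mem_range.1 hj
        omega
      rw [eval_mul, eval_C, descPochhammer_eval_eq_descFactorial,
        Nat.descFactorial_eq_factorial_mul_choose]
      have h7 : ((j.factorial : ℕ) : ZMod p) ≠ 0 := by
        intro h8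
        rw [ZMod.natCast_eq_zero_iff, hprime.dvd_factorial] at h8
        omega
      push_cast
      field_simp
    rw [h4]
    change eval (n : ZMod p) (∑ j ∈ range (D + 1), _) = _
    rw [eval_finsetSum, Finset.sum_congr rfl h6]
    rcases le_total D n with h8 | h8
    · refine Finset.sum_subset (fun j hj => ?_) ?_
      · rw [mem_range] at hj ⊢
        omega
      · intro j _ hj
        rw [hz j (by rw [mem_range] at hj; omega), Pi.zero_apply, mul_zero]
    · refine (Finset.sum_subset (fun j hj => ?_) ?_).symm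
      · rw [mem_range] at hj ⊢
        omega
      · intro j _ hj
        rw [Nat.choose_eq_zero_of_lt (by rw [mem_range] at hj; omega), Nat.cast_zero, zero_mul]

/-- A polynomial of degree at most `D` takes a value at most `D` times in `0, ..., p - 1`. -/
theorem card_value_le {Q : (ZMod p)[X]} {D : ℕ} (hQ : Q.natDegree ≤ D) (f : ℕ → ZMod p)
    (hf : ∀ n : ℕ, Q.eval (n : ZMod p) = f n) (v : ZMod p) (hne : ∃ n, f n ≠ v) :
    ((range p).filter (fun t => f t = v)).card ≤ D := by
  classical
  have hnc : Q - C v ≠ 0 := by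
    intro h2
    have h3 : Q = C v := sub_eq_zero.1 h2
    obtain ⟨n, hn⟩ := hne
    apply hn
    rw [← hf, h3, eval_C]
  have h2 : ((range p).filter (fun t => f t = v)).card ≤ (Q - C v).roots.toFinset.card := by
    refine card_le_card_of_injOn (fun t : ℕ => (t : ZMod p)) ?_ ?_
    · intro t ht
      rw [mem_coe, mem_filter] at ht
      rw [mem_coe, Multiset.mem_toFinset, mem_roots hnc, IsRoot.def, eval_sub, eval_C, hf, ht.2,
        sub_self]
    · intro t ht t' ht' htt
      rw [mem_coe, mem_filter, mem_range] at ht ht'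
      have h3 : ((t : ℕ) : ZMod p) = ((t' : ℕ) : ZMod p) := htt
      rw [ZMod.natCast_eq_natCast_iff'] at h3
      rwa [Nat.mod_eq_of_lt ht.1, Nat.mod_eq_of_lt ht'.1] at h3
  refine h2.trans ?_
  refine (Multiset.toFinset_card_le _).trans ?_
  refine (card_roots' _).trans ?_
  refine (natDegree_sub_le _ _).trans ?_
  rw [natDegree_C]
  exact max_le hQ (Nat.zero_le _)

/-- A subset of a given size with at least the average weight. -/
theorem exists_heavy {A : Type*} [DecidableEq A] (C : Finset A) (w : A → ℕ) (j : ℕ)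
    (hj : j ≤ C.card) : ∃ B ⊆ C, B.card = j ∧ j * ∑ a ∈ C, w a ≤ C.card * ∑ a ∈ B, w a := by
  -- remove elements of least weight
  have key : ∀ i, i ≤ C.card → ∃ B ⊆ C, B.card = C.card - i ∧
      (C.card - i) * ∑ a ∈ C, w a ≤ C.card * ∑ a ∈ B, w a := by
    intro i
    induction i with
    | zero =>
      intro _
      exact ⟨C, Subset.refl _, rfl, le_rfl⟩
    | succ i ih =>
      intro hi
      obtain ⟨B, hBC, hBc, hB⟩ := ih (by omega)
      have hBne : B.Nonempty := by
        rw [← card_pos]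
        omega
      obtain ⟨a, ha, hmin⟩ := B.exists_min_image w hBne
      refine ⟨B.erase a, (erase_subset _ _).trans hBC, ?_, ?_⟩
      · rw [card_erase_of_mem ha, hBc]
        omega
      · have h1 : B.card * w a ≤ ∑ b ∈ B, w b := by
          rw [← smul_eq_mul, ← sum_const]
          exact sum_le_sum fun b hb => hmin b hb
        have h2 : ∑ b ∈ B.erase a, w b + w a = ∑ b ∈ B, w b := sum_erase_add _ _ ha
        obtain ⟨s, hs⟩ : ∃ s, B.card = s + 1 := ⟨B.card - 1, by omega⟩
        have h3 : C.card - i = s + 1 := by omega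
        have h4 : C.card - (i + 1) = s := by omega
        rw [h3] at hB
        rw [h4]
        rw [hs] at h1
        -- multiply by `s + 1`
        have h5 : (s + 1) * (s * ∑ a ∈ C, w a) ≤ (s + 1) * (C.card * ∑ b ∈ B.erase a, w b) := by
          have h6 : s * ∑ b ∈ B, w b ≤ (s + 1) * ∑ b ∈ B.erase a, w b := by
            nlinarith
          calc (s + 1) * (s * ∑ a ∈ C, w a) = s * ((s + 1) * ∑ a ∈ C, w a) := by ring
            _ ≤ s * (C.card * ∑ b ∈ B, w b) := Nat.mul_le_mul_left _ hB
            _ = C.card * (s * ∑ b ∈ B, w b) := by ring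
            _ ≤ C.card * ((s + 1) * ∑ b ∈ B.erase a, w b) := Nat.mul_le_mul_left _ h6
            _ = _ := by ring
        exact Nat.le_of_mul_le_mul_left h5 (Nat.succ_pos s)
  obtain ⟨B, hBC, hBc, hB⟩ := key (C.card - j) (by omega)
  have h1 : C.card - (C.card - j) = j := by omega
  rw [h1] at hBc hB
  exact ⟨B, hBC, hBc, hB⟩

theorem sum_card_fib {A : Type*} [DecidableEq A] (o : ℕ → A) (p : ℕ) (C : Finset A) :
    ∑ α ∈ C, ((range p).filter (fun t => o t = α)).card =
      ((range p).filter (fun t => o t ∈ C)).card := by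
  classical
  have h : (range p).filter (fun t => o t ∈ C) =
      C.biUnion (fun α => (range p).filter (fun t => o t = α)) := by
    ext t
    simp only [mem_filter, mem_biUnion]
    constructor
    · rintro ⟨h1, h2⟩
      exact ⟨o t, h2, h1, rfl⟩
    · rintro ⟨α, h1, h2, h3⟩
      exact ⟨h2, by rw [h3]; exact h1⟩
  rw [h, card_biUnion]
  intro α _ β _ hne
  rw [Function.onFun, Finset.disjoint_left]
  intro t ht ht'
  exact hne ((mem_filter.1 ht).2.symm.trans (mem_filter.1 ht').2)

variable {G : Type*} [Group G] [Finite G] {Z : Type*} [Fintype Z] [MulAction G Z]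

/-- Along the orbits of the conjugates of elements of `P` the function is a polynomial of degree at
most `D`. -/
def DegLe (P : Subgroup G) (D : ℕ) (c : Z → ZMod p) : Prop :=
  ∀ y ∈ Group.conjugatesOfSet (P : Set G), ((act (ZMod p) y - 1) ^ (D + 1)) c = 0

theorem inv_mem_conj (P : Subgroup G) {y : G} (hy : y ∈ Group.conjugatesOfSet (P : Set G)) :
    y⁻¹ ∈ Group.conjugatesOfSet (P : Set G) := by
  rw [Group.mem_conjugatesOfSet_iff] at hy ⊢
  obtain ⟨a, ha, h⟩ := hy
  obtain ⟨b, rfl⟩ := isConj_iff.1 h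
  exact ⟨a⁻¹, P.inv_mem ha, isConj_iff.2 ⟨b, by group⟩⟩

theorem line_poly {P : Subgroup G} {D : ℕ} (hDp : D < p) {c : Z → ZMod p} (hc : DegLe P D c)
    {y : G} (hy : y ∈ Group.conjugatesOfSet (P : Set G)) (x : Z) :
    ∃ Q : (ZMod p)[X], Q.natDegree ≤ D ∧ ∀ n : ℕ, Q.eval (n : ZMod p) = c (y ^ n • x) := by
  obtain ⟨Q, hQ, hQ'⟩ := exists_poly (act (ZMod p) y⁻¹) c hDp (hc _ (inv_mem_conj P hy)) x
  refine ⟨Q, hQ, fun n => ?_⟩
  rw [hQ', ← act_pow, act_apply, inv_pow, inv_inv]

/-- **The greedy argument.** -/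
theorem greedy (P : Subgroup G) {D : ℕ} (hDp : D < p) (Y : Set Z)
    (hYst : ∀ k ∈ Subgroup.normalClosure (P : Set G), ∀ x ∈ Y, k • x ∈ Y)
    (hYtr : ∀ x ∈ Y, ∀ x' ∈ Y, ∃ k ∈ Subgroup.normalClosure (P : Set G), k • x = x')
    [DecidableEq (orbitRel.Quotient P Z)]
    (ΩY : Finset (orbitRel.Quotient P Z))
    (hΩ : ∀ x : Z, (Quotient.mk'' x : orbitRel.Quotient P Z) ∈ ΩY ↔ x ∈ Y) :
    ∀ (n : ℕ) (𝒢 : Submodule (ZMod p) (Z → ZMod p)) (R : Finset (orbitRel.Quotient P Z)),
      R ⊆ ΩY → R.Nonempty → (ΩY \ R).card = n →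
      (∀ f ∈ 𝒢, P ≤ stab f ∧ DegLe P D f ∧ ∀ x, x ∉ Y → f x = 0) →
      (∀ f ∈ 𝒢, ∀ x, (Quotient.mk'' x : orbitRel.Quotient P Z) ∈ R → f x = 0) →
      p * finrank (ZMod p) 𝒢 ≤ 3 * D * n := by
  classical
  intro n
  induction n using Nat.strong_induction_on with
  | _ n ih =>
  intro 𝒢 R hRΩ hRne hn h𝒢 hR0
  have hprime : p.Prime := Fact.out
  by_cases hbot : 𝒢 = ⊥
  · rw [hbot, finrank_bot, mul_zero]
    exact Nat.zero_le _
  obtain ⟨f₀, hf₀, hf₀ne⟩ := Submodule.exists_mem_ne_zero_of_ne_bot hbot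
  obtain ⟨x₁, hx₁⟩ := Function.ne_iff.1 hf₀ne
  have hx₁Y : x₁ ∈ Y := by
    by_contra h
    exact hx₁ ((h𝒢 f₀ hf₀).2.2 x₁ h)
  have hx₁R : (Quotient.mk'' x₁ : orbitRel.Quotient P Z) ∉ R := fun h => hx₁ (hR0 f₀ hf₀ x₁ h)
  -- a line that leaves the region
  have hline : ∃ x : Z, ∃ y ∈ Group.conjugatesOfSet (P : Set G),
      (Quotient.mk'' x : orbitRel.Quotient P Z) ∈ R ∧
      (Quotient.mk'' (y • x) : orbitRel.Quotient P Z) ∉ R := by
    by_contra hcon
    push Not at hcon
    have h1 : ∀ k ∈ Subgroup.normalClosure (P : Set G),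
        (∀ x : Z, (Quotient.mk'' x : orbitRel.Quotient P Z) ∈ R →
          (Quotient.mk'' (k • x) : orbitRel.Quotient P Z) ∈ R) ∧
        (∀ x : Z, (Quotient.mk'' x : orbitRel.Quotient P Z) ∈ R →
          (Quotient.mk'' (k⁻¹ • x) : orbitRel.Quotient P Z) ∈ R) := by
      intro k hk
      rw [Subgroup.normalClosure] at hk
      induction hk using Subgroup.closure_induction with
      | mem y hy => exact ⟨fun x hx => hcon x y hy hx, fun x hx => hcon x y⁻¹ (inv_mem_conj P hy) hx⟩
      | one =>
        refine ⟨fun x hx => ?_, fun x hx => ?_⟩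
        · rwa [one_smul]
        · rwa [inv_one, one_smul]
      | mul a b _ _ ha hb =>
        refine ⟨fun x hx => ?_, fun x hx => ?_⟩
        · rw [mul_smul]
          exact ha.1 _ (hb.1 _ hx)
        · rw [mul_inv_rev, mul_smul]
          exact hb.2 _ (ha.2 _ hx)
      | inv a _ ha =>
        refine ⟨ha.2, fun x hx => ?_⟩
        rw [inv_inv]
        exact ha.1 x hx
    obtain ⟨ω, hω⟩ := hRne
    have h2 : (Quotient.mk'' ω.out : orbitRel.Quotient P Z) = ω := Quotient.out_eq' ω
    rw [← h2] at hω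
    obtain ⟨k, hk, hkx⟩ := hYtr ω.out ((hΩ _).1 (hRΩ hω)) x₁ hx₁Y
    have h3 := (h1 k hk).1 _ hω
    rw [hkx] at h3
    exact hx₁R h3
  obtain ⟨x, y, hy, hxR, hyxR⟩ := hline
  have hyK : ∀ t : ℕ, y ^ t ∈ Subgroup.normalClosure (P : Set G) := fun t =>
    Subgroup.pow_mem _ (Subgroup.conjugatesOfSet_subset_normalClosure hy) t
  have hxY : x ∈ Y := (hΩ x).1 (hRΩ hxR)
  let o : ℕ → orbitRel.Quotient P Z := fun t => Quotient.mk'' (y ^ t • x)
  have hoΩ : ∀ t, o t ∈ ΩY := fun t => (hΩ _).2 (hYst _ (hyK t) x hxY)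
  let C' : Finset (orbitRel.Quotient P Z) := ((range p).image o) \ R
  have hC'Ω : C' ⊆ ΩY := by
    intro α hα
    rw [mem_sdiff, mem_image] at hα
    obtain ⟨⟨t, _, rfl⟩, _⟩ := hα
    exact hoΩ t
  have ho1 : o 1 ∈ C' := by
    rw [mem_sdiff, mem_image]
    refine ⟨⟨1, mem_range.2 hprime.one_lt, rfl⟩, ?_⟩
    change (Quotient.mk'' (y ^ 1 • x) : orbitRel.Quotient P Z) ∉ R
    rw [pow_one]
    exact hyxR
  have hr1 : 1 ≤ C'.card := card_pos.2 ⟨_, ho1⟩
  -- values on classes
  have hval : ∀ f ∈ 𝒢, ∀ z : Z, f z = f (Quotient.mk'' z : orbitRel.Quotient P Z).out := by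
    intro f hf z
    have h2 : (Quotient.mk'' (Quotient.out (Quotient.mk'' z : orbitRel.Quotient P Z)) :
        orbitRel.Quotient P Z) = Quotient.mk'' z := Quotient.out_eq' _
    rw [mk_eq_iff] at h2
    obtain ⟨g, hg, h3⟩ := h2
    change f z = f (Quotient.out (Quotient.mk'' z : orbitRel.Quotient P Z))
    rw [← h3, stab_apply ((h𝒢 f hf).1 hg)]
  let ev0 : (Z → ZMod p) →ₗ[ZMod p] (C' → ZMod p) :=
    { toFun := fun f α => f α.1.out
      map_add' := fun _ _ => rfl
      map_smul' := fun _ _ => rfl }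
  let ev : 𝒢 →ₗ[ZMod p] (C' → ZMod p) := ev0.comp 𝒢.subtype
  have hrn := LinearMap.finrank_range_add_finrank_ker ev
  set s := finrank (ZMod p) (LinearMap.range ev) with hs
  -- the kernel
  let 𝒢' : Submodule (ZMod p) (Z → ZMod p) := 𝒢 ⊓ LinearMap.ker ev0
  have hker : finrank (ZMod p) (LinearMap.ker ev) ≤ finrank (ZMod p) 𝒢' := by
    let φ : LinearMap.ker ev →ₗ[ZMod p] 𝒢' :=
      { toFun := fun f => ⟨f.1.1, f.1.2, f.2⟩
        map_add' := fun _ _ => rfl
        map_smul' := fun _ _ => rfl }
    refine LinearMap.finrank_le_finrank_of_injective (f := φ) ?_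
    intro f f' h
    apply Subtype.ext
    apply Subtype.ext
    exact congrArg (fun a : 𝒢' => (a : Z → ZMod p)) h
  have hih : p * finrank (ZMod p) 𝒢' ≤ 3 * D * (n - C'.card) := by
    have hsd : (ΩY \ (R ∪ C')).card = n - C'.card := by
      have h1 : ΩY \ (R ∪ C') = (ΩY \ R) \ C' := by
        ext α
        simp only [mem_sdiff, mem_union]
        tauto
      rw [← hn, h1]
      rw [card_sdiff_of_subset]
      intro α hα
      rw [mem_sdiff]
      exact ⟨hC'Ω hα, (mem_sdiff.1 hα).2⟩
    have hle : C'.card ≤ n := by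
      rw [← hn]
      refine card_le_card ?_
      intro α hα
      rw [mem_sdiff]
      exact ⟨hC'Ω hα, (mem_sdiff.1 hα).2⟩
    refine ih (n - C'.card) (by omega) 𝒢' (R ∪ C') (union_subset hRΩ hC'Ω)
      (hRne.mono subset_union_left) hsd (fun f hf => h𝒢 f hf.1) ?_
    intro f hf z hz
    rw [mem_union] at hz
    rcases hz with hz | hz
    · exact hR0 f hf.1 z hz
    · rw [hval f hf.1 z]
      have h2 : ev0 f = 0 := hf.2
      exact congrFun h2 ⟨_, hz⟩
  -- the image
  have himg : p * s ≤ 3 * D * C'.card := by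
    rcases Nat.eq_zero_or_pos s with h0 | hspos
    · rw [h0, mul_zero]
      exact Nat.zero_le _
    -- the polynomial of a function which does not vanish on the line
    have hpoly : ∀ f ∈ 𝒢, ∃ Q : (ZMod p)[X], Q.natDegree ≤ D ∧
        ∀ t : ℕ, Q.eval (t : ZMod p) = f (y ^ t • x) := fun f hf =>
      line_poly hDp (h𝒢 f hf).2.1 hy x
    have hnz : ∀ f ∈ 𝒢, ev0 f ≠ 0 → ∃ t : ℕ, f (y ^ t • x) ≠ 0 := by
      intro f hf hne
      obtain ⟨α, hα⟩ := Function.ne_iff.1 hne
      obtain ⟨t, -, ht⟩ := mem_image.1 (mem_sdiff.1 α.2).1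
      refine ⟨t, ?_⟩
      rw [hval f hf]
      have h2 : (Quotient.mk'' (y ^ t • x) : orbitRel.Quotient P Z) = α.1 := ht
      rw [h2]
      exact hα
    have hx0 : ∀ f ∈ 𝒢, f (y ^ 0 • x) = 0 := by
      intro f hf
      rw [pow_zero, one_smul]
      exact hR0 f hf x hxR
    -- first estimate
    have h1 : p ≤ D * (C'.card + 1) := by
      have h2 : LinearMap.range ev ≠ ⊥ := by
        intro h
        rw [h, finrank_bot] at hs
        omega
      obtain ⟨w, ⟨f, hfw⟩, hw⟩ := Submodule.exists_mem_ne_zero_of_ne_bot h2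
      have hev : ev0 f.1 ≠ 0 := by
        intro h
        apply hw
        rw [← hfw]
        exact h
      obtain ⟨Q, hQ, hQ'⟩ := hpoly f.1 f.2
      obtain ⟨t₀, ht₀⟩ := hnz f.1 f.2 hev
      let V : Finset (ZMod p) := insert 0 (C'.image (fun α => f.1 α.out))
      have hV : V.card ≤ C'.card + 1 := (card_insert_le _ _).trans
        (Nat.add_le_add_right card_image_le 1)
      have hmaps : ∀ t ∈ range p, f.1 (y ^ t • x) ∈ V := by
        intro t ht
        rw [mem_insert]
        by_cases h3 : o t ∈ R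
        · left
          exact hR0 f.1 f.2 _ h3
        · right
          rw [mem_image]
          refine ⟨o t, mem_sdiff.2 ⟨mem_image_of_mem _ ht, h3⟩, ?_⟩
          exact (hval f.1 f.2 _).symm
      have h3 := Finset.card_le_mul_card_image_of_maps_to (s := range p) (t := V)
        (f := fun t => f.1 (y ^ t • x)) hmaps D (by
          intro v _
          refine card_value_le hQ _ hQ' v ?_
          by_cases hv : v = 0
          · exact ⟨t₀, by rw [hv]; exact ht₀⟩
          · exact ⟨0, by rw [hx0 f.1 f.2]; exact fun h => hv h.symm⟩)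
      rw [card_range] at h3
      exact h3.trans (Nat.mul_le_mul_left _ hV)
    -- second estimate
    have h2 : p * (s - 1) ≤ D * C'.card := by
      have hsC : s ≤ C'.card := by
        have h3 : s ≤ finrank (ZMod p) (C' → ZMod p) := Submodule.finrank_le _
        rw [Module.finrank_fintype_fun_eq_card, Fintype.card_coe] at h3
        exact h3
      let w : orbitRel.Quotient P Z → ℕ := fun α => ((range p).filter (fun t => o t = α)).card
      obtain ⟨A, hAC, hAc, hA⟩ := exists_heavy C' w (s - 1) (by omega)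
      -- an element of the image that vanishes on `A`
      let rA : LinearMap.range ev →ₗ[ZMod p] (A → ZMod p) :=
        { toFun := fun v α => v.1 ⟨α.1, hAC α.2⟩
          map_add' := fun _ _ => rfl
          map_smul' := fun _ _ => rfl }
      have h3 : finrank (ZMod p) (A → ZMod p) < finrank (ZMod p) (LinearMap.range ev) := by
        rw [Module.finrank_fintype_fun_eq_card, Fintype.card_coe, hAc, ← hs]
        omega
      have h4 : LinearMap.ker rA ≠ ⊥ := LinearMap.ker_ne_bot_of_finrank_lt h3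
      obtain ⟨v, hv, hvne⟩ := Submodule.exists_mem_ne_zero_of_ne_bot h4
      obtain ⟨f, hfv⟩ := v.2
      have hev : ev0 f.1 ≠ 0 := by
        intro h
        apply hvne
        apply Subtype.ext
        rw [← hfv]
        exact h
      have hfA : ∀ α ∈ A, f.1 α.out = 0 := by
        intro α hα
        have h5 : rA v = 0 := hv
        have h6 := congrFun h5 ⟨α, hα⟩
        change v.1 ⟨α, hAC hα⟩ = 0 at h6
        rw [← hfv] at h6
        exact h6
      obtain ⟨Q, hQ, hQ'⟩ := hpoly f.1 f.2
      have hz := card_value_le hQ _ hQ' 0 (hnz f.1 f.2 hev)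
      -- count the zeros
      have hwC : ∑ α ∈ C', w α = ((range p).filter (fun t => o t ∈ C')).card :=
        sum_card_fib o p C'
      have hwA : ∑ α ∈ A, w α = ((range p).filter (fun t => o t ∈ A)).card :=
        sum_card_fib o p A
      have hsub : ((range p).filter (fun t => ¬ o t ∈ C')) ∪ ((range p).filter (fun t => o t ∈ A)) ⊆
          (range p).filter (fun t => f.1 (y ^ t • x) = 0) := by
        intro t ht
        rw [mem_union, mem_filter, mem_filter] at ht
        rw [mem_filter]
        rcases ht with ⟨ht, h5⟩ | ⟨ht, h5⟩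
        · refine ⟨ht, ?_⟩
          apply hR0 f.1 f.2
          by_contra h6
          exact h5 (mem_sdiff.2 ⟨mem_image_of_mem _ ht, h6⟩)
        · refine ⟨ht, ?_⟩
          rw [hval f.1 f.2]
          exact hfA _ h5
      have hdisj : Disjoint ((range p).filter (fun t => ¬ o t ∈ C'))
          ((range p).filter (fun t => o t ∈ A)) := by
        rw [Finset.disjoint_left]
        intro t ht ht'
        exact (mem_filter.1 ht).2 (hAC (mem_filter.1 ht').2)
      have h5 := card_le_card hsub
      rw [card_union_of_disjoint hdisj] at h5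
      have h6 := Finset.card_filter_add_card_filter_not (s := range p) (fun t => o t ∈ C')
      rw [card_range] at h6
      -- combine
      set a := ((range p).filter (fun t => ¬ o t ∈ C')).card
      set b := ((range p).filter (fun t => o t ∈ C')).card
      set c := ((range p).filter (fun t => o t ∈ A)).card
      rw [hwC, hwA] at hA
      have h7 : (s - 1) * a ≤ C'.card * a := Nat.mul_le_mul_right _ (by omega)
      calc p * (s - 1) = (s - 1) * a + (s - 1) * b := by rw [← h6]; ring
        _ ≤ C'.card * a + C'.card * c := Nat.add_le_add h7 hA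
        _ = C'.card * (a + c) := by ring
        _ ≤ C'.card * D := Nat.mul_le_mul_left _ (h5.trans hz)
        _ = D * C'.card := by ring
    calc p * s = p * (s - 1) + p := by
          rw [← Nat.mul_succ]
          congr 1
          omega
      _ ≤ D * C'.card + D * (C'.card + 1) := Nat.add_le_add h2 h1
      _ ≤ 3 * D * C'.card := by nlinarith [Nat.mul_le_mul_left D hr1]
  have hle : C'.card ≤ n := by
    rw [← hn]
    refine card_le_card ?_
    intro α hα
    rw [mem_sdiff]
    exact ⟨hC'Ω hα, (mem_sdiff.1 hα).2⟩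
  calc p * finrank (ZMod p) 𝒢 = p * s + p * finrank (ZMod p) (LinearMap.ker ev) := by
        rw [← hrn]; ring
    _ ≤ 3 * D * C'.card + p * finrank (ZMod p) 𝒢' :=
        Nat.add_le_add himg (Nat.mul_le_mul_left _ hker)
    _ ≤ 3 * D * C'.card + 3 * D * (n - C'.card) := Nat.add_le_add_left hih _
    _ = 3 * D * n := by rw [← Nat.mul_add, Nat.add_sub_cancel' hle]

end Pool.Agent.Y1.SM
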