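import Mathlib
import Pool.Agent.Y1.SM.Greedy
import Pool.Agent.Y1.SM.OrbitSize

/-!
# The number of invariant functions of small degree
-/

set_option linter.unusedSectionVars false
set_option linter.unusedVariables false

namespace Pool.Agent.Y1.SM

open Finset Module MulAction Polynomial

variable {p : ℕ} [Fact p.Prime] {G : Type*} [Group G] [Finite G]

section one

variable {Z : Type*} [Fintype Z] [MulAction G Z]

/-- The functions invariant under `P`, of degree at most `D` along all lines, that vanish outside of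
`Y`. -/
def gam (P : Subgroup G) (D : ℕ) (Y : Set Z) : Submodule (ZMod p) (Z → ZMod p) where
  carrier := {c | P ≤ stab c ∧ DegLe P D c ∧ ∀ x, x ∉ Y → c x = 0}
  zero_mem' := by
    refine ⟨fun g _ => ?_, fun y _ => map_zero _, fun _ _ => rfl⟩
    exact map_zero _
  add_mem' := by
    rintro a b ⟨ha1, ha2, ha3⟩ ⟨hb1, hb2, hb3⟩
    refine ⟨fun g hg => ?_, fun y hy => ?_, fun x hx => ?_⟩
    · rw [mem_stab, map_add, mem_stab.1 (ha1 hg), mem_stab.1 (hb1 hg)]
    · rw [map_add, ha2 y hy, hb2 y hy, add_zero]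
    · rw [Pi.add_apply, ha3 x hx, hb3 x hx, add_zero]
  smul_mem' := by
    rintro s a ⟨ha1, ha2, ha3⟩
    refine ⟨fun g hg => ?_, fun y hy => ?_, fun x hx => ?_⟩
    · rw [mem_stab, map_smul, mem_stab.1 (ha1 hg)]
    · rw [map_smul, ha2 y hy, smul_zero]
    · rw [Pi.smul_apply, ha3 x hx, smul_zero]

theorem finrank_gam_le (P : Subgroup G) {D : ℕ} (hDp : D < p) (Y : Set Z) (hYne : Y.Nonempty)
    (hYst : ∀ k ∈ Subgroup.normalClosure (P : Set G), ∀ x ∈ Y, k • x ∈ Y)
    (hYtr : ∀ x ∈ Y, ∀ x' ∈ Y, ∃ k ∈ Subgroup.normalClosure (P : Set G), k • x = x') :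
    p * finrank (ZMod p) (gam (p := p) P D Y) ≤
      p + 3 * D * Nat.card {ω : orbitRel.Quotient P Z // ω.out ∈ Y} := by
  classical
  have _ : Fintype (orbitRel.Quotient P Z) := Fintype.ofFinite _
  let ΩY : Finset (orbitRel.Quotient P Z) := univ.filter (fun ω => ω.out ∈ Y)
  have hΩ : ∀ x : Z, (Quotient.mk'' x : orbitRel.Quotient P Z) ∈ ΩY ↔ x ∈ Y := by
    intro x
    rw [mem_filter]
    have h2 : (Quotient.mk'' (Quotient.out (Quotient.mk'' x : orbitRel.Quotient P Z)) :
        orbitRel.Quotient P Z) = Quotient.mk'' x := Quotient.out_eq' _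
    rw [mk_eq_iff] at h2
    obtain ⟨g, hg, h3⟩ := h2
    have hgK : g ∈ Subgroup.normalClosure (P : Set G) := Subgroup.subset_normalClosure hg
    constructor
    · rintro ⟨_, h4⟩
      have h5 : Quotient.out (Quotient.mk'' x : orbitRel.Quotient P Z) ∈ Y := h4
      rw [← h3] at h5
      have h6 := hYst g⁻¹ (Subgroup.inv_mem _ hgK) _ h5
      rwa [inv_smul_smul] at h6
    · intro h4
      refine ⟨mem_univ _, ?_⟩
      change Quotient.out (Quotient.mk'' x : orbitRel.Quotient P Z) ∈ Y
      rw [← h3]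
      exact hYst g hgK x h4
  have hcard : Nat.card {ω : orbitRel.Quotient P Z // ω.out ∈ Y} = ΩY.card := by
    rw [Nat.card_eq_fintype_card, Fintype.card_subtype]
  rw [hcard]
  obtain ⟨x₀, hx₀⟩ := hYne
  let ω₀ : orbitRel.Quotient P Z := Quotient.mk'' x₀
  have hω₀ : ω₀ ∈ ΩY := (hΩ x₀).2 hx₀
  let ev : (Z → ZMod p) →ₗ[ZMod p] ZMod p := LinearMap.proj x₀
  let 𝒢 : Submodule (ZMod p) (Z → ZMod p) := gam (p := p) P D Y ⊓ LinearMap.ker ev
  have h1 := greedy P hDp Y hYst hYtr ΩY hΩ (ΩY \ {ω₀}).card 𝒢 {ω₀}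
    (singleton_subset_iff.2 hω₀) (singleton_nonempty _) rfl (fun f hf => hf.1) (by
      intro f hf x hx
      rw [mem_singleton, mk_eq_iff] at hx
      obtain ⟨g, hg, h3⟩ := hx
      rw [← h3, stab_apply (hf.1.1 hg)]
      exact hf.2)
  have h2 : finrank (ZMod p) (gam (p := p) P D Y) ≤ 1 + finrank (ZMod p) 𝒢 := by
    let e' : gam (p := p) P D Y →ₗ[ZMod p] ZMod p := ev.comp (gam (p := p) P D Y).subtype
    have h3 := LinearMap.finrank_range_add_finrank_ker e'
    have h4 : finrank (ZMod p) (LinearMap.range e') ≤ 1 := by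
      have h5 := Submodule.finrank_le (LinearMap.range e')
      rwa [finrank_self] at h5
    have h5 : finrank (ZMod p) (LinearMap.ker e') ≤ finrank (ZMod p) 𝒢 := by
      let φ : LinearMap.ker e' →ₗ[ZMod p] 𝒢 :=
        { toFun := fun f => ⟨f.1.1, f.1.2, f.2⟩
          map_add' := fun _ _ => rfl
          map_smul' := fun _ _ => rfl }
      refine LinearMap.finrank_le_finrank_of_injective (f := φ) ?_
      intro f f' h
      apply Subtype.ext
      apply Subtype.ext
      exact congrArg (fun a : 𝒢 => (a : Z → ZMod p)) h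
    omega
  calc p * finrank (ZMod p) (gam (p := p) P D Y) ≤ p * (1 + finrank (ZMod p) 𝒢) :=
        Nat.mul_le_mul_left _ h2
    _ = p + p * finrank (ZMod p) 𝒢 := by ring
    _ ≤ p + 3 * D * (ΩY \ {ω₀}).card := Nat.add_le_add_left h1 _
    _ ≤ p + 3 * D * ΩY.card :=
        Nat.add_le_add_left (Nat.mul_le_mul_left _ (card_le_card sdiff_subset)) _

/-- Restriction to a stable set. -/
def cutTo (Y : Set Z) [DecidablePred (· ∈ Y)] : Module.End (ZMod p) (Z → ZMod p) where
  toFun c := fun x => if x ∈ Y then c x else 0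
  map_add' a b := by
    funext x
    simp only [Pi.add_apply]
    split_ifs
    · rfl
    · rw [add_zero]
  map_smul' s a := by
    funext x
    simp only [Pi.smul_apply, RingHom.id_apply]
    split_ifs
    · rfl
    · rw [smul_zero]

theorem cutTo_apply (Y : Set Z) [DecidablePred (· ∈ Y)] (c : Z → ZMod p) (x : Z) :
    cutTo Y c x = if x ∈ Y then c x else 0 := rfl

theorem cutTo_comm (Y : Set Z) [DecidablePred (· ∈ Y)] {y : G} (hy : ∀ x, y⁻¹ • x ∈ Y ↔ x ∈ Y) :
    Commute (act (ZMod p) y) (cutTo (p := p) Y) := by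
  apply LinearMap.ext
  intro c
  funext x
  rw [Module.End.mul_apply, Module.End.mul_apply, act_apply, cutTo_apply, cutTo_apply, act_apply]
  simp only [hy]

theorem cutTo_mem (P : Subgroup G) {D : ℕ} (Y Y' : Set Z) [DecidablePred (· ∈ Y)]
    (hYst : ∀ k ∈ Subgroup.normalClosure (P : Set G), ∀ x ∈ Y, k • x ∈ Y) {c : Z → ZMod p}
    (hc : c ∈ gam (p := p) P D Y') : cutTo Y c ∈ gam (p := p) P D Y := by
  have hst : ∀ k ∈ Subgroup.normalClosure (P : Set G), ∀ x, k⁻¹ • x ∈ Y ↔ x ∈ Y := by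
    intro k hk x
    constructor
    · intro h
      have h1 := hYst k hk _ h
      rwa [smul_inv_smul] at h1
    · intro h
      exact hYst _ (Subgroup.inv_mem _ hk) x h
  refine ⟨fun g hg => ?_, fun y hy => ?_, fun x hx => ?_⟩
  · rw [mem_stab, ← Module.End.mul_apply,
      (cutTo_comm (p := p) Y (hst g (Subgroup.subset_normalClosure hg))).eq, Module.End.mul_apply,
      mem_stab.1 (hc.1 hg)]
  · have h1 : Commute ((act (ZMod p) y - 1) ^ (D + 1)) (cutTo (p := p) Y) := by
      apply Commute.pow_left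
      exact (cutTo_comm (p := p) Y (hst y (Subgroup.conjugatesOfSet_subset_normalClosure hy))).sub_left
        (Commute.one_left _)
    rw [← Module.End.mul_apply, h1.eq, Module.End.mul_apply, hc.2.1 y hy, map_zero]
  · rw [cutTo_apply, if_neg hx]

end one

end Pool.Agent.Y1.SM
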