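import Mathlib
import Pool.Agent.Y1.SM.Gamma
import Pool.Agent.Y1.SM.CaseA

/-!
# The number of invariant functions of small degree on a family
-/

set_option linter.unusedSectionVars false
set_option linter.unusedVariables false

namespace Pool.Agent.Y1.SM

open Finset Module MulAction Polynomial

variable {p : ℕ} [Fact p.Prime] {G : Type*} [Group G] [Finite G] {ι : Type*} [Fintype ι]
  {X : ι → Type*} [∀ i, Fintype (X i)] [∀ i, MulAction G (X i)]

section size

variable {Z : Type*} [Fintype Z] [MulAction G Z] (K : Subgroup G) [hKn : K.Normal]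

open Classical in
/-- The size of the orbit of `K`. -/
noncomputable def bs (z : Z) : ℕ :=
  (univ.filter (fun z' => (Quotient.mk'' z' : orbitRel.Quotient K Z) = Quotient.mk'' z)).card

theorem bs_smul (g : G) (z : Z) : bs K (g • z) = bs K z := by
  classical
  refine Finset.card_nbij' (fun x => g⁻¹ • x) (fun x => g • x) ?_ ?_ ?_ ?_
  · intro x hx
    rw [mem_coe, mem_filter] at hx ⊢
    refine ⟨mem_univ _, ?_⟩
    rw [← gmap_mk, hx.2, gmap_mk, inv_smul_smul]
  · intro x hx
    rw [mem_coe, mem_filter] at hx ⊢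
    refine ⟨mem_univ _, ?_⟩
    rw [← gmap_mk, hx.2, gmap_mk]
  · intro x _
    exact smul_inv_smul _ _
  · intro x _
    exact inv_smul_smul _ _

end size

/-- The number of orbits of `P` in an orbit of `K`. -/
theorem numOrb_le (P : Sylow p G) (htr : ∀ i, ∀ x y : X i, ∃ g : G, g • x = y)
    (m k : ι → ℕ) (hcard : ∀ i, Fintype.card (X i) = 2 * (m i * p ^ k i)) (z₀ : Σ i, X i) :
    p ^ k z₀.1 * Nat.card {ω : orbitRel.Quotient (P : Subgroup G) (Σ i, X i) //
      ω.out ∈ {z | (Quotient.mk'' z : orbitRel.Quotient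
        (Subgroup.normalClosure ((P : Subgroup G) : Set G)) (Σ i, X i)) = Quotient.mk'' z₀}} ≤
      bs (Subgroup.normalClosure ((P : Subgroup G) : Set G)) z₀ := by
  classical
  set K : Subgroup G := Subgroup.normalClosure ((P : Subgroup G) : Set G) with hK
  have hPK : (P : Subgroup G) ≤ K := Subgroup.le_normalClosure
  let Ω := orbitRel.Quotient (P : Subgroup G) (Σ i, X i)
  have _ : Fintype Ω := Fintype.ofFinite _
  rw [Nat.card_eq_fintype_card, Fintype.card_subtype, mul_comm, ← smul_eq_mul, ← Finset.sum_const]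
  have hcompK : ∀ z z' : Σ i, X i, (Quotient.mk'' z : orbitRel.Quotient K (Σ i, X i)) =
      Quotient.mk'' z' → z.1 = z'.1 := by
    intro z z' h
    rw [mk_eq_iff] at h
    obtain ⟨g, _, h1⟩ := h
    rw [← h1]
    rfl
  have h1 : ∀ ω ∈ univ.filter (fun ω : Ω => ω.out ∈ {z | (Quotient.mk'' z :
      orbitRel.Quotient K (Σ i, X i)) = Quotient.mk'' z₀}),
      p ^ k z₀.1 ≤ ((univ : Finset (Σ i, X i)).filter (fun z => (Quotient.mk'' z : Ω) = ω)).card := by
    intro ω hω
    rw [mem_filter] at hω
    obtain ⟨⟨i, x⟩, hz⟩ : ∃ z : Σ i, X i, Quotient.out ω = z := ⟨_, rfl⟩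
    have h2 : i = z₀.1 := by
      have h3 := hcompK _ _ hω.2
      rw [hz] at h3
      exact h3
    have hω' : (Quotient.mk'' (⟨i, x⟩ : Σ i, X i) : Ω) = ω := by
      rw [← hz]
      exact Quotient.out_eq' ω
    have h3 := pow_dvd_orbit (X := X i) P (htr i) (k := k i)
      (by rw [Nat.card_eq_fintype_card, hcard i]; exact ⟨2 * m i, by ring⟩) x
    have h4 : Nat.card (orbit (P : Subgroup G) x) ≤
        ((univ : Finset (Σ i, X i)).filter (fun z => (Quotient.mk'' z : Ω) = ω)).card := by
      rw [Nat.card_coe_set_eq, ← Set.ncard_coe_finset]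
      refine Set.ncard_le_ncard_of_injOn (fun y => (⟨i, y⟩ : Σ i, X i)) ?_ ?_
        (Finset.finite_toSet _)
      · rintro _ ⟨g, rfl⟩
        rw [mem_coe, mem_filter]
        refine ⟨mem_univ _, ?_⟩
        rw [← hω', mk_eq_iff]
        exact ⟨g.1, g.2, rfl⟩
      · intro y _ y' _ h
        exact eq_of_heq (Sigma.mk.inj h).2
    rw [← h2]
    refine le_trans (Nat.le_of_dvd ?_ h3) h4
    rw [Nat.card_pos_iff]
    exact ⟨⟨⟨x, mem_orbit_self x⟩⟩, inferInstance⟩
  refine (Finset.sum_le_sum h1).trans ?_
  rw [← Finset.card_biUnion]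
  · refine card_le_card ?_
    intro z hz
    rw [mem_biUnion] at hz
    obtain ⟨ω, hω, hz⟩ := hz
    rw [mem_filter] at hω hz ⊢
    refine ⟨mem_univ _, ?_⟩
    have h2 : (Quotient.mk'' z : Ω) = Quotient.mk'' ω.out := by
      rw [hz.2]
      exact (Quotient.out_eq' ω).symm
    rw [mk_eq_iff] at h2
    obtain ⟨g, hg, h3⟩ := h2
    have h4 : (Quotient.mk'' z : orbitRel.Quotient K (Σ i, X i)) = Quotient.mk'' ω.out := by
      rw [mk_eq_iff]
      exact ⟨g, hPK hg, h3⟩
    rw [h4]
    exact hω.2
  · intro ω _ ω' _ hne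
    rw [Function.onFun, Finset.disjoint_left]
    intro z hz hz'
    rw [mem_filter] at hz hz'
    exact hne (hz.2.symm.trans hz'.2)

/-- The relevant points for the degree `D`. -/
def relSet (P : Subgroup G) (k : ι → ℕ) (B : Finset ι) (D : ℕ) : Set (Σ i, X i) :=
  {z | z.1 ∈ B ∧ p * p ^ k z.1 ≤ D * bs (Subgroup.normalClosure (P : Set G)) z}

theorem finrank_tot_le (P : Sylow p G) (htr : ∀ i, ∀ x y : X i, ∃ g : G, g • x = y)
    (m k : ι → ℕ) (hcard : ∀ i, Fintype.card (X i) = 2 * (m i * p ^ k i)) (B : Finset ι)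
    {D : ℕ} (hDp : D < p) :
    p * finrank (ZMod p) (gam (p := p) (P : Subgroup G) D
      (relSet (p := p) (X := X) (P : Subgroup G) k B D)) ≤ 8 * D * ∑ i ∈ B, m i := by
  classical
  have hp0 : 0 < p := (Fact.out : p.Prime).pos
  set K : Subgroup G := Subgroup.normalClosure ((P : Subgroup G) : Set G) with hK
  have hKn : K.Normal := Subgroup.normalClosure_normal
  let QK := orbitRel.Quotient K (Σ i, X i)
  have _ : Fintype QK := Fintype.ofFinite _
  let Rel : Set (Σ i, X i) := relSet (p := p) (X := X) (P : Subgroup G) k B D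
  let Yη : QK → Set (Σ i, X i) := fun η => {z | (Quotient.mk'' z : QK) = η}
  have hst : ∀ η, ∀ k ∈ K, ∀ x ∈ Yη η, k • x ∈ Yη η := by
    intro η κ hκ x hx
    change (Quotient.mk'' (κ • x) : QK) = η
    rw [← (show (Quotient.mk'' x : QK) = η from hx), mk_eq_iff]
    exact ⟨κ, hκ, rfl⟩
  have htrη : ∀ η, ∀ x ∈ Yη η, ∀ x' ∈ Yη η, ∃ k ∈ K, k • x = x' := by
    intro η x hx x' hx'
    have h1 : (Quotient.mk'' x' : QK) = Quotient.mk'' x :=
      (show (Quotient.mk'' x' : QK) = η from hx').trans
        (show (Quotient.mk'' x : QK) = η from hx).symm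
    rw [mk_eq_iff] at h1
    exact h1
  let RK : Finset QK := univ.filter (fun η => η.out ∈ Rel)
  let comp : QK → ι := fun η => η.out.1
  -- the embedding
  have hmem : ∀ (c : Σ i, X i) , c ∈ Rel ↔ (Quotient.mk'' c : QK).out ∈ Rel := by
    intro c
    have h1 : (Quotient.mk'' (Quotient.out (Quotient.mk'' c : QK)) : QK) = Quotient.mk'' c :=
      Quotient.out_eq' _
    have h2 : bs K c = bs K (Quotient.out (Quotient.mk'' c : QK)) := by
      rw [bs, bs, h1]
    rw [mk_eq_iff] at h1
    obtain ⟨g, hg, h3⟩ := h1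
    have h4 : (Quotient.out (Quotient.mk'' c : QK)).1 = c.1 := by
      rw [← h3]
      rfl
    change (c.1 ∈ B ∧ p * p ^ k c.1 ≤ D * bs K c) ↔
      ((Quotient.out (Quotient.mk'' c : QK)).1 ∈ B ∧
        p * p ^ k (Quotient.out (Quotient.mk'' c : QK)).1 ≤
          D * bs K (Quotient.out (Quotient.mk'' c : QK)))
    rw [h4, h2]
  let φ : gam (p := p) (P : Subgroup G) D Rel →ₗ[ZMod p]
      (∀ η : RK, gam (p := p) (P : Subgroup G) D (Yη η.1)) :=
    { toFun := fun c η => ⟨cutTo (Yη η.1) c.1, cutTo_mem (P : Subgroup G) _ Rel (hst η.1) c.2⟩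
      map_add' := by
        intro a b
        funext η
        apply Subtype.ext
        exact map_add (cutTo (Yη η.1)) a.1 b.1
      map_smul' := by
        intro s a
        funext η
        apply Subtype.ext
        exact map_smul (cutTo (Yη η.1)) s a.1 }
  have hφ : Function.Injective φ := by
    rw [← LinearMap.ker_eq_bot, LinearMap.ker_eq_bot']
    intro c hc
    apply Subtype.ext
    funext z
    by_cases hz : z ∈ Rel
    · have h1 : (Quotient.mk'' z : QK) ∈ RK := mem_filter.2 ⟨mem_univ _, (hmem z).1 hz⟩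
      have h2 := congrFun hc ⟨_, h1⟩
      have h3 := congrArg (fun a : gam (p := p) (P : Subgroup G) D (Yη (Quotient.mk'' z)) =>
        (a : (Σ i, X i) → ZMod p) z) h2
      change cutTo (Yη (Quotient.mk'' z)) c.1 z = 0 at h3
      rw [cutTo_apply, if_pos (show z ∈ Yη (Quotient.mk'' z) from rfl)] at h3
      exact h3
    · exact c.2.2.2 z hz
  have h1 := LinearMap.finrank_le_finrank_of_injective hφ
  rw [Module.finrank_pi_fintype, Finset.sum_coe_sort RK
    (fun η => finrank (ZMod p) (gam (p := p) (P : Subgroup G) D (Yη η)))] at h1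
  -- the bound for one orbit
  have hone : ∀ η ∈ RK, p ^ k (comp η) * (p * finrank (ZMod p)
      (gam (p := p) (P : Subgroup G) D (Yη η))) ≤ 4 * D * bs K η.out := by
    intro η hη
    have hηR := (mem_filter.1 hη).2
    have hηo : (Quotient.mk'' η.out : QK) = η := Quotient.out_eq' η
    have h2 := finrank_gam_le (P : Subgroup G) hDp (Yη η) ⟨η.out, hηo⟩ (hst η) (htrη η)
    have h3 := numOrb_le P htr m k hcard η.out
    have h4 : Nat.card {ω : orbitRel.Quotient (P : Subgroup G) (Σ i, X i) //
        ω.out ∈ {z | (Quotient.mk'' z : orbitRel.Quotient K (Σ i, X i)) = Quotient.mk'' η.out}} =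
        Nat.card {ω : orbitRel.Quotient (P : Subgroup G) (Σ i, X i) // ω.out ∈ Yη η} := by
      simp only [hηo]
      rfl
    rw [h4] at h3
    have h5 : p * p ^ k η.out.1 ≤ D * bs K η.out := hηR.2
    calc p ^ k (comp η) * (p * finrank (ZMod p) (gam (p := p) (P : Subgroup G) D (Yη η))) ≤
        p ^ k (comp η) * (p + 3 * D * Nat.card {ω : orbitRel.Quotient (P : Subgroup G) (Σ i, X i) //
          ω.out ∈ Yη η}) := Nat.mul_le_mul_left _ h2
      _ = p * p ^ k (comp η) + 3 * D * (p ^ k (comp η) * Nat.card {ω : orbitRel.Quotient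
          (P : Subgroup G) (Σ i, X i) // ω.out ∈ Yη η}) := by ring
      _ ≤ D * bs K η.out + 3 * D * bs K η.out :=
          Nat.add_le_add h5 (Nat.mul_le_mul_left _ h3)
      _ = 4 * D * bs K η.out := by ring
  -- the sum over a component
  have hcompB : ∀ η ∈ RK, comp η ∈ B := fun η hη => (mem_filter.1 hη).2.1
  have hcomp1 : ∀ i ∈ B, ∑ η ∈ RK.filter (fun η => comp η = i),
      p * finrank (ZMod p) (gam (p := p) (P : Subgroup G) D (Yη η)) ≤ 8 * D * m i := by
    intro i _
    have h2 : p ^ k i * ∑ η ∈ RK.filter (fun η => comp η = i),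
        p * finrank (ZMod p) (gam (p := p) (P : Subgroup G) D (Yη η)) ≤
        p ^ k i * (8 * D * m i) := by
      rw [Finset.mul_sum]
      calc ∑ η ∈ RK.filter (fun η => comp η = i),
          p ^ k i * (p * finrank (ZMod p) (gam (p := p) (P : Subgroup G) D (Yη η))) ≤
          ∑ η ∈ RK.filter (fun η => comp η = i), 4 * D * bs K η.out := by
            refine Finset.sum_le_sum fun η hη => ?_
            rw [mem_filter] at hη
            have h3 := hone η hη.1
            rw [hη.2] at h3
            exact h3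
        _ = 4 * D * ∑ η ∈ RK.filter (fun η => comp η = i), bs K η.out := by rw [Finset.mul_sum]
        _ ≤ 4 * D * Fintype.card (X i) := by
            apply Nat.mul_le_mul_left
            have h3 : ∑ η ∈ RK.filter (fun η => comp η = i), bs K η.out =
                ((RK.filter (fun η => comp η = i)).biUnion (fun η =>
                  univ.filter (fun z' : Σ i, X i => (Quotient.mk'' z' : QK) = Quotient.mk'' η.out))).card := by
              rw [Finset.card_biUnion]
              · rfl
              · intro η _ η' _ hne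
                rw [Function.onFun, Finset.disjoint_left]
                intro z hz hz'
                rw [mem_filter] at hz hz'
                apply hne
                have h4 := hz.2.symm.trans hz'.2
                have h5 : (Quotient.mk'' η.out : QK) = η := Quotient.out_eq' η
                have h6 : (Quotient.mk'' η'.out : QK) = η' := Quotient.out_eq' η'
                rw [h5, h6] at h4
                exact h4
            rw [h3]
            rw [← Finset.card_univ (α := X i), ← Finset.card_map ⟨Sigma.mk i, sigma_mk_injective⟩]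
            refine card_le_card ?_
            intro z hz
            rw [mem_biUnion] at hz
            obtain ⟨η, hη, hz⟩ := hz
            rw [mem_filter] at hη hz
            have h4 := hz.2
            rw [mk_eq_iff] at h4
            obtain ⟨g, _, h5⟩ := h4
            have h6 : z.1 = i := by
              rw [← h5, ← hη.2]
              rfl
            obtain ⟨i', x⟩ := z
            dsimp only at h6
            subst h6
            exact mem_map_of_mem _ (mem_univ x)
        _ = p ^ k i * (8 * D * m i) := by rw [hcard i]; ring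
    exact Nat.le_of_mul_le_mul_left h2 (pow_pos hp0 _)
  calc p * finrank (ZMod p) (gam (p := p) (P : Subgroup G) D Rel) ≤
      p * ∑ η ∈ RK, finrank (ZMod p) (gam (p := p) (P : Subgroup G) D (Yη η)) :=
        Nat.mul_le_mul_left _ h1
    _ = ∑ η ∈ RK, p * finrank (ZMod p) (gam (p := p) (P : Subgroup G) D (Yη η)) := by
        rw [Finset.mul_sum]
    _ = ∑ i ∈ B, ∑ η ∈ RK.filter (fun η => comp η = i),
          p * finrank (ZMod p) (gam (p := p) (P : Subgroup G) D (Yη η)) :=
        (Finset.sum_fiberwise_of_maps_to hcompB _).symm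
    _ ≤ ∑ i ∈ B, 8 * D * m i := Finset.sum_le_sum hcomp1
    _ = 8 * D * ∑ i ∈ B, m i := by rw [Finset.mul_sum]

end Pool.Agent.Y1.SM
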