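import Mathlib
import Pool.Agent.Y1.SM.Block
import Pool.Agent.Y1.SM.GammaTot

/-!
# Relations of minimal type, and the number of types orthogonal to one function
-/

set_option linter.unusedSectionVars false
set_option linter.unusedVariables false

namespace Pool.Agent.Y1.SM

open Finset Module MulAction Polynomial

variable {p : ℕ} [Fact p.Prime] {G : Type*} [Group G] [Finite G] {ι : Type*} [Fintype ι]
  {X : ι → Type*} [∀ i, Fintype (X i)] [∀ i, MulAction G (X i)]

/-- The components of `c` are zero or not invariant under `K`. -/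
def Star (K : Subgroup G) (c : (Σ i, X i) → ZMod p) : Prop :=
  ∀ i, (∃ x : X i, c ⟨i, x⟩ ≠ 0) → ∃ k ∈ K, ∃ x : X i, c ⟨i, k • x⟩ ≠ c ⟨i, x⟩

/-- In a nonzero stable space there is a nonzero function invariant under `P` which is invariant
under `K`, or of which each component is zero or not invariant under `K`. -/
theorem exists_good (P : Subgroup G) (hP : IsPGroup p P) (K : Subgroup G)
    (N : Submodule (ZMod p) ((Σ i, X i) → ZMod p))
    (hN : ∀ g : G, ∀ c ∈ N, act (ZMod p) g c ∈ N) (hne : N ≠ ⊥) :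
    ∃ c ∈ N, c ≠ 0 ∧ P ≤ stab c ∧ (K ≤ stab c ∨ Star K c) := by
  classical
  let Q : Submodule (ZMod p) ((Σ i, X i) → ZMod p) → Prop := fun M =>
    M ≤ N ∧ M ≠ ⊥ ∧ ∀ g : G, ∀ c ∈ M, act (ZMod p) g c ∈ M
  have hex : ∃ n, ∃ M, Q M ∧ finrank (ZMod p) M = n := ⟨_, N, ⟨le_rfl, hne, hN⟩, rfl⟩
  obtain ⟨M, ⟨hMN, hMne, hMst⟩, hMn⟩ := Nat.find_spec hex
  have hmin : ∀ M', M' ≤ M → M' ≠ ⊥ → (∀ g : G, ∀ c ∈ M', act (ZMod p) g c ∈ M') → M' = M := by
    intro M' h1 h2 h3
    refine Submodule.eq_of_le_of_finrank_le h1 ?_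
    rw [hMn]
    exact Nat.find_min' hex ⟨M', ⟨h1.trans hMN, h2, h3⟩, rfl⟩
  obtain ⟨c, hc, hc0, hcP⟩ := exists_fixed P hP M (fun g _ c hc => hMst g c hc) hMne
  refine ⟨c, hMN hc, hc0, hcP, ?_⟩
  by_cases hcK : K ≤ stab c
  · exact Or.inl hcK
  right
  rintro i ⟨x, hx⟩
  by_contra hcon
  push Not at hcon
  -- the functions with vanishing component
  let pri : ((Σ i, X i) → ZMod p) →ₗ[ZMod p] (X i → ZMod p) :=
    { toFun := fun f x => f ⟨i, x⟩
      map_add' := fun _ _ => rfl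
      map_smul' := fun _ _ => rfl }
  let M' := M ⊓ LinearMap.ker pri
  have hM'st : ∀ g : G, ∀ c ∈ M', act (ZMod p) g c ∈ M' := by
    rintro g f ⟨hf1, hf2⟩
    refine ⟨hMst g f hf1, ?_⟩
    rw [SetLike.mem_coe, LinearMap.mem_ker] at hf2 ⊢
    funext x
    exact congrFun hf2 (g⁻¹ • x)
  have hM' : M' = ⊥ := by
    by_contra h1
    have h2 := hmin M' inf_le_left h1 hM'st
    have h3 : c ∈ M' := by rw [h2]; exact hc
    have h4 : pri c = 0 := h3.2
    exact hx (congrFun h4 x)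
  apply hcK
  intro k hk
  have h1 : act (ZMod p) k c - c ∈ M' := by
    refine ⟨Submodule.sub_mem _ (hMst k c hc) hc, ?_⟩
    rw [SetLike.mem_coe, LinearMap.mem_ker]
    funext x
    change c ⟨i, k⁻¹ • x⟩ - c ⟨i, x⟩ = 0
    rw [hcon k⁻¹ (K.inv_mem hk) x, sub_self]
  rw [hM', Submodule.mem_bot, sub_eq_zero] at h1
  exact h1

section one

variable {Z : Type*} [Fintype Z] [MulAction G Z] (inv : Z → Z) {S : Set Z}

theorem exists_nilp (P : Subgroup G) (hP : IsPGroup p P) :
    ∃ n : ℕ, ∀ y ∈ Group.conjugatesOfSet (P : Set G),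
      (act (ZMod p) y - 1 : Module.End (ZMod p) (Z → ZMod p)) ^ n = 0 := by
  obtain ⟨n, hn⟩ := hP.exists_card_eq
  refine ⟨p ^ n, ?_⟩
  intro y hy
  rw [Group.mem_conjugatesOfSet_iff] at hy
  obtain ⟨a, ha, hay⟩ := hy
  obtain ⟨b, rfl⟩ := isConj_iff.1 hay
  have h1 : a ^ p ^ n = 1 := by
    have h2 : (⟨a, ha⟩ : P) ^ Nat.card P = 1 := pow_card_eq_one'
    rw [hn] at h2
    exact congrArg Subtype.val h2
  have h2 : (b * a * b⁻¹) ^ p ^ n = 1 := by
    rw [conj_pow, h1, mul_one, mul_inv_cancel]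
  have h3 : aeval (act (ZMod p) (b * a * b⁻¹) : Module.End (ZMod p) (Z → ZMod p))
      ((X - 1 : (ZMod p)[X]) ^ p ^ n) =
      aeval (act (ZMod p) (b * a * b⁻¹) : Module.End (ZMod p) (Z → ZMod p))
        (X ^ p ^ n - 1 : (ZMod p)[X]) := by
    congr 1
    rw [sub_pow_char_pow, one_pow]
  rw [map_pow, map_sub, map_sub, map_pow, aeval_X, map_one, ← act_pow, h2, act_one, sub_self] at h3
  exact h3

theorem ncard_one_le (hp2 : p ≠ 2) (P : Subgroup G) (hP : IsPGroup p P)
    (hinv : ∀ x, inv (inv x) = x) (hne : ∀ x, inv x ≠ x) (hG : ∀ (g : G) x, g • inv x = inv (g • x))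
    (hS : ∀ (g : G) x, x ∈ S → g • x ∈ S) {M : Z → ZMod p} (hM0 : ∀ x, M x ≠ 0)
    (hM : ∀ x, M (inv x) = M x) {g : ℕ} (hg : Fintype.card Z = 2 * g) (c : Z → ZMod p)
    (hc1 : ∀ x, x ∉ S → c x = 0) (hc2 : ∀ x, c (inv x) = - c x) {y : G}
    (hy : y ∈ Group.conjugatesOfSet (P : Set G)) (s : ℕ) (hs : ((act (ZMod p) y - 1) ^ s) c ≠ 0) :
    {Φ : Set Z | IsTy inv Φ ∧ c ∈ relSpace inv hG S hS (sg M Φ)}.ncard * 2 ^ (s + 1) ≤ 2 ^ g := by
  classical
  have h20 : (2 : ZMod p) ≠ 0 := two_ne_zero_zmod hp2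
  obtain ⟨n, hn⟩ := exists_nilp (Z := Z) P hP
  have hex : ∃ e : ℕ, ((act (ZMod p) y - 1 : Module.End (ZMod p) (Z → ZMod p)) ^ e) c = 0 :=
    ⟨n, by rw [hn y hy]; rfl⟩
  let e := Nat.find hex
  have he : ((act (ZMod p) y - 1) ^ e) c = 0 := Nat.find_spec hex
  have hse : s < e := by
    by_contra h
    apply hs
    have h1 : s = (s - e) + e := by omega
    rw [h1, pow_add, Module.End.mul_apply, he, map_zero]
  obtain ⟨D, hD⟩ : ∃ D, e = D + 1 := ⟨e - 1, by omega⟩
  have hDne : ((act (ZMod p) y - 1) ^ D) c ≠ 0 := Nat.find_min hex (by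
    change D < e
    omega)
  have hli := chain_indep (act (ZMod p) y - 1) c (by rw [← hD]; exact he) hDne
  have hodd : ∀ (k : Fin (D + 1)) x, (((act (ZMod p) y) - 1) ^ (k : ℕ)) c (inv x) =
      - (((act (ZMod p) y) - 1) ^ (k : ℕ)) c x := by
    intro k x
    have h1 : c ∈ relSpace inv hG S hS (0 : Z → ZMod p) := by
      refine ⟨hc1, hc2, fun g => ?_⟩
      exact Finset.sum_eq_zero fun x _ => mul_zero _
    exact (pow_mem_relSpace y h1 k).2.1 x
  have h1 := ncard_perp_le inv h20 hinv hne hM0 hM hg _ hodd hli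
  have h3 : {Φ : Set Z | IsTy inv Φ ∧ c ∈ relSpace inv hG S hS (sg M Φ)}.ncard ≤
      2 ^ (g - (D + 1)) := by
    refine le_trans ?_ h1.2
    refine Set.ncard_le_ncard ?_ (Set.toFinite _)
    rintro Φ ⟨hΦ, hcΦ⟩
    refine ⟨hΦ, fun k => ?_⟩
    have h2 := (pow_mem_relSpace y hcΦ (k : ℕ)).2.2 1
    rw [act_one] at h2
    exact h2
  calc _ ≤ 2 ^ (g - (D + 1)) * 2 ^ (D + 1) :=
        Nat.mul_le_mul h3 (Nat.pow_le_pow_right (by norm_num) (by omega))
    _ = 2 ^ g := by rw [← pow_add, Nat.sub_add_cancel h1.1]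

end one

/-- A function of degree less than `p` whose components are zero or not invariant is supported on
the relevant set. -/
theorem mem_gam_of_star (P : Sylow p G) (htr : ∀ i, ∀ x y : X i, ∃ g : G, g • x = y)
    (m k : ι → ℕ) (hcard : ∀ i, Fintype.card (X i) = 2 * (m i * p ^ k i)) (B : Finset ι)
    {D : ℕ} (hDp : D < p) (c : (Σ i, X i) → ZMod p) (hcS : ∀ z, z.1 ∉ B → c z = 0)
    (hcP : (P : Subgroup G) ≤ stab c) (hcD : DegLe (P : Subgroup G) D c)
    (hstar : Star (Subgroup.normalClosure ((P : Subgroup G) : Set G)) c) :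
    c ∈ gam (p := p) (P : Subgroup G) D (relSet (p := p) (X := X) (P : Subgroup G) k B D) ∧
      (c ≠ 0 → p ≤ D * (2 * ∑ i ∈ B, m i)) := by
  classical
  have hp0 : 0 < p := (Fact.out : p.Prime).pos
  set K : Subgroup G := Subgroup.normalClosure ((P : Subgroup G) : Set G) with hK
  have hKn : K.Normal := Subgroup.normalClosure_normal
  have key : ∀ (i : ι) (x : X i), c ⟨i, x⟩ ≠ 0 → p * p ^ k i ≤ D * bs K (⟨i, x⟩ : Σ i, X i) := by
    intro i x hx
    obtain ⟨κ, hκ, x', hx'⟩ := hstar i ⟨x, hx⟩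
    -- a line on which the function is not constant
    have hline : ∃ y ∈ Group.conjugatesOfSet ((P : Subgroup G) : Set G), ∃ x₁ : X i,
        c ⟨i, y • x₁⟩ ≠ c ⟨i, x₁⟩ := by
      by_contra hcon
      push Not at hcon
      apply hx'
      have h1 : ∀ κ ∈ K, ∀ x : X i, c ⟨i, κ • x⟩ = c ⟨i, x⟩ := by
        intro κ hκ
        rw [hK, Subgroup.normalClosure] at hκ
        induction hκ using Subgroup.closure_induction with
        | mem y hy => exact fun x => hcon y hy x
        | one => exact fun x => by rw [one_smul]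
        | mul a b _ _ ha hb => exact fun x => by rw [mul_smul, ha, hb]
        | inv a _ ha =>
          intro x
          have h2 := ha (a⁻¹ • x)
          rw [smul_inv_smul] at h2
          exact h2.symm
      exact h1 κ hκ x'
    obtain ⟨y, hy, x₁, hx₁⟩ := hline
    let z₁ : Σ i, X i := ⟨i, x₁⟩
    obtain ⟨Q, hQ, hQ'⟩ := line_poly hDp hcD hy z₁
    -- the values on the orbit
    let T := {ω : orbitRel.Quotient (P : Subgroup G) (Σ i, X i) //
      ω.out ∈ {z | (Quotient.mk'' z : orbitRel.Quotient K (Σ i, X i)) = Quotient.mk'' z₁}}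
    have _ : Fintype T := Fintype.ofFinite _
    let V : Finset (ZMod p) := univ.image (fun ω : T => c ω.1.out)
    have hV : V.card ≤ Nat.card T := by
      rw [Nat.card_eq_fintype_card]
      exact card_image_le
    have hyK : ∀ t : ℕ, y ^ t ∈ K := fun t =>
      Subgroup.pow_mem _ (Subgroup.conjugatesOfSet_subset_normalClosure hy) t
    have hmaps : ∀ t ∈ range p, c (y ^ t • z₁) ∈ V := by
      intro t _
      rw [mem_image]
      have h2 : (Quotient.mk'' (Quotient.out (Quotient.mk'' (y ^ t • z₁) :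
          orbitRel.Quotient (P : Subgroup G) (Σ i, X i))) :
          orbitRel.Quotient (P : Subgroup G) (Σ i, X i)) = Quotient.mk'' (y ^ t • z₁) :=
        Quotient.out_eq' _
      rw [mk_eq_iff] at h2
      obtain ⟨g, hg, h3⟩ := h2
      refine ⟨⟨Quotient.mk'' (y ^ t • z₁), ?_⟩, mem_univ _, ?_⟩
      · change (Quotient.mk'' (Quotient.out (Quotient.mk'' (y ^ t • z₁) :
          orbitRel.Quotient (P : Subgroup G) (Σ i, X i))) : orbitRel.Quotient K (Σ i, X i)) =
            Quotient.mk'' z₁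
        rw [← h3, mk_eq_iff]
        exact ⟨g * y ^ t, K.mul_mem (Subgroup.le_normalClosure hg) (hyK t), by rw [mul_smul]⟩
      · change c (Quotient.out (Quotient.mk'' (y ^ t • z₁) :
          orbitRel.Quotient (P : Subgroup G) (Σ i, X i))) = _
        rw [← h3, stab_apply (hcP hg)]
    have h3 := Finset.card_le_mul_card_image_of_maps_to (s := range p) (t := V)
      (f := fun t => c (y ^ t • z₁)) hmaps D (by
        intro v _
        refine card_value_le hQ _ hQ' v ?_
        by_cases hv : c z₁ = v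
        · refine ⟨1, ?_⟩
          rw [pow_one, ← hv]
          exact hx₁
        · refine ⟨0, ?_⟩
          rw [pow_zero, one_smul]
          exact hv)
    rw [card_range] at h3
    have h4 := numOrb_le P htr m k hcard z₁
    have h5 : bs K z₁ = bs K (⟨i, x⟩ : Σ i, X i) := by
      obtain ⟨g, hg⟩ := htr i x x₁
      have h6 : z₁ = g • (⟨i, x⟩ : Σ i, X i) := congrArg (Sigma.mk i) hg.symm
      rw [h6, bs_smul]
    rw [← h5]
    calc p * p ^ k i ≤ (D * V.card) * p ^ k i := Nat.mul_le_mul_right _ h3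
      _ ≤ (D * Nat.card T) * p ^ k i := Nat.mul_le_mul_right _ (Nat.mul_le_mul_left _ hV)
      _ = D * (p ^ k i * Nat.card T) := by ring
      _ ≤ D * bs K z₁ := Nat.mul_le_mul_left _ h4
  refine ⟨⟨hcP, hcD, ?_⟩, ?_⟩
  · rintro ⟨i, x⟩ hz
    by_contra h1
    apply hz
    refine ⟨?_, key i x h1⟩
    by_contra h2
    exact h1 (hcS _ h2)
  · intro hc0
    obtain ⟨⟨i, x⟩, hx⟩ := Function.ne_iff.1 hc0
    have h1 := key i x hx
    have hiB : i ∈ B := by
      by_contra h2
      exact hx (hcS ⟨i, x⟩ h2)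
    have h2 : bs K (⟨i, x⟩ : Σ i, X i) ≤ 2 * (m i * p ^ k i) := by
      rw [← hcard i, ← Finset.card_univ (α := X i),
        ← Finset.card_map ⟨Sigma.mk i, sigma_mk_injective⟩]
      refine card_le_card ?_
      intro z hz
      rw [mem_filter, mk_eq_iff] at hz
      obtain ⟨_, g, _, h3⟩ := hz
      rw [← h3]
      exact mem_map_of_mem (⟨Sigma.mk i, sigma_mk_injective⟩ : X i ↪ Σ i, X i) (mem_univ (g • x))
    have h3 : p * p ^ k i ≤ (D * (2 * m i)) * p ^ k i := by
      calc p * p ^ k i ≤ D * bs K (⟨i, x⟩ : Σ i, X i) := h1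
        _ ≤ D * (2 * (m i * p ^ k i)) := Nat.mul_le_mul_left _ h2
        _ = _ := by ring
    refine (Nat.le_of_mul_le_mul_right h3 (pow_pos hp0 _)).trans ?_
    apply Nat.mul_le_mul_left
    apply Nat.mul_le_mul_left
    exact Finset.single_le_sum (fun _ _ => Nat.zero_le _) hiB

end Pool.Agent.Y1.SM
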