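import Mathlib
import Pool.Agent.Y1.SM.Good

/-!
# Families of types with a relation that is not invariant under the normal closure
-/

set_option linter.unusedSectionVars false
set_option linter.unusedVariables false

namespace Pool.Agent.Y1.SM

open Finset Module MulAction Polynomial

variable {p : ℕ} [Fact p.Prime] {G : Type*} [Group G] [Finite G] {ι : Type*} [Fintype ι]
  {X : ι → Type*} [∀ i, Fintype (X i)] [∀ i, MulAction G (X i)]

/-- A geometric sum. -/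
theorem sum_geom_le {p D₀ : ℕ} (hD : D₀ ≤ p) {x : ℝ} (hx0 : 0 ≤ x) (hx : x ≤ 71 / 100) :
    ∑ D ∈ Finset.Ico D₀ p, x ^ D + x ^ p ≤ 4 * x ^ D₀ := by
  have h1 : (∑ D ∈ Finset.Ico D₀ p, x ^ D) * (1 - x) = x ^ D₀ - x ^ p := by
    rw [Finset.sum_mul]
    have h2 : ∀ n, ∑ D ∈ Finset.Ico D₀ (D₀ + n), x ^ D * (1 - x) = x ^ D₀ - x ^ (D₀ + n) := by
      intro n
      induction n with
      | zero => rw [add_zero, Finset.Ico_self, Finset.sum_empty, sub_self]
      | succ n ih =>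
        rw [← add_assoc, Finset.sum_Ico_succ_top (by omega), ih, pow_succ]
        ring
    obtain ⟨n, rfl⟩ := Nat.exists_eq_add_of_le hD
    exact h2 n
  have h3 : x ^ p ≤ x ^ D₀ := pow_le_pow_of_le_one hx0 (by linarith) hD
  have h4 : 0 ≤ x ^ p := pow_nonneg hx0 p
  have h5 : 0 ≤ ∑ D ∈ Finset.Ico D₀ p, x ^ D := Finset.sum_nonneg fun _ _ => pow_nonneg hx0 _
  nlinarith

theorem ncard_caseB2 (hp2 : p ≠ 2) (P : Sylow p G) (inv : ∀ i, X i → X i)
    (htr : ∀ i, ∀ x y : X i, ∃ g : G, g • x = y)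
    (hinv : ∀ z : Σ i, X i, tot inv (tot inv z) = z) (hne : ∀ z : Σ i, X i, tot inv z ≠ z)
    (m k : ι → ℕ) (hcard : ∀ i, Fintype.card (X i) = 2 * (m i * p ^ k i)) (B : Finset ι)
    {M : (Σ i, X i) → ZMod p} (hM0 : ∀ x, M x ≠ 0) (hM : ∀ x, M (tot inv x) = M x)
    {g : ℕ} (hg : Fintype.card (Σ i, X i) = 2 * g)
    (hGt : ∀ (g : G) (x : Σ i, X i), g • tot inv x = tot inv (g • x))
    (hS : ∀ (g : G) (x : Σ i, X i), x ∈ {z : Σ i, X i | z.1 ∈ B} → g • x ∈ {z : Σ i, X i | z.1 ∈ B})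
    (hbig : p ^ (16 * ∑ i ∈ B, m i) ≤ 2 ^ p) :
    ({Φ : Set (Σ i, X i) | IsTy (tot inv) Φ ∧
      ∃ c ∈ Cand (tot inv) (ZMod p) {z : Σ i, X i | z.1 ∈ B} (P : Subgroup G),
        (¬ Subgroup.normalClosure ((P : Subgroup G) : Set G) ≤ stab c ∧
          Star (Subgroup.normalClosure ((P : Subgroup G) : Set G)) c) ∧
        c ∈ relSpace (tot inv) hGt {z | z.1 ∈ B} hS (sg M Φ)}.ncard : ℝ) ≤
      2 ^ g * (2 * (2 : ℝ) ^ (-((p : ℝ) / (4 * ∑ i ∈ B, m i : ℕ)))) := by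
  classical
  have hprime : p.Prime := Fact.out
  have hp0 : 0 < p := hprime.pos
  set K : Subgroup G := Subgroup.normalClosure ((P : Subgroup G) : Set G) with hK
  set mB := ∑ i ∈ B, m i with hmB
  have hSi : ∀ x : Σ i, X i, x ∈ {z : Σ i, X i | z.1 ∈ B} → tot inv x ∈ {z : Σ i, X i | z.1 ∈ B} :=
    fun x hx => hx
  set Bad := {Φ : Set (Σ i, X i) | IsTy (tot inv) Φ ∧
      ∃ c ∈ Cand (tot inv) (ZMod p) {z : Σ i, X i | z.1 ∈ B} (P : Subgroup G),
        (¬ K ≤ stab c ∧ Star K c) ∧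
        c ∈ relSpace (tot inv) hGt {z | z.1 ∈ B} hS (sg M Φ)} with hBad
  have htriv : (Bad.ncard : ℝ) ≤ 2 ^ g := by
    have h1 : Bad.ncard ≤ 2 ^ g := by
      rw [← ncard_types (tot inv) hinv hne hg]
      exact Set.ncard_le_ncard (fun Φ hΦ => hΦ.1) (Set.toFinite _)
    exact_mod_cast h1
  by_cases hm0 : mB = 0
  · rw [hm0]
    simp only [mul_zero, Nat.cast_zero, div_zero, neg_zero, Real.rpow_zero, mul_one]
    have : (0 : ℝ) < 2 ^ g := by positivity
    linarith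
  have hmpos : 0 < mB := Nat.pos_of_ne_zero hm0
  let one : (Σ i, X i → Unit) → Unit := fun _ => ()
  -- the types with the relation `c`
  let R : ((Σ i, X i) → ZMod p) → Set (Set (Σ i, X i)) := fun c =>
    {Φ | IsTy (tot inv) Φ ∧ c ∈ relSpace (tot inv) hGt {z | z.1 ∈ B} hS (sg M Φ)}
  let Mv : ℕ → ((Σ i, X i) → ZMod p) → Prop := fun s c =>
    (∀ x : Σ i, X i, x ∉ {z : Σ i, X i | z.1 ∈ B} → c x = 0) ∧ (∀ x, c (tot inv x) = - c x) ∧
      ∃ y ∈ Group.conjugatesOfSet ((P : Subgroup G) : Set G), ((act (ZMod p) y - 1) ^ s) c ≠ 0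
  have hR : ∀ s c, Mv s c → ((R c).ncard : ℝ) ≤ 2 ^ g * (1 / 2 ^ (s + 1)) := by
    rintro s c ⟨hc1, hc2, y, hy, hyc⟩
    have h1 := ncard_one_le (tot inv) hp2 (P : Subgroup G) P.isPGroup' hinv hne hGt hS hM0 hM hg c
      hc1 hc2 hy s hyc
    have h2 : (((R c).ncard * 2 ^ (s + 1) : ℕ) : ℝ) ≤ ((2 ^ g : ℕ) : ℝ) := Nat.cast_le.2 h1
    push_cast at h2
    rw [mul_one_div, le_div_iff₀ (by positivity)]
    exact h2
  -- the candidates
  let Y : ℕ → Set (Σ i, X i) := fun D => relSet (p := p) (X := X) (P : Subgroup G) k B D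
  let C1 : ℕ → Set ((Σ i, X i) → ZMod p) := fun D =>
    {c | c ∈ gam (p := p) (P : Subgroup G) D (Y D) ∧ Mv D c}
  let C2 : Set ((Σ i, X i) → ZMod p) :=
    {c | c ∈ Cand (tot inv) (ZMod p) {z : Σ i, X i | z.1 ∈ B} (P : Subgroup G) ∧ Mv p c}
  let DD : Finset ℕ := (range p).filter (fun D => p ≤ D * (2 * mB))
  have hcover : Bad ⊆ (⋃ D ∈ DD, ⋃ c ∈ (Set.toFinite (C1 D)).toFinset, R c) ∪
      ⋃ c ∈ (Set.toFinite C2).toFinset, R c := by
    rintro Φ ⟨hΦ, c, hc, ⟨hcK, hcs⟩, hcr⟩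
    obtain ⟨n, hn⟩ := exists_nilp (Z := Σ i, X i) (P : Subgroup G) P.isPGroup'
    have hex : ∃ D, DegLe (P : Subgroup G) D c := by
      refine ⟨n, fun y hy => ?_⟩
      rw [pow_succ', hn y hy, mul_zero]
      rfl
    have hspec : DegLe (P : Subgroup G) (Nat.find hex) c := Nat.find_spec hex
    obtain ⟨D, hD⟩ : ∃ D, Nat.find hex = D := ⟨_, rfl⟩
    rw [hD] at hspec
    have hD0 : D ≠ 0 := by
      intro h0
      apply hcK
      rw [hK, Subgroup.normalClosure, Subgroup.closure_le]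
      intro y hy
      have h1 := hspec y hy
      rw [h0, zero_add, pow_one, LinearMap.sub_apply, Module.End.one_apply, sub_eq_zero] at h1
      exact h1
    obtain ⟨D', hD'⟩ : ∃ D', D = D' + 1 := ⟨D - 1, by omega⟩
    have hnot : ¬ DegLe (P : Subgroup G) D' c := Nat.find_min hex (by omega)
    have hmove : ∃ y ∈ Group.conjugatesOfSet ((P : Subgroup G) : Set G),
        ((act (ZMod p) y - 1) ^ D) c ≠ 0 := by
      by_contra hcon
      push Not at hcon
      apply hnot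
      intro y hy
      rw [← hD']
      exact hcon y hy
    by_cases hDp : D < p
    · left
      obtain ⟨h1, h2⟩ := mem_gam_of_star P htr m k hcard B hDp c (fun z hz => hc.1 z hz) hc.2.2
        hspec hcs
      have hc0 : c ≠ 0 := by
        rintro rfl
        apply hcK
        intro g _
        exact map_zero _
      refine Set.mem_iUnion₂.2 ⟨D, mem_filter.2 ⟨mem_range.2 hDp, h2 hc0⟩, ?_⟩
      refine Set.mem_iUnion₂.2 ⟨c, ?_, hΦ, hcr⟩
      rw [Set.Finite.mem_toFinset]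
      exact ⟨h1, hc.1, hc.2.1, hmove⟩
    · right
      refine Set.mem_iUnion₂.2 ⟨c, ?_, hΦ, hcr⟩
      rw [Set.Finite.mem_toFinset]
      refine ⟨hc, hc.1, hc.2.1, ?_⟩
      obtain ⟨y, hy, hyc⟩ := hmove
      refine ⟨y, hy, fun h => hyc ?_⟩
      obtain ⟨s, rfl⟩ := Nat.exists_eq_add_of_le (not_lt.1 hDp)
      rw [add_comm p s, pow_add, Module.End.mul_apply, h, map_zero]
  -- the number of the candidates
  set x : ℝ := (Real.sqrt 2)⁻¹ with hx
  have hs2 : Real.sqrt 2 ^ 2 = 2 := Real.sq_sqrt (by norm_num)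
  have hspos : 0 < Real.sqrt 2 := Real.sqrt_pos.2 (by norm_num)
  have hnum : ∀ N D : ℕ, (p ^ N) ^ 2 ≤ 2 ^ D → ((p ^ N : ℕ) : ℝ) * (1 / 2 ^ (D + 1)) ≤ 1 / 2 * x ^ D := by
    intro N D h
    have h1 : ((p ^ N : ℕ) : ℝ) ≤ Real.sqrt 2 ^ D := by
      have h2 : (((p ^ N : ℕ) : ℝ)) ^ 2 ≤ (Real.sqrt 2 ^ D) ^ 2 := by
        rw [← pow_mul, mul_comm D 2, pow_mul, hs2]
        exact_mod_cast h
      exact (pow_le_pow_iff_left₀ (by positivity) (by positivity) two_ne_zero).1 h2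
    have h3 : (2 : ℝ) ^ (D + 1) = 2 * (Real.sqrt 2 ^ D * Real.sqrt 2 ^ D) := by
      rw [pow_succ, ← pow_add, ← two_mul, pow_mul, hs2]
      ring
    have h4 : 0 < Real.sqrt 2 ^ D := by positivity
    rw [h3, hx, inv_pow, mul_one_div, div_le_iff₀ (by positivity)]
    have h5 : 1 / 2 * (Real.sqrt 2 ^ D)⁻¹ * (2 * (Real.sqrt 2 ^ D * Real.sqrt 2 ^ D)) =
        Real.sqrt 2 ^ D := by
      field_simp
    rw [h5]
    exact h1
  have hC1 : ∀ D ∈ DD, (((C1 D).ncard : ℝ)) * (1 / 2 ^ (D + 1)) ≤ 1 / 2 * x ^ D := by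
    intro D hD
    rw [mem_filter, mem_range] at hD
    have hfr := finrank_tot_le P htr m k hcard B hD.1
    set fr := finrank (ZMod p) (gam (p := p) (P : Subgroup G) D
      (relSet (p := p) (X := X) (P : Subgroup G) k B D)) with hfrdef
    have h1 : (C1 D).ncard ≤ p ^ fr := by
      have h2 : Nat.card (gam (p := p) (P : Subgroup G) D (Y D)) = p ^ fr := by
        rw [Module.natCard_eq_pow_finrank (K := ZMod p), Nat.card_zmod]
      have h2' : ((gam (p := p) (P : Subgroup G) D (Y D) :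
          Submodule (ZMod p) ((Σ i, X i) → ZMod p)) : Set ((Σ i, X i) → ZMod p)).ncard = p ^ fr := by
        rw [← Nat.card_coe_set_eq]
        exact h2
      rw [← h2']
      exact Set.ncard_le_ncard (fun c hc => hc.1) (Set.toFinite _)
    have h3 : (p ^ fr) ^ 2 ≤ 2 ^ D := by
      have h4 : ((p ^ fr) ^ 2) ^ p ≤ (2 ^ D) ^ p := by
        calc ((p ^ fr) ^ 2) ^ p = p ^ (2 * (p * fr)) := by
              rw [← pow_mul, ← pow_mul]
              congr 1
              ring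
          _ ≤ p ^ (2 * (8 * D * mB)) :=
              Nat.pow_le_pow_right hp0 (Nat.mul_le_mul_left _ hfr)
          _ = (p ^ (16 * mB)) ^ D := by
              rw [← pow_mul]
              congr 1
              ring
          _ ≤ (2 ^ p) ^ D := Nat.pow_le_pow_left hbig D
          _ = (2 ^ D) ^ p := by rw [← pow_mul, ← pow_mul, mul_comm]
      exact (Nat.pow_le_pow_iff_left hp0.ne').1 h4
    refine le_trans (mul_le_mul_of_nonneg_right (Nat.cast_le.2 h1) (by positivity)) ?_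
    exact hnum fr D h3
  have hC2 : ((C2.ncard : ℝ)) * (1 / 2 ^ (p + 1)) ≤ 1 / 2 * x ^ p := by
    have h1 : C2.ncard ≤ p ^ mB := by
      refine le_trans (Set.ncard_le_ncard (fun c hc => hc.1) (Set.toFinite _)) ?_
      exact ncard_cand_le (tot inv) hp2 (P : Subgroup G) P.isPGroup' hinv hne hGt hS hSi
        (card_orbIn_le P htr m k hcard B)
    have h3 : (p ^ mB) ^ 2 ≤ 2 ^ p := by
      refine le_trans ?_ hbig
      rw [← pow_mul]
      exact Nat.pow_le_pow_right hp0 (by omega)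
    refine le_trans (mul_le_mul_of_nonneg_right (Nat.cast_le.2 h1) (by positivity)) ?_
    exact hnum mB p h3
  -- the sum
  have hsum : (Bad.ncard : ℝ) ≤ ∑ D ∈ DD, 2 ^ g * (1 / 2 * x ^ D) + 2 ^ g * (1 / 2 * x ^ p) := by
    have h1 : Bad.ncard ≤ ∑ D ∈ DD, ∑ c ∈ (Set.toFinite (C1 D)).toFinset, (R c).ncard +
        ∑ c ∈ (Set.toFinite C2).toFinset, (R c).ncard := by
      refine (Set.ncard_le_ncard hcover (Set.toFinite _)).trans ?_
      refine (Set.ncard_union_le _ _).trans ?_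
      refine Nat.add_le_add ?_ (Finset.set_ncard_biUnion_le _ _)
      refine (Finset.set_ncard_biUnion_le _ _).trans ?_
      exact Finset.sum_le_sum fun D _ => Finset.set_ncard_biUnion_le _ _
    have h2 : ∀ (s : ℕ) (C : Set ((Σ i, X i) → ZMod p)), (∀ c ∈ C, Mv s c) →
        ((C.ncard : ℝ)) * (1 / 2 ^ (s + 1)) ≤ 1 / 2 * x ^ s →
        ((∑ c ∈ (Set.toFinite C).toFinset, (R c).ncard : ℕ) : ℝ) ≤ 2 ^ g * (1 / 2 * x ^ s) := by
      intro s C hC hC'
      rw [Nat.cast_sum]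
      calc ∑ c ∈ (Set.toFinite C).toFinset, ((R c).ncard : ℝ) ≤
          ∑ c ∈ (Set.toFinite C).toFinset, (2 ^ g * (1 / 2 ^ (s + 1)) : ℝ) := by
            refine Finset.sum_le_sum fun c hc => hR s c (hC c ?_)
            rw [Set.Finite.mem_toFinset] at hc
            exact hc
        _ = 2 ^ g * ((C.ncard : ℝ) * (1 / 2 ^ (s + 1))) := by
            rw [Finset.sum_const, nsmul_eq_mul, Set.ncard_eq_toFinset_card C (Set.toFinite C)]
            ring
        _ ≤ 2 ^ g * (1 / 2 * x ^ s) := mul_le_mul_of_nonneg_left hC' (by positivity)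
    calc (Bad.ncard : ℝ) ≤ ((∑ D ∈ DD, ∑ c ∈ (Set.toFinite (C1 D)).toFinset, (R c).ncard +
        ∑ c ∈ (Set.toFinite C2).toFinset, (R c).ncard : ℕ) : ℝ) := Nat.cast_le.2 h1
      _ = ∑ D ∈ DD, ((∑ c ∈ (Set.toFinite (C1 D)).toFinset, (R c).ncard : ℕ) : ℝ) +
        ((∑ c ∈ (Set.toFinite C2).toFinset, (R c).ncard : ℕ) : ℝ) := by
          rw [Nat.cast_add, Nat.cast_sum]
      _ ≤ _ := add_le_add (Finset.sum_le_sum fun D hD => h2 D (C1 D) (fun c hc => hc.2) (hC1 D hD))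
          (h2 p C2 (fun c hc => hc.2) hC2)
  -- the least degree
  have hexD : ∃ D, p ≤ D * (2 * mB) := ⟨p, Nat.le_mul_of_pos_right p (by omega)⟩
  set D₀ := Nat.find hexD with hD₀
  have hD₀s : p ≤ D₀ * (2 * mB) := Nat.find_spec hexD
  have hD₀p : D₀ ≤ p := Nat.find_min' hexD (Nat.le_mul_of_pos_right p (by omega))
  have hx0 : 0 ≤ x := by positivity
  have hx71 : x ≤ 71 / 100 := by
    rw [hx, inv_le_comm₀ hspos (by norm_num)]
    rw [show ((71 / 100 : ℝ))⁻¹ = 100 / 71 by norm_num]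
    apply Real.le_sqrt_of_sq_le
    norm_num
  have hsub : ∑ D ∈ DD, x ^ D ≤ ∑ D ∈ Finset.Ico D₀ p, x ^ D := by
    refine Finset.sum_le_sum_of_subset_of_nonneg ?_ (fun _ _ _ => pow_nonneg hx0 _)
    intro D hD
    rw [mem_filter, mem_range] at hD
    rw [Finset.mem_Ico]
    exact ⟨Nat.find_min' hexD hD.2, hD.1⟩
  have hgeom := sum_geom_le hD₀p hx0 hx71
  have hfin : x ^ D₀ ≤ (2 : ℝ) ^ (-((p : ℝ) / (4 * mB : ℕ))) := by
    have h1 : x = (2 : ℝ) ^ (-(1 / 2 : ℝ)) := by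
      rw [hx, Real.sqrt_eq_rpow, Real.rpow_neg (by norm_num)]
    rw [h1, ← Real.rpow_natCast, ← Real.rpow_mul (by norm_num)]
    apply Real.rpow_le_rpow_of_exponent_le (by norm_num)
    have h2 : (p : ℝ) ≤ D₀ * (2 * mB) := by exact_mod_cast hD₀s
    have h3 : (0 : ℝ) < mB := by exact_mod_cast hmpos
    push_cast
    rw [neg_mul, neg_le_neg_iff, div_le_iff₀ (by positivity)]
    nlinarith
  calc (Bad.ncard : ℝ) ≤ ∑ D ∈ DD, 2 ^ g * (1 / 2 * x ^ D) + 2 ^ g * (1 / 2 * x ^ p) := hsum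
    _ = 2 ^ g * (1 / 2 * (∑ D ∈ DD, x ^ D + x ^ p)) := by
        rw [← Finset.mul_sum, ← Finset.mul_sum]
        ring
    _ ≤ 2 ^ g * (1 / 2 * (4 * x ^ D₀)) := by
        apply mul_le_mul_of_nonneg_left _ (by positivity)
        apply mul_le_mul_of_nonneg_left _ (by norm_num)
        linarith
    _ = 2 ^ g * (2 * x ^ D₀) := by ring
    _ ≤ _ := by
        apply mul_le_mul_of_nonneg_left _ (by positivity)
        apply mul_le_mul_of_nonneg_left hfin (by norm_num)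

end Pool.Agent.Y1.SM
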