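import Mathlib
import Pool.Agent.Y1.SM.CaseB2

/-!
# The number of families of types with a relation modulo a prime, sharper form
-/

set_option linter.unusedSectionVars false
set_option linter.unusedVariables false

namespace Pool.Agent.Y1.SM

open Finset Module MulAction

variable {p : ℕ} [Fact p.Prime] {G : Type*} [Group G] [Finite G] {ι : Type*} [Fintype ι]
  {X : ι → Type*} [∀ i, Fintype (X i)] [∀ i, MulAction G (X i)]

/-- The contribution of a subfield of degree `2 D` to the proportion of the exceptional types of a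
field of degree `2 g`. -/
noncomputable def coreTerm (p g : ℕ) (D : ℝ) : ℝ :=
  D * (1 / p + Real.sqrt (2 * D / (Real.pi * g)))

theorem coreTerm_nonneg (p g : ℕ) {D : ℝ} (hD : 0 ≤ D) : 0 ≤ coreTerm p g D := by
  unfold coreTerm
  positivity

theorem mul_kap_le {p d n g : ℕ} {D : ℝ} (hn : 0 < n) (hg : g = d * n)
    (hD : ((2 * g : ℕ) : ℝ) ≤ 2 * D * n) : (d : ℝ) * kap p n ≤ coreTerm p g D := by
  have hn' : (0 : ℝ) < n := Nat.cast_pos.2 hn
  have hdD : (d : ℝ) ≤ D := by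
    rw [hg] at hD
    push_cast at hD
    nlinarith
  have hD0 : 0 ≤ D := le_trans (Nat.cast_nonneg d) hdD
  unfold kap coreTerm
  rcases Nat.eq_zero_or_pos d with rfl | hd
  · rw [Nat.cast_zero, zero_mul]
    positivity
  have hd' : (0 : ℝ) < d := Nat.cast_pos.2 hd
  refine mul_le_mul hdD ?_ (by positivity) hD0
  refine add_le_add le_rfl (Real.sqrt_le_sqrt ?_)
  have hpi := Real.pi_pos
  rw [hg]
  push_cast
  rw [div_le_div_iff₀ (by positivity) (by positivity)]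
  have h1 : 2 * (Real.pi * (d * n)) = 2 * d * (Real.pi * n) := by ring
  rw [h1]
  apply mul_le_mul_of_nonneg_right _ (by positivity)
  linarith

open Classical in
theorem ncard_block2_le (hp2 : p ≠ 2) (P : Sylow p G) (inv : ∀ i, X i → X i)
    (htr : ∀ i, ∀ x y : X i, ∃ g : G, g • x = y) (hne0 : ∀ i, Nonempty (X i))
    (hinv : ∀ i x, inv i (inv i x) = x) (hne : ∀ i x, inv i x ≠ x)
    (hG : ∀ i, ∀ (g : G) x, g • inv i x = inv i (g • x))
    (m k : ι → ℕ) (hcard : ∀ i, Fintype.card (X i) = 2 * (m i * p ^ k i)) (B : Finset ι)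
    {M : (Σ i, X i) → ZMod p} (hM0 : ∀ x, M x ≠ 0) (hM : ∀ x, M (tot inv x) = M x)
    (hind : ∀ i ∈ B, ∀ i' ∈ B, i ≠ i' →
      KFree (Subgroup.normalClosure ((P : Subgroup G) : Set G)) (inv i) →
      KFree (Subgroup.normalClosure ((P : Subgroup G) : Set G)) (inv i') →
      ∀ (x : X i) (y : X i'), ∃ g : G,
        (∃ k ∈ Subgroup.normalClosure ((P : Subgroup G) : Set G), g • x = k • x) ∧
        ∃ k ∈ Subgroup.normalClosure ((P : Subgroup G) : Set G), g • y = k • inv i' y)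
    (D : ι → ℝ) (hD0 : ∀ i, 0 ≤ D i)
    (hD : ∀ i ∈ B, KFree (Subgroup.normalClosure ((P : Subgroup G) : Set G)) (inv i) → ∀ x : X i,
      (Fintype.card (X i) : ℝ) ≤ 2 * D i *
        Nat.card (orbit (Subgroup.normalClosure ((P : Subgroup G) : Set G)) x))
    (hbig : p ^ (16 * ∑ i ∈ B, m i) ≤ 2 ^ p)
    {g : ℕ} (hg : Fintype.card (Σ i, X i) = 2 * g)
    (hGt : ∀ (g : G) (x : Σ i, X i), g • tot inv x = tot inv (g • x))
    (hS : ∀ (g : G) (x : Σ i, X i), x ∈ {z : Σ i, X i | z.1 ∈ B} → g • x ∈ {z : Σ i, X i | z.1 ∈ B}) :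
    ({Φ : Set (Σ i, X i) | IsTy (tot inv) Φ ∧ ∃ c : (Σ i, X i) → ZMod p, c ≠ 0 ∧
      c ∈ relSpace (tot inv) hGt {z | z.1 ∈ B} hS (sg M Φ)}.ncard : ℝ) ≤
      2 ^ g * ((∑ i ∈ B.filter
        (fun i => KFree (Subgroup.normalClosure ((P : Subgroup G) : Set G)) (inv i)),
          coreTerm p (m i * p ^ k i) (D i)) +
        2 * (2 : ℝ) ^ (-((p : ℝ) / (4 * ∑ i ∈ B, m i : ℕ)))) := by
  have hp0 : 0 < p := (Fact.out : p.Prime).pos
  set K : Subgroup G := Subgroup.normalClosure ((P : Subgroup G) : Set G) with hKdef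
  have hKn : K.Normal := Subgroup.normalClosure_normal
  have hPK : (P : Subgroup G) ≤ K := Subgroup.le_normalClosure
  have hKi : ¬ p ∣ K.index := fun h => P.not_dvd_index (h.trans (Subgroup.index_dvd_of_le hPK))
  have hinvt : ∀ z : Σ i, X i, tot inv (tot inv z) = z := by
    rintro ⟨i, x⟩
    change (⟨i, inv i (inv i x)⟩ : Σ i, X i) = ⟨i, x⟩
    rw [hinv]
  have hnet : ∀ z : Σ i, X i, tot inv z ≠ z := by
    rintro ⟨i, x⟩ h
    have h1 : (⟨i, inv i x⟩ : Σ i, X i) = ⟨i, x⟩ := h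
    exact hne i x (eq_of_heq (Sigma.mk.inj h1).2)
  have hSi : ∀ x : Σ i, X i, x ∈ {z : Σ i, X i | z.1 ∈ B} → tot inv x ∈ {z : Σ i, X i | z.1 ∈ B} :=
    fun x hx => hx
  have h20 : (2 : ZMod p) ≠ 0 := two_ne_zero_zmod hp2
  -- the data of the components
  have hstruct : ∀ i ∈ B, ∃ (Y : Finset (Σ i, X i)) (R : Set (Σ i, X i) → Finset (ZMod p)) (d : ℕ),
      KFree K (inv i) → (∀ z ∈ Y, tot inv z ∉ Y) ∧ Y.Nonempty ∧
      (d * kap p Y.card ≤ coreTerm p (m i * p ^ k i) (D i)) ∧ (∀ Φ, (R Φ).card ≤ d) ∧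
      (∀ Φ Ψ : Set (Σ i, X i), (∀ x, x ∉ Y → tot inv x ∉ Y → (x ∈ Φ ↔ x ∈ Ψ)) → R Φ = R Ψ) ∧
      ∀ Φ : Set (Σ i, X i), IsTy (tot inv) Φ → (∃ c : (Σ i, X i) → ZMod p,
        c ∈ relSpace (tot inv) hGt {z | z.1 ∈ B} hS (sg M Φ) ∧ K ≤ stab c ∧
        (∃ x : X i, c ⟨i, x⟩ ≠ 0) ∧ ∀ z, z.1 ≠ i → c z = 0) → ∑ z ∈ Y, sg M Φ z ∈ R Φ := by
    intro i hiB
    by_cases hfree : KFree K (inv i)
    · obtain ⟨x₀⟩ := hne0 i
      obtain ⟨Y, R, d, hY, hYc, hRd, hRdep, hR⟩ := caseA_struct (X := X i) K (inv i) h20 (htr i) x₀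
        (hinv i) (hne i) (hG i) hfree
      have hemb : Function.Injective (fun x : X i => (⟨i, x⟩ : Σ i, X i)) := sigma_mk_injective
      let e : X i ↪ Σ i, X i := ⟨fun x => ⟨i, x⟩, hemb⟩
      have hmemY : ∀ x : X i, (⟨i, x⟩ : Σ i, X i) ∈ Y.map e ↔ x ∈ Y := by
        intro x
        exact mem_map' e
      refine ⟨Y.map e, fun Φ => R (fun x => sg M Φ ⟨i, x⟩), d, fun _ => ⟨?_, ?_, ?_, ?_, ?_, ?_⟩⟩
      · intro z hz hz'
        obtain ⟨x, hx, rfl⟩ := mem_map.1 hz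
        have h1 : inv i x ∈ Y := (hmemY (inv i x)).1 hz'
        obtain ⟨k₁, hk₁, h2⟩ := (hY x).1 hx
        obtain ⟨k₂, hk₂, h3⟩ := (hY _).1 h1
        apply hfree (k₂ * k₁⁻¹) (K.mul_mem hk₂ (K.inv_mem hk₁)) x
        rw [mul_smul, ← h2, inv_smul_smul, h3, h2]
      · exact ⟨e x₀, mem_map_of_mem e ((hY x₀).2 ⟨1, K.one_mem, one_smul _ _⟩)⟩
      · rw [card_map]
        have hYo : Nat.card (orbit K x₀) = Y.card := by
          rw [Nat.card_coe_set_eq, ← Set.ncard_coe_finset]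
          congr 1
          ext x
          rw [mem_coe, hY x, mem_orbit_iff]
          constructor
          · rintro ⟨g, hg⟩
            exact ⟨g.1, g.2, hg⟩
          · rintro ⟨g, hg, h⟩
            exact ⟨⟨g, hg⟩, h⟩
        have hY0 : 0 < Y.card := card_pos.2 ⟨x₀, (hY x₀).2 ⟨1, K.one_mem, one_smul _ _⟩⟩
        have h1 := hD i hiB hfree x₀
        rw [hYo, hcard i] at h1
        refine mul_kap_le hY0 ?_ h1
        rw [hcard i] at hYc
        omega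
      · intro Φ
        exact hRd _
      · intro Φ Ψ h
        apply hRdep
        intro x hx hx'
        have h1 := h ⟨i, x⟩ (fun h2 => hx ((hmemY x).1 h2)) (fun h2 => hx' ((hmemY (inv i x)).1 h2))
        simp only [sg, h1]
      · rintro Φ hΦ ⟨c, hc, hcK, ⟨x₁, hx₁⟩, hc0⟩
        rw [sum_map]
        refine hR _ (fun x => c ⟨i, x⟩) ?_ ?_ ?_ ?_ ?_
        · intro x
          exact sg_inv (tot inv) hM hΦ ⟨i, x⟩
        · intro h1
          exact hx₁ (congrFun h1 x₁)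
        · intro x
          exact hc.2.1 ⟨i, x⟩
        · intro k hk
          exact mem_stab_of fun x => stab_apply (hcK hk) ⟨i, x⟩
        · intro h
          have h1 := hc.2.2 h
          rw [← sum_smul_eq, sum_comp i _ (fun z hz => by rw [hc0 z hz, zero_mul])] at h1
          exact h1
    · exact ⟨∅, fun _ => ∅, 0, fun h => absurd h hfree⟩
  choose! Y R d hYRd using hstruct
  let BadB : Set (Set (Σ i, X i)) := {Φ | IsTy (tot inv) Φ ∧
    ∃ c ∈ Cand (tot inv) (ZMod p) {z : Σ i, X i | z.1 ∈ B} (P : Subgroup G),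
      (¬ Subgroup.normalClosure ((P : Subgroup G) : Set G) ≤ stab c ∧
        Star (Subgroup.normalClosure ((P : Subgroup G) : Set G)) c) ∧
        c ∈ relSpace (tot inv) hGt {z | z.1 ∈ B} hS (sg M Φ)}
  let BadA : ι → Set (Set (Σ i, X i)) := fun i =>
    {Φ | IsTy (tot inv) Φ ∧ ∑ z ∈ Y i, sg M Φ z ∈ R i Φ}
  let FB : Finset ι := B.filter (fun i => KFree K (inv i))
  have hcover : {Φ : Set (Σ i, X i) | IsTy (tot inv) Φ ∧ ∃ c : (Σ i, X i) → ZMod p, c ≠ 0 ∧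
      c ∈ relSpace (tot inv) hGt {z | z.1 ∈ B} hS (sg M Φ)} ⊆ BadB ∪ ⋃ i ∈ FB, BadA i := by
    rintro Φ ⟨hΦ, c, hc0, hc⟩
    have hN : relSpace (tot inv) hGt {z | z.1 ∈ B} hS (sg M Φ) ≠ ⊥ := by
      intro h
      rw [h, Submodule.mem_bot] at hc
      exact hc0 hc
    obtain ⟨c₁, hc₁, hc₁0, hc₁P, hc₁K⟩ := exists_good (P : Subgroup G) P.isPGroup' K
      (relSpace (tot inv) hGt {z | z.1 ∈ B} hS (sg M Φ))
      (fun g c hc => act_mem_relSpace g hc) hN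
    by_cases hK1 : K ≤ stab c₁
    · right
      obtain ⟨⟨i₀, x₀⟩, hx₀⟩ := Function.ne_iff.1 hc₁0
      have hfree : ∀ (i : ι) (x : X i), c₁ ⟨i, x⟩ ≠ 0 → KFree K (inv i) := by
        intro i x hx k hk y hy
        have h1 := eq_zero_of_meet K (inv i) h20 (htr i) (hG i) hk hy (fun x => c₁ ⟨i, x⟩)
          (fun x => hc₁.2.1 ⟨i, x⟩) (fun k hk => mem_stab_of fun x => stab_apply (hK1 hk) ⟨i, x⟩)
        exact hx (congrFun h1 x)
      have hB : ∀ (i : ι) (x : X i), c₁ ⟨i, x⟩ ≠ 0 → i ∈ B := by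
        intro i x hx
        by_contra h
        exact hx (hc₁.1 ⟨i, x⟩ h)
      obtain ⟨c₂, hc₂, hc₂K, hc₂0, hc₂z⟩ := exists_one_class (tot inv) hp2 K hKi hGt
        (fun z : Σ i, X i => z.1) (fun _ _ => rfl) hS (sg M Φ) c₁ hc₁ hK1 ⟨i₀, x₀⟩ hx₀ (by
          rintro ⟨i, y⟩ hyS hyi hy
          obtain ⟨γ, ⟨k₁, hk₁, h1⟩, k₂, hk₂, h2⟩ := hind i₀ (hB i₀ x₀ hx₀) i (hB i y hy)
            (Ne.symm hyi) (hfree i₀ x₀ hx₀) (hfree i y hy) x₀ y
          refine ⟨γ, ⟨k₁, hk₁, ?_⟩, k₂, hk₂, ?_⟩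
          · exact congrArg (Sigma.mk i₀) h1
          · exact congrArg (Sigma.mk i) h2)
      rw [Set.mem_iUnion₂]
      refine ⟨i₀, mem_filter.2 ⟨hB i₀ x₀ hx₀, hfree i₀ x₀ hx₀⟩, hΦ, ?_⟩
      exact (hYRd i₀ (hB i₀ x₀ hx₀) (hfree i₀ x₀ hx₀)).2.2.2.2.2 Φ hΦ
        ⟨c₂, hc₂, hc₂K, ⟨x₀, hc₂0⟩, hc₂z⟩
    · left
      exact ⟨hΦ, c₁, ⟨hc₁.1, hc₁.2.1, hc₁P⟩, ⟨hK1, hc₁K.resolve_left hK1⟩, hc₁⟩
  have hBadB : (BadB.ncard : ℝ) ≤
      2 ^ g * (2 * (2 : ℝ) ^ (-((p : ℝ) / (4 * ∑ i ∈ B, m i : ℕ)))) :=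
    ncard_caseB2 hp2 P inv htr hinvt hnet m k hcard B hM0 hM hg hGt hS hbig
  have hBadA : ∀ i ∈ FB, ((BadA i).ncard : ℝ) ≤ 2 ^ g * coreTerm p (m i * p ^ k i) (D i) := by
    intro i hi
    obtain ⟨h1, h2, h3, h4, h5, h6⟩ := hYRd i (mem_filter.1 hi).1 (mem_filter.1 hi).2
    refine (ncard_sum_mem_le (tot inv) hp2 hinvt hnet hM0 hg (Y i) h1 h2 (R i) (d i) h4 h5).trans ?_
    exact mul_le_mul_of_nonneg_left h3 (by positivity)
  have h1 : {Φ : Set (Σ i, X i) | IsTy (tot inv) Φ ∧ ∃ c : (Σ i, X i) → ZMod p, c ≠ 0 ∧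
      c ∈ relSpace (tot inv) hGt {z | z.1 ∈ B} hS (sg M Φ)}.ncard ≤
      BadB.ncard + ∑ i ∈ FB, (BadA i).ncard := by
    refine (Set.ncard_le_ncard hcover (Set.toFinite _)).trans ?_
    refine (Set.ncard_union_le _ _).trans ?_
    exact Nat.add_le_add_left (Finset.set_ncard_biUnion_le _ _) _
  calc _ ≤ ((BadB.ncard + ∑ i ∈ FB, (BadA i).ncard : ℕ) : ℝ) := Nat.cast_le.2 h1
    _ = (BadB.ncard : ℝ) + ∑ i ∈ FB, ((BadA i).ncard : ℝ) := by push_cast; rfl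
    _ ≤ 2 ^ g * (2 * (2 : ℝ) ^ (-((p : ℝ) / (4 * ∑ i ∈ B, m i : ℕ)))) +
        ∑ i ∈ FB, 2 ^ g * coreTerm p (m i * p ^ k i) (D i) :=
        add_le_add hBadB (Finset.sum_le_sum hBadA)
    _ = _ := by rw [← Finset.mul_sum]; ring

end Pool.Agent.Y1.SM
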