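import Mathlib
import Pool.Agent.Y1.SM.Block

/-!
# The number of degenerate families of types
-/

set_option linter.unusedSectionVars false
set_option linter.unusedVariables false

namespace Pool.Agent.Y1.SM

open Finset Module MulAction

open Classical in
/-- The function with value `M` on `Φ` and `-M` outside of `Φ`, with integral values. -/
noncomputable def sgI {Z : Type*} (M : Z → ℤ) (Φ : Set Z) (x : Z) : ℤ := if x ∈ Φ then M x else - M x

theorem sgI_inv {Z : Type*} [Fintype Z] {inv : Z → Z} {M : Z → ℤ} (hM : ∀ x, M (inv x) = M x)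
    {Φ : Set Z} (hΦ : IsTy inv Φ) (x : Z) : sgI M Φ (inv x) = - sgI M Φ x := by
  classical
  unfold sgI
  rw [hM]
  by_cases h : x ∈ Φ
  · have h1 := (hΦ x).1 h
    rw [if_pos h, if_neg h1]
  · have h1 : inv x ∈ Φ := by
      by_contra h2
      exact h ((hΦ x).2 h2)
    rw [if_neg h, if_pos h1, neg_neg]

/-- A linear condition with a nonzero integral solution has a solution that is not divisible by
`p`. -/
theorem exists_primitive {Z : Type*} (p : ℕ) (hp : 1 < p) (Q : (Z → ℤ) → Prop)
    (hQ : ∀ c c' : Z → ℤ, (∀ z, c z = p * c' z) → Q c → Q c') (c : Z → ℤ) (hc : Q c) (z₀ : Z)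
    (hz₀ : c z₀ ≠ 0) : ∃ c' : Z → ℤ, Q c' ∧ ∃ z, ¬ (p : ℤ) ∣ c' z := by
  have key : ∀ n : ℕ, ∀ c : Z → ℤ, Q c → c z₀ ≠ 0 → (c z₀).natAbs = n →
      ∃ c' : Z → ℤ, Q c' ∧ ∃ z, ¬ (p : ℤ) ∣ c' z := by
    intro n
    induction n using Nat.strong_induction_on with
    | _ n ih =>
      intro c hc hz hn
      by_cases h : ∃ z, ¬ (p : ℤ) ∣ c z
      · exact ⟨c, hc, h⟩
      · push Not at h
        choose c' hc' using h
        have h1 : c' z₀ ≠ 0 := by
          intro h2
          apply hz
          rw [hc', h2, mul_zero]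
        refine ih (c' z₀).natAbs ?_ c' (hQ c c' hc' hc) h1 rfl
        rw [← hn, hc' z₀, Int.natAbs_mul, Int.natAbs_natCast]
        have h2 : 0 < (c' z₀).natAbs := Int.natAbs_pos.2 h1
        nlinarith
  exact key _ c hc hz₀ rfl

variable {G : Type*} [Group G] [Finite G] {ι J : Type*} [Fintype ι] [Fintype J] [DecidableEq J]
  {X : ι → Type*} [∀ i, Fintype (X i)] [∀ i, MulAction G (X i)]

/-- The normal closure of a Sylow subgroup. -/
abbrev Kcl {p : ℕ} (P : Sylow p G) : Subgroup G :=
  Subgroup.normalClosure ((P : Subgroup G) : Set G)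

open Classical in
/-- The bound for the proportion of the degenerate families. -/
noncomputable def bound (b : ι → J) (p : J → ℕ) (m k : ι → ℕ) (core : ι → Prop) : ℝ :=
  ∑ j, ((∑ i ∈ univ.filter (fun i => b i = j ∧ core i), m i * kap (p j) (p j ^ k i)) +
    (p j : ℝ) ^ (∑ i ∈ univ.filter (fun i => b i = j), m i) /
      2 ^ (p j / (2 * ∑ i ∈ univ.filter (fun i => b i = j), m i) + 2))

open Classical in
theorem ncard_family_le (b : ι → J) (p : J → ℕ) [hp : ∀ j, Fact (p j).Prime] (hp2 : ∀ j, p j ≠ 2)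
    (P : ∀ j, Sylow (p j) G) (inv : ∀ i, X i → X i)
    (htr : ∀ i, ∀ x y : X i, ∃ g : G, g • x = y) (hne0 : ∀ i, Nonempty (X i))
    (hinv : ∀ i x, inv i (inv i x) = x) (hne : ∀ i x, inv i x ≠ x)
    (hG : ∀ i, ∀ (g : G) x, g • inv i x = inv i (g • x))
    (m k : ι → ℕ) (hcard : ∀ i, Fintype.card (X i) = 2 * (m i * p (b i) ^ k i))
    {M : (Σ i, X i) → ℤ} (hM0 : ∀ z, ¬ (p (b z.1) : ℤ) ∣ M z) (hM : ∀ x, M (tot inv x) = M x)
    (hout : ∀ x y : Σ i, X i, b x.1 ≠ b y.1 → ∃ g : G, g • x = x ∧ g • y = tot inv y)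
    (hind : ∀ i i', i ≠ i' → b i = b i' → KFree (Kcl (P (b i))) (inv i) →
      KFree (Kcl (P (b i))) (inv i') → ∀ (x : X i) (y : X i'), ∃ g : G,
        (∃ k ∈ Kcl (P (b i)), g • x = k • x) ∧ ∃ k ∈ Kcl (P (b i)), g • y = k • inv i' y)
    {g : ℕ} (hg : Fintype.card (Σ i, X i) = 2 * g) :
    ({Φ : Set (Σ i, X i) | IsTy (tot inv) Φ ∧ ∃ c : (Σ i, X i) → ℤ, c ≠ 0 ∧
      (∀ z, c (tot inv z) = - c z) ∧ ∀ g : G, ∑ z, c z * sgI M Φ (g • z) = 0}.ncard : ℝ) ≤
      2 ^ g * bound b p m k (fun i => KFree (Kcl (P (b i))) (inv i)) := by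
  have _ : Fintype G := Fintype.ofFinite G
  have hGt : ∀ (g : G) (x : Σ i, X i), g • tot inv x = tot inv (g • x) := by
    rintro g ⟨i, x⟩
    change (⟨i, g • inv i x⟩ : Σ i, X i) = ⟨i, inv i (g • x)⟩
    rw [hG]
  let B : J → Finset ι := fun j => univ.filter (fun i => b i = j)
  have hB : ∀ j i, i ∈ B j ↔ b i = j := fun j i => by simp [B]
  have hS : ∀ j, ∀ (g : G) (x : Σ i, X i), x ∈ {z : Σ i, X i | z.1 ∈ B j} →
      g • x ∈ {z : Σ i, X i | z.1 ∈ B j} := fun j g x hx => hx
  let Mj : ∀ j, (Σ i, X i) → ZMod (p j) := fun j z => if b z.1 = j then ((M z : ℤ) : ZMod (p j)) else 1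
  have hMj0 : ∀ j z, Mj j z ≠ 0 := by
    intro j z
    simp only [Mj]
    split_ifs with h
    · intro h1
      rw [ZMod.intCast_zmod_eq_zero_iff_dvd] at h1
      subst h
      exact hM0 z h1
    · exact one_ne_zero
  have hMj : ∀ j z, Mj j (tot inv z) = Mj j z := by
    intro j z
    have h1 : (tot inv z).1 = z.1 := rfl
    simp only [Mj, hM, h1]
  let Bad : J → Set (Set (Σ i, X i)) := fun j => {Φ | IsTy (tot inv) Φ ∧
    ∃ c : (Σ i, X i) → ZMod (p j), c ≠ 0 ∧
      c ∈ relSpace (tot inv) hGt {z | z.1 ∈ B j} (hS j) (sg (Mj j) Φ)}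
  have hBad : ∀ j, ((Bad j).ncard : ℝ) ≤ 2 ^ g * ((∑ i ∈ (B j).filter
        (fun i => KFree (Kcl (P j)) (inv i)), m i * kap (p j) (p j ^ k i)) +
        (p j : ℝ) ^ (∑ i ∈ B j, m i) / 2 ^ (p j / (2 * ∑ i ∈ B j, m i) + 2)) := by
    intro j
    -- the components outside of the block play no role: change the numbers there
    by_cases hBj : (B j).Nonempty
    · let inst : ∀ i : ι, Prop := fun i => b i = j
      have hcard' : ∀ i ∈ B j, Fintype.card (X i) = 2 * (m i * p j ^ k i) := by
        intro i hi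
        rw [hcard i, (hB j i).1 hi]
      -- outside of the block use the exponent zero
      let m' : ι → ℕ := fun i => if b i = j then m i else m i * p (b i) ^ k i
      let k' : ι → ℕ := fun i => if b i = j then k i else 0
      have hc' : ∀ i, Fintype.card (X i) = 2 * (m' i * p j ^ k' i) := by
        intro i
        by_cases h : b i = j
        · simp only [m', k', if_pos h]
          exact hcard' i ((hB j i).2 h)
        · simp only [m', k', if_neg h, pow_zero, mul_one]
          exact hcard i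
      have h1 := ncard_block_le (hp2 j) (P j) inv htr hne0 hinv hne hG m' k' hc' (B j) (hMj0 j)
        (hMj j) (by
          intro i hi i' hi' hii hf hf' x y
          have hbi := (hB j i).1 hi
          have hbi' := (hB j i').1 hi'
          subst hbi
          exact hind i i' hii hbi'.symm hf hf' x y) hg hGt (hS j)
      have h2 : ∑ i ∈ B j, m' i = ∑ i ∈ B j, m i :=
        Finset.sum_congr rfl fun i hi => by simp only [m', if_pos ((hB j i).1 hi)]
      have h3 : ∑ i ∈ (B j).filter (fun i => KFree (Kcl (P j)) (inv i)),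
          (m' i : ℝ) * kap (p j) (p j ^ k' i) =
          ∑ i ∈ (B j).filter (fun i => KFree (Kcl (P j)) (inv i)), (m i : ℝ) * kap (p j) (p j ^ k i) := by
        refine Finset.sum_congr rfl fun i hi => ?_
        have h4 := (hB j i).1 (mem_filter.1 hi).1
        simp only [m', k', if_pos h4]
      rw [h2, h3] at h1
      exact h1
    · rw [Finset.not_nonempty_iff_eq_empty] at hBj
      have h1 : Bad j = ∅ := by
        rw [Set.eq_empty_iff_forall_notMem]
        rintro Φ ⟨_, c, hc0, hc⟩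
        apply hc0
        funext z
        apply hc.1
        intro h2
        have h3 : z.1 ∈ B j := h2
        rw [hBj] at h3
        exact absurd h3 (Finset.notMem_empty _)
      rw [h1, Set.ncard_empty, Nat.cast_zero, hBj]
      simp only [Finset.filter_empty, Finset.sum_empty, pow_zero, mul_zero, Nat.div_zero]
      positivity
  have hcover : {Φ : Set (Σ i, X i) | IsTy (tot inv) Φ ∧ ∃ c : (Σ i, X i) → ℤ, c ≠ 0 ∧
      (∀ z, c (tot inv z) = - c z) ∧ ∀ g : G, ∑ z, c z * sgI M Φ (g • z) = 0} ⊆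
      ⋃ j ∈ (univ : Finset J), Bad j := by
    rintro Φ ⟨hΦ, c, hc0, hodd, hrel⟩
    obtain ⟨z₀, hz₀⟩ := Function.ne_iff.1 hc0
    rw [Set.mem_iUnion₂]
    refine ⟨b z₀.1, mem_univ _, hΦ, ?_⟩
    set j := b z₀.1 with hj
    have h1 := indep_blocks (G := G) (fun z : Σ i, X i => b z.1) (tot inv) (sgI M Φ)
      (fun x => sgI_inv hM hΦ x) hGt hout c hrel j
    let Q : ((Σ i, X i) → ℤ) → Prop := fun c => (∀ z, b z.1 ≠ j → c z = 0) ∧
      (∀ z, c (tot inv z) = - c z) ∧ ∀ g : G, ∑ z, c z * sgI M Φ (g • z) = 0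
    have hp1 : 1 < p j := (Fact.out : (p j).Prime).one_lt
    obtain ⟨c', ⟨hc'1, hc'2, hc'3⟩, z₁, hz₁⟩ := exists_primitive (p j) hp1 Q (by
        rintro a a' haa ⟨ha1, ha2, ha3⟩
        have hpz : ((p j : ℕ) : ℤ) ≠ 0 := by
          have : (0 : ℤ) < (p j : ℕ) := by exact_mod_cast (Fact.out : (p j).Prime).pos
          omega
        refine ⟨fun z hz => ?_, fun z => ?_, fun g => ?_⟩
        · have h2 := ha1 z hz
          rw [haa] at h2
          exact (mul_eq_zero.1 h2).resolve_left hpz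
        · have h2 := ha2 z
          rw [haa, haa, ← mul_neg] at h2
          exact mul_left_cancel₀ hpz h2
        · have h2 := ha3 g
          simp only [haa, mul_assoc] at h2
          rw [← Finset.mul_sum] at h2
          exact (mul_eq_zero.1 h2).resolve_left hpz)
      (fun z => if b z.1 = j then c z else 0)
      ⟨fun z hz => if_neg hz, fun z => by
        have h2 : (tot inv z).1 = z.1 := rfl
        simp only [h2]
        by_cases h3 : b z.1 = j
        · rw [if_pos h3, if_pos h3, hodd]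
        · rw [if_neg h3, if_neg h3, neg_zero], h1⟩ z₀ (by
          change (if b z₀.1 = j then c z₀ else 0) ≠ 0
          rw [if_pos hj.symm]
          exact hz₀)
    refine ⟨fun z => ((c' z : ℤ) : ZMod (p j)), ?_, ?_, ?_, ?_⟩
    · intro h2
      apply hz₁
      rw [← ZMod.intCast_zmod_eq_zero_iff_dvd]
      exact congrFun h2 z₁
    · intro z hz
      have h2 : b z.1 ≠ j := fun h3 => hz ((hB j z.1).2 h3)
      change ((c' z : ℤ) : ZMod (p j)) = 0
      rw [hc'1 z h2, Int.cast_zero]
    · intro z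
      change ((c' (tot inv z) : ℤ) : ZMod (p j)) = - ((c' z : ℤ) : ZMod (p j))
      rw [hc'2, Int.cast_neg]
    · intro g
      rw [← sum_smul_eq]
      have h2 : ((∑ z, c' z * sgI M Φ (g • z) : ℤ) : ZMod (p j)) = 0 := by
        rw [hc'3 g, Int.cast_zero]
      rw [← h2]
      push_cast
      refine Finset.sum_congr rfl fun z _ => ?_
      by_cases h3 : b z.1 = j
      · congr 1
        have h4 : b (g • z).1 = j := h3
        simp only [sg, sgI, Mj, if_pos h4]
        split_ifs
        · rfl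
        · rw [Int.cast_neg]
      · rw [hc'1 z h3, Int.cast_zero, zero_mul, zero_mul]
  have h1 := (Set.ncard_le_ncard hcover (Set.toFinite _)).trans
    (Finset.set_ncard_biUnion_le (univ : Finset J) Bad)
  calc _ ≤ ((∑ j, (Bad j).ncard : ℕ) : ℝ) := Nat.cast_le.2 h1
    _ = ∑ j, ((Bad j).ncard : ℝ) := by rw [Nat.cast_sum]
    _ ≤ ∑ j, 2 ^ g * ((∑ i ∈ (B j).filter
        (fun i => KFree (Kcl (P j)) (inv i)), m i * kap (p j) (p j ^ k i)) +
        (p j : ℝ) ^ (∑ i ∈ B j, m i) / 2 ^ (p j / (2 * ∑ i ∈ B j, m i) + 2)) :=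
        Finset.sum_le_sum fun j _ => hBad j
    _ = _ := by
      rw [← Finset.mul_sum, bound]
      congr 1
      refine Finset.sum_congr rfl fun j _ => ?_
      congr 1
      refine Finset.sum_congr ?_ fun _ _ => rfl
      ext i
      simp only [B, mem_filter, mem_univ, true_and]
      constructor
      · rintro ⟨h2, h3⟩
        subst h2
        exact ⟨rfl, h3⟩
      · rintro ⟨h2, h3⟩
        subst h2
        exact ⟨rfl, h3⟩

end Pool.Agent.Y1.SM
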