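import Mathlib
import Pool.Agent.H204R3.CM.Nondeg
import Pool.Agent.H977R3.CM.Aut
import Pool.Agent.Y1.SM.Block

/-!
# Subfields cut out by a normal subgroup
-/

set_option linter.unusedSectionVars false
set_option linter.unusedVariables false

namespace Pool.Agent.Y1.SM

open NumberField Module Pool.Agent.H204R3.CM Pool.Agent.H977R3.CM IntermediateField

/-- For all complex embeddings `φ`, `ψ` of the two fields some automorphism of the complex numbers
is the identity on the image of `φ` and the complex conjugation on the image of `ψ`. -/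
def Independent (E E' : Type*) [Field E] [Field E'] : Prop :=
  ∀ (φ : E →+* ℂ) (ψ : E' →+* ℂ), ∃ σ : ℂ ≃+* ℂ,
    (∀ x, σ (φ x) = φ x) ∧ ∀ y, σ (ψ y) = (starRingEnd ℂ) (ψ y)

/-- The subfields of `E` that are not totally real and whose normal closure over the rational
numbers has a degree that is not divisible by `p`. -/
def coreFields (p : ℕ) (E : Type*) [Field E] [NumberField E] : Set (IntermediateField ℚ E) :=
  {T | (∃ φ : T →+* ℂ, ComplexEmbedding.conjugate φ ≠ φ) ∧
    ¬ p ∣ finrank ℚ (normalClosure ℚ T ℂ)}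

variable {L : Type*} [Field L] [NumberField L] [IsGalois ℚ L] (K : Subgroup (L ≃ₐ[ℚ] L))
  [hKn : K.Normal]

/-- The subfield of `E` that corresponds to a normal subgroup of the Galois group of `L`. -/
noncomputable def cut {E : Type*} [Field E] [NumberField E] (φ : E →+* L) : IntermediateField ℚ E :=
  (fixedField K).comap (RingHom.equivRatAlgHom E L φ)

theorem mem_cut {E : Type*} [Field E] [NumberField E] (φ : E →+* L) (x : E) :
    x ∈ cut K φ ↔ ∀ k ∈ K, k (φ x) = φ x := by
  change (RingHom.equivRatAlgHom E L φ) x ∈ fixedField K ↔ _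
  rw [mem_fixedField_iff]
  rfl

theorem mem_cut' {E : Type*} [Field E] [NumberField E] (φ ψ : E →+* L) (x : E) :
    x ∈ cut K φ ↔ x ∈ cut K ψ := by
  have key : ∀ φ ψ : E →+* L, x ∈ cut K φ → x ∈ cut K ψ := by
    intro φ ψ hx
    rw [mem_cut] at hx ⊢
    intro k hk
    obtain ⟨g, rfl⟩ := MulAction.exists_smul_eq (L ≃ₐ[ℚ] L) φ ψ
    rw [emb_smul_apply]
    have h1 := hx (g⁻¹ * k * g) (by
      have := hKn.conj_mem k hk g⁻¹
      rwa [inv_inv] at this)
    have h2 : g ((g⁻¹ * k * g) (φ x)) = k (g (φ x)) := by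
      rw [← AlgEquiv.mul_apply, ← mul_assoc, ← mul_assoc, mul_inv_cancel, one_mul,
        AlgEquiv.mul_apply]
    rw [← h2, h1]
  exact ⟨key φ ψ, key ψ φ⟩

/-- Embeddings that agree on the subfield are in the same orbit. -/
theorem exists_of_agree {E : Type*} [Field E] [NumberField E] (φ₀ φ ψ : E →+* L)
    (h : ∀ x ∈ cut K φ₀, φ x = ψ x) : ∃ k ∈ K, k • φ = ψ := by
  obtain ⟨g, hg⟩ := MulAction.exists_smul_eq (L ≃ₐ[ℚ] L) φ ψ
  let R : IntermediateField ℚ L := (RingHom.equivRatAlgHom E L φ).fieldRange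
  have h1 : g ∈ (R ⊓ fixedField K).fixingSubgroup := by
    rw [IntermediateField.mem_fixingSubgroup_iff]
    rintro y ⟨hy1, hy2⟩
    obtain ⟨x, rfl⟩ := hy1
    have h2 : x ∈ cut K φ₀ := by
      rw [mem_cut' K φ₀ φ, mem_cut]
      intro k hk
      exact (mem_fixedField_iff K _).1 hy2 k hk
    have h3 := h x h2
    change g (φ x) = φ x
    rw [← emb_smul_apply, hg]
    exact h3.symm
  have h2 : (R ⊓ fixedField K).fixingSubgroup = R.fixingSubgroup ⊔ K := by
    have h3 := (IsGalois.intermediateFieldEquivSubgroup (F := ℚ) (E := L)).map_inf R (fixedField K)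
    have h4 : ∀ M : IntermediateField ℚ L, OrderDual.ofDual
      (IsGalois.intermediateFieldEquivSubgroup (F := ℚ) (E := L) M) = M.fixingSubgroup :=
      fun M => rfl
    have h5 := congrArg OrderDual.ofDual h3
    rw [h4] at h5
    rw [h5, ofDual_inf, h4, h4, fixingSubgroup_fixedField]
  rw [h2, ← SetLike.mem_coe, sup_comm, Subgroup.normal_mul] at h1
  obtain ⟨k, hk, s, hs, hks⟩ := Set.mem_mul.1 h1
  refine ⟨k, hk, ?_⟩
  rw [← hg, ← hks, mul_smul]
  congr 1
  ext x
  rw [emb_smul_apply]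
  exact ((IntermediateField.mem_fixingSubgroup_iff R s).1 hs (φ x) ⟨x, rfl⟩).symm

variable (j : L →+* ℂ)

/-- The subfield belongs to the core if no orbit contains an embedding and its conjugate. -/
theorem cut_mem_core {p : ℕ} (hK : ¬ p ∣ K.index) {E : Type*} [Field E] [NumberField E]
    [IsCMField E] (hj : ∀ ψ : E →+* ℂ, ∃ φ : E →+* L, j.comp φ = ψ)
    (hfree : KFree K (cbar (F := E) (L := L))) (φ₀ : E →+* L) : cut K φ₀ ∈ coreFields p E := by
  constructor
  · refine ⟨(j.comp φ₀).comp (algebraMap (cut K φ₀) E), fun h => ?_⟩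
    obtain ⟨k, hk, h1⟩ := exists_of_agree K φ₀ φ₀ (cbar φ₀) (by
      intro x hx
      have h2 := RingHom.congr_fun h ⟨x, hx⟩
      rw [ComplexEmbedding.conjugate_coe_eq] at h2
      have h3 := RingHom.congr_fun (comp_cbar j φ₀) x
      rw [ComplexEmbedding.conjugate_coe_eq] at h3
      apply j.injective
      exact (h3.trans h2).symm)
    exact hfree k hk φ₀ h1
  · intro hdvd
    apply hK
    let _ : Algebra L ℂ := j.toAlgebra
    let jj : L →ₐ[ℚ] ℂ := RingHom.equivRatAlgHom L ℂ j
    have h1 : normalClosure ℚ (cut K φ₀) ℂ ≤ (fixedField K).map jj := by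
      refine iSup_le fun f => ?_
      rintro _ ⟨x, rfl⟩
      -- extend the embedding
      let _ : Algebra (cut K φ₀) ℂ := (f : (cut K φ₀) →+* ℂ).toAlgebra
      have _ : Algebra.IsAlgebraic (cut K φ₀) E := Algebra.IsAlgebraic.of_finite _ _
      let F : E →ₐ[cut K φ₀] ℂ := IsAlgClosed.lift
      obtain ⟨φ, hφ⟩ := hj (F : E →+* ℂ)
      have h2 : f x = F (x : E) := (F.commutes x).symm
      have h3 : F (x : E) = j (φ (x : E)) := (RingHom.congr_fun hφ (x : E)).symm
      refine ⟨φ (x : E), ?_, ?_⟩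
      · have h4 : (x : E) ∈ cut K φ := (mem_cut' K φ₀ φ _).1 x.2
        rw [mem_cut] at h4
        exact (mem_fixedField_iff K _).2 h4
      · change j (φ (x : E)) = f x
        rw [h2, h3]
    have h2 : finrank ℚ ((fixedField K).map jj) = K.index := by
      rw [← LinearEquiv.finrank_eq (equivMap (fixedField K) jj).toLinearEquiv,
        finrank_eq_fixingSubgroup_index, fixingSubgroup_fixedField]
    rw [← h2]
    exact hdvd.trans (finrank_dvd_of_le_right h1)

include j in
/-- Independence of the subfields gives independence modulo the normal subgroup. -/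
theorem exists_indep {E E' : Type*} [Field E] [NumberField E] [IsCMField E] [Field E']
    [NumberField E'] [IsCMField E'] (φ₀ : E →+* L) (ψ₀ : E' →+* L)
    (h : Independent (cut K φ₀) (cut K ψ₀)) (φ : E →+* L) (ψ : E' →+* L) :
    ∃ g : L ≃ₐ[ℚ] L, (∃ k ∈ K, g • φ = k • φ) ∧ ∃ k ∈ K, g • ψ = k • cbar ψ := by
  obtain ⟨σ, hσ1, hσ2⟩ := h ((j.comp φ).comp (algebraMap (cut K φ₀) E))
    ((j.comp ψ).comp (algebraMap (cut K ψ₀) E'))
  obtain ⟨g, hg⟩ := exists_gal j σ
  refine ⟨g, ?_, ?_⟩
  · obtain ⟨k, hk, h1⟩ := exists_of_agree K φ₀ φ (g • φ) (by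
      intro x hx
      apply j.injective
      rw [emb_smul_apply, ← hg]
      exact (hσ1 ⟨x, hx⟩).symm)
    exact ⟨k, hk, h1.symm⟩
  · obtain ⟨k, hk, h1⟩ := exists_of_agree K ψ₀ (cbar ψ) (g • ψ) (by
      intro x hx
      apply j.injective
      rw [emb_smul_apply, ← hg]
      have h2 := RingHom.congr_fun (comp_cbar j ψ) x
      rw [ComplexEmbedding.conjugate_coe_eq] at h2
      exact h2.trans (hσ2 ⟨x, hx⟩).symm)
    exact ⟨k, hk, h1.symm⟩

end Pool.Agent.Y1.SM
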