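import Mathlib
import Pool.Agent.H977R3.CM.Defs
import Pool.Agent.Y1.SM.Core
import Pool.Agent.Y1.SM.Family

/-!
# The number of exceptional families of CM types
-/

set_option linter.unusedSectionVars false
set_option linter.unusedVariables false

namespace Pool.Agent.Y1.SM

open NumberField Module Finset Pool.Agent.H204R3.CM Pool.Agent.H977R3.CM

/-- The fields in different blocks are independent; for fields in one block the subfields that are
not totally real and whose normal closure has a degree prime to the prime number of the block are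
independent. -/
def Compatible {ι J : Type*} (b : ι → J) (p : J → ℕ) (E : ι → Type*) [∀ i, Field (E i)]
    [∀ i, NumberField (E i)] : Prop :=
  ∀ i i', i ≠ i' → (b i ≠ b i' → Independent (E i) (E i')) ∧
    (b i = b i' → ∀ T ∈ coreFields (p (b i)) (E i), ∀ T' ∈ coreFields (p (b i)) (E i'),
      Independent T T')

theorem bound_mono {ι J : Type*} [Fintype ι] [Fintype J] [DecidableEq J] (b : ι → J) (p : J → ℕ)
    [hp : ∀ j, Fact (p j).Prime] (m k : ι → ℕ) {c c' : ι → Prop} (h : ∀ i, c i → c' i) :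
    bound b p m k c ≤ bound b p m k c' := by
  classical
  unfold bound
  refine Finset.sum_le_sum fun j _ => ?_
  refine add_le_add ?_ le_rfl
  refine Finset.sum_le_sum_of_subset_of_nonneg ?_ ?_
  · intro i hi
    rw [mem_filter] at hi ⊢
    exact ⟨hi.1, hi.2.1, h i hi.2.2⟩
  · intro i _ _
    have := kap_nonneg (p j) (p j ^ k i)
    positivity

theorem ncard_fields_le {ι J : Type*} [Fintype ι] [Fintype J] [DecidableEq J] (b : ι → J)
    (p : J → ℕ) [hp : ∀ j, Fact (p j).Prime] (hp2 : ∀ j, p j ≠ 2) (E : ι → Type*)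
    [∀ i, Field (E i)] [∀ i, NumberField (E i)] [∀ i, IsCMField (E i)] (m k : ι → ℕ)
    (hdeg : ∀ i, finrank ℚ (E i) = 2 * (m i * p (b i) ^ k i)) (hcomp : Compatible b p E)
    {L : Type*} [Field L] [NumberField L] [IsGalois ℚ L] (j : L →+* ℂ)
    (hj : ∀ i, ∀ ψ : E i →+* ℂ, ∃ φ : E i →+* L, j.comp φ = ψ) :
    ({Φ : ∀ i, Set (E i →+* ℂ) | (∀ i, IsCMType (Φ i)) ∧ ¬ Nondeg Φ j}.ncard : ℝ) ≤
      2 ^ (∑ i, m i * p (b i) ^ k i) *
        bound b p m k (fun i => (coreFields (p (b i)) (E i)).Nonempty) := by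
  classical
  let G := L ≃ₐ[ℚ] L
  let P : ∀ j, Sylow (p j) G := fun j => default
  let X : ι → Type _ := fun i => E i →+* L
  let inv : ∀ i, X i → X i := fun i => cbar
  have hne0 : ∀ i, Nonempty (X i) := by
    intro i
    obtain ⟨φ, -⟩ := hj i (Classical.arbitrary _)
    exact ⟨φ⟩
  have hcard : ∀ i, Fintype.card (X i) = 2 * (m i * p (b i) ^ k i) := by
    intro i
    rw [card_emb j (hj i), hdeg i]
  have hg : Fintype.card (Σ i, X i) = 2 * ∑ i, m i * p (b i) ^ k i := by
    rw [Fintype.card_sigma, Finset.mul_sum]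
    exact Finset.sum_congr rfl fun i _ => hcard i
  have hPi : ∀ j, ¬ p j ∣ (Kcl (P j)).index := fun j h =>
    (P j).not_dvd_index (h.trans (Subgroup.index_dvd_of_le Subgroup.le_normalClosure))
  have hout : ∀ x y : Σ i, X i, b x.1 ≠ b y.1 → ∃ g : G, g • x = x ∧ g • y = tot inv y := by
    rintro ⟨i, φ⟩ ⟨i', ψ⟩ hb
    have hii : i ≠ i' := fun h => hb (congrArg b h)
    obtain ⟨σ, hσ1, hσ2⟩ := (hcomp i i' hii).1 hb (j.comp φ) (j.comp ψ)
    obtain ⟨g, hg⟩ := exists_gal j σ
    refine ⟨g, ?_, ?_⟩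
    · refine congrArg (Sigma.mk i) ?_
      ext x
      apply j.injective
      rw [emb_smul_apply, ← hg]
      exact hσ1 x
    · refine congrArg (Sigma.mk i') ?_
      ext x
      apply j.injective
      rw [emb_smul_apply, ← hg]
      have h1 := RingHom.congr_fun (comp_cbar j ψ) x
      rw [ComplexEmbedding.conjugate_coe_eq] at h1
      exact (hσ2 x).trans h1.symm
  have hcore : ∀ i, KFree (Kcl (P (b i))) (inv i) → ∀ φ₀ : X i,
      cut (Kcl (P (b i))) φ₀ ∈ coreFields (p (b i)) (E i) := by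
    intro i hfree φ₀
    exact cut_mem_core (Kcl (P (b i))) j (hPi _) (hj i) hfree φ₀
  have hind : ∀ i i', i ≠ i' → b i = b i' → KFree (Kcl (P (b i))) (inv i) →
      KFree (Kcl (P (b i))) (inv i') → ∀ (x : X i) (y : X i'), ∃ g : G,
        (∃ k ∈ Kcl (P (b i)), g • x = k • x) ∧ ∃ k ∈ Kcl (P (b i)), g • y = k • inv i' y := by
    intro i i' hii hb hf hf' x y
    have h1 : cut (Kcl (P (b i))) y ∈ coreFields (p (b i)) (E i') :=
      cut_mem_core (Kcl (P (b i))) j (hPi _) (hj i') hf' y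
    exact exists_indep (Kcl (P (b i))) j x y
      ((hcomp i i' hii).2 hb _ (hcore i hf x) _ h1) x y
  have hmain := ncard_family_le (G := G) b p hp2 P inv
    (fun i x y => MulAction.exists_smul_eq G x y) hne0
    (fun i φ => cbar_cbar φ) (fun i φ => cbar_ne φ) (fun i g φ => rfl) m k hcard
    (M := fun _ => 1) (fun z h => by
      have h1 : (p (b z.1) : ℤ) ≤ 1 := Int.le_of_dvd one_pos h
      have h2 : 1 < p (b z.1) := (Fact.out : (p (b z.1)).Prime).one_lt
      omega) (fun _ => rfl) hout hind hg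
  have hbm := bound_mono b p m k (c := fun i => KFree (Kcl (P (b i))) (inv i))
    (c' := fun i => (coreFields (p (b i)) (E i)).Nonempty) (fun i hi => by
      obtain ⟨φ₀⟩ := hne0 i
      exact ⟨_, hcore i hi φ₀⟩)
  refine le_trans ?_ (hmain.trans (mul_le_mul_of_nonneg_left hbm (by positivity)))
  -- the embedding of the set of families
  let e : (∀ i, Set (E i →+* ℂ)) → Set (Σ i, X i) := fun Φ => {z | j.comp z.2 ∈ Φ z.1}
  refine Nat.cast_le.2 (Set.ncard_le_ncard_of_injOn e ?_ ?_ (Set.toFinite _))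
  · rintro Φ ⟨hΦ, hnd⟩
    refine ⟨?_, ?_⟩
    · rintro ⟨i, φ⟩
      change j.comp φ ∈ Φ i ↔ ¬ (j.comp (cbar φ) ∈ Φ i)
      rw [comp_cbar]
      exact hΦ i _
    · rw [Nondeg] at hnd
      push Not at hnd
      obtain ⟨c, hodd, hrel, i, φ, hne⟩ := hnd
      refine ⟨fun z => c z.1 z.2, ?_, ?_, ?_⟩
      · intro h
        exact hne (congrFun h ⟨i, φ⟩)
      · rintro ⟨i, φ⟩
        exact hodd i φ
      · intro g
        rw [Fintype.sum_sigma, ← hrel g]
        refine Finset.sum_congr rfl fun i _ => Finset.sum_congr rfl fun φ _ => ?_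
        congr 1
  · intro Φ _ Ψ _ h
    funext i
    ext ψ
    obtain ⟨φ, rfl⟩ := hj i ψ
    have h1 : (⟨i, φ⟩ : Σ i, X i) ∈ e Φ ↔ (⟨i, φ⟩ : Σ i, X i) ∈ e Ψ := by rw [h]
    exact h1

/-- **The number of exceptional families.** -/
theorem ncard_exceptional_le {ι J : Type} [Fintype ι] [Fintype J] [DecidableEq J] (b : ι → J)
    (p : J → ℕ) [hp : ∀ j, Fact (p j).Prime] (hp2 : ∀ j, p j ≠ 2) (E : ι → Type)
    [∀ i, Field (E i)] [∀ i, NumberField (E i)] [∀ i, IsCMField (E i)] (m k : ι → ℕ)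
    (hdeg : ∀ i, finrank ℚ (E i) = 2 * (m i * p (b i) ^ k i)) (hcomp : Compatible b p E) :
    ({Φ : ∀ i, Set (E i →+* ℂ) | (∀ i, IsCMType (Φ i)) ∧
      ¬ ∀ (J' : Type) [Fintype J'] (t : J' → ι), HodgeGenerated (per Φ t)}.ncard : ℝ) ≤
      2 ^ (∑ i, m i * p (b i) ^ k i) *
        bound b p m k (fun i => (coreFields (p (b i)) (E i)).Nonempty) := by
  obtain ⟨L, _, _, j, hj⟩ := exists_galois E
  refine le_trans ?_ (ncard_fields_le b p hp2 E m k hdeg hcomp j hj)
  refine Nat.cast_le.2 (Set.ncard_le_ncard ?_ (Set.toFinite _))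
  rintro Φ ⟨hΦ, h⟩
  refine ⟨hΦ, fun hnd => h ?_⟩
  intro J' _ t m f hf
  exact hodge_of_nondeg hΦ t j hj hnd f hf

end Pool.Agent.Y1.SM
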