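import Mathlib
import Pool.Agent.Y1.SM.Main
import Pool.Agent.Y1.SM.Family2

/-!
# The number of exceptional families of CM types, sharper form
-/

set_option linter.unusedSectionVars false
set_option linter.unusedVariables false

namespace Pool.Agent.Y1.SM

open NumberField Module Finset Pool.Agent.H204R3.CM Pool.Agent.H977R3.CM IntermediateField

section orb

variable {L : Type*} [Field L] [NumberField L] [IsGalois ℚ L] (K : Subgroup (L ≃ₐ[ℚ] L))
  [hKn : K.Normal]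

theorem finrank_le_orbit {E : Type*} [Field E] [NumberField E] (j : L →+* ℂ)
    (hj : ∀ ψ : E →+* ℂ, ∃ φ : E →+* L, j.comp φ = ψ) (φ₀ : E →+* L) :
    finrank (cut K φ₀) E ≤ Nat.card (MulAction.orbit K φ₀) := by
  classical
  let _ : Algebra (cut K φ₀) ℂ := ((j.comp φ₀).comp (algebraMap (cut K φ₀) E)).toAlgebra
  have h1 : Fintype.card (E →ₐ[cut K φ₀] ℂ) = finrank (cut K φ₀) E := AlgHom.card (cut K φ₀) E ℂ
  choose lift hlift using hj
  rw [← h1, ← Nat.card_eq_fintype_card]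
  have hmem : ∀ f : E →ₐ[cut K φ₀] ℂ, lift (f : E →+* ℂ) ∈ MulAction.orbit K φ₀ := by
    intro f
    obtain ⟨k, hk, h2⟩ := exists_of_agree K φ₀ φ₀ (lift (f : E →+* ℂ)) (by
      intro x hx
      apply j.injective
      have h3 := RingHom.congr_fun (hlift (f : E →+* ℂ)) x
      have h4 : f x = j (φ₀ x) := f.commutes ⟨x, hx⟩
      exact h4.symm.trans h3.symm)
    exact ⟨⟨k, hk⟩, h2⟩
  refine Nat.card_le_card_of_injective
    (fun f : E →ₐ[cut K φ₀] ℂ => (⟨lift (f : E →+* ℂ), hmem f⟩ : MulAction.orbit K φ₀)) ?_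
  intro f f' h
  have h2 : lift (f : E →+* ℂ) = lift (f' : E →+* ℂ) := congrArg Subtype.val h
  have h3 : (f : E →+* ℂ) = (f' : E →+* ℂ) := by rw [← hlift (f : E →+* ℂ), h2, hlift]
  ext x
  exact RingHom.congr_fun h3 x

end orb

theorem bound2_mono {ι J : Type*} [Fintype ι] [Fintype J] [DecidableEq J] (b : ι → J) (p : J → ℕ)
    (m k : ι → ℕ) {D : ι → ℝ} (hD0 : ∀ i, 0 ≤ D i) {c c' : ι → Prop} (h : ∀ i, c i → c' i) :
    bound2 b p m k D c ≤ bound2 b p m k D c' := by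
  classical
  unfold bound2
  refine Finset.sum_le_sum fun j _ => ?_
  refine add_le_add ?_ le_rfl
  refine Finset.sum_le_sum_of_subset_of_nonneg ?_ ?_
  · intro i hi
    rw [mem_filter] at hi ⊢
    exact ⟨hi.1, hi.2.1, h i hi.2.2⟩
  · intro i _ _
    exact coreTerm_nonneg _ _ (hD0 i)

theorem ncard_fields2_le {ι J : Type*} [Fintype ι] [Fintype J] [DecidableEq J] (b : ι → J)
    (p : J → ℕ) [hp : ∀ j, Fact (p j).Prime] (hp2 : ∀ j, p j ≠ 2) (E : ι → Type*)
    [∀ i, Field (E i)] [∀ i, NumberField (E i)] [∀ i, IsCMField (E i)] (m k : ι → ℕ)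
    (hdeg : ∀ i, finrank ℚ (E i) = 2 * (m i * p (b i) ^ k i)) (hcomp : Compatible b p E)
    (D : ι → ℝ) (hD0 : ∀ i, 0 ≤ D i)
    (hD : ∀ i, ∀ T ∈ coreFields (p (b i)) (E i), (finrank ℚ T : ℝ) ≤ 2 * D i)
    (hbig : ∀ j, p j ^ (16 * ∑ i ∈ univ.filter (fun i => b i = j), m i) ≤ 2 ^ p j)
    {L : Type*} [Field L] [NumberField L] [IsGalois ℚ L] (j : L →+* ℂ)
    (hj : ∀ i, ∀ ψ : E i →+* ℂ, ∃ φ : E i →+* L, j.comp φ = ψ) :
    ({Φ : ∀ i, Set (E i →+* ℂ) | (∀ i, IsCMType (Φ i)) ∧ ¬ Nondeg Φ j}.ncard : ℝ) ≤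
      2 ^ (∑ i, m i * p (b i) ^ k i) *
        bound2 b p m k D (fun i => (coreFields (p (b i)) (E i)).Nonempty) := by
  classical
  let G := L ≃ₐ[ℚ] L
  let P : ∀ j, Sylow (p j) G := fun j => default
  let X : ι → Type _ := fun i => E i →+* L
  let inv : ∀ i, X i → X i := fun i => cbar
  have hne0 : ∀ i, Nonempty (X i) := by
    intro i
    obtain ⟨φ, -⟩ := hj i (Classical.arbitrary _)
    exact ⟨φ⟩
  have hcard : ∀ i, Fintype.card (X i) = 2 * (m i * p (b i) ^ k i) := by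
    intro i
    rw [card_emb j (hj i), hdeg i]
  have hg : Fintype.card (Σ i, X i) = 2 * ∑ i, m i * p (b i) ^ k i := by
    rw [Fintype.card_sigma, Finset.mul_sum]
    exact Finset.sum_congr rfl fun i _ => hcard i
  have hPi : ∀ j, ¬ p j ∣ (Kcl (P j)).index := fun j h =>
    (P j).not_dvd_index (h.trans (Subgroup.index_dvd_of_le Subgroup.le_normalClosure))
  have hout : ∀ x y : Σ i, X i, b x.1 ≠ b y.1 → ∃ g : G, g • x = x ∧ g • y = tot inv y := by
    rintro ⟨i, φ⟩ ⟨i', ψ⟩ hb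
    have hii : i ≠ i' := fun h => hb (congrArg b h)
    obtain ⟨σ, hσ1, hσ2⟩ := (hcomp i i' hii).1 hb (j.comp φ) (j.comp ψ)
    obtain ⟨g, hg⟩ := exists_gal j σ
    refine ⟨g, ?_, ?_⟩
    · refine congrArg (Sigma.mk i) ?_
      ext x
      apply j.injective
      rw [emb_smul_apply, ← hg]
      exact hσ1 x
    · refine congrArg (Sigma.mk i') ?_
      ext x
      apply j.injective
      rw [emb_smul_apply, ← hg]
      have h1 := RingHom.congr_fun (comp_cbar j ψ) x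
      rw [ComplexEmbedding.conjugate_coe_eq] at h1
      exact (hσ2 x).trans h1.symm
  have hcore : ∀ i, KFree (Kcl (P (b i))) (inv i) → ∀ φ₀ : X i,
      cut (Kcl (P (b i))) φ₀ ∈ coreFields (p (b i)) (E i) := by
    intro i hfree φ₀
    exact cut_mem_core (Kcl (P (b i))) j (hPi _) (hj i) hfree φ₀
  have hind : ∀ i i', i ≠ i' → b i = b i' → KFree (Kcl (P (b i))) (inv i) →
      KFree (Kcl (P (b i))) (inv i') → ∀ (x : X i) (y : X i'), ∃ g : G,
        (∃ k ∈ Kcl (P (b i)), g • x = k • x) ∧ ∃ k ∈ Kcl (P (b i)), g • y = k • inv i' y := by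
    intro i i' hii hb hf hf' x y
    have h1 : cut (Kcl (P (b i))) y ∈ coreFields (p (b i)) (E i') :=
      cut_mem_core (Kcl (P (b i))) j (hPi _) (hj i') hf' y
    exact exists_indep (Kcl (P (b i))) j x y
      ((hcomp i i' hii).2 hb _ (hcore i hf x) _ h1) x y
  have hDorb : ∀ i, KFree (Kcl (P (b i))) (inv i) → ∀ x : X i,
      (Fintype.card (X i) : ℝ) ≤ 2 * D i * Nat.card (MulAction.orbit (Kcl (P (b i))) x) := by
    intro i hf x
    have h1 := hD i _ (hcore i hf x)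
    have h2 := finrank_le_orbit (Kcl (P (b i))) j (hj i) x
    have h3 : finrank ℚ (cut (Kcl (P (b i))) x) * finrank (cut (Kcl (P (b i))) x) (E i) =
        finrank ℚ (E i) := Module.finrank_mul_finrank _ _ _
    rw [card_emb j (hj i), ← h3]
    push_cast
    refine mul_le_mul h1 (Nat.cast_le.2 h2) (Nat.cast_nonneg _) ?_
    have := hD0 i
    positivity
  have hmain := ncard_family2_le (G := G) b p hp2 P inv
    (fun i x y => MulAction.exists_smul_eq G x y) hne0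
    (fun i φ => cbar_cbar φ) (fun i φ => cbar_ne φ) (fun i g φ => rfl) m k hcard
    (M := fun _ => 1) (fun z h => by
      have h1 : (p (b z.1) : ℤ) ≤ 1 := Int.le_of_dvd one_pos h
      have h2 : 1 < p (b z.1) := (Fact.out : (p (b z.1)).Prime).one_lt
      omega) (fun _ => rfl) hout hind D hD0 hDorb hbig hg
  have hbm := bound2_mono b p m k hD0 (c := fun i => KFree (Kcl (P (b i))) (inv i))
    (c' := fun i => (coreFields (p (b i)) (E i)).Nonempty) (fun i hi => by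
      obtain ⟨φ₀⟩ := hne0 i
      exact ⟨_, hcore i hi φ₀⟩)
  refine le_trans ?_ (hmain.trans (mul_le_mul_of_nonneg_left hbm (by positivity)))
  -- the embedding of the set of families
  let e : (∀ i, Set (E i →+* ℂ)) → Set (Σ i, X i) := fun Φ => {z | j.comp z.2 ∈ Φ z.1}
  refine Nat.cast_le.2 (Set.ncard_le_ncard_of_injOn e ?_ ?_ (Set.toFinite _))
  · rintro Φ ⟨hΦ, hnd⟩
    refine ⟨?_, ?_⟩
    · rintro ⟨i, φ⟩
      change j.comp φ ∈ Φ i ↔ ¬ (j.comp (cbar φ) ∈ Φ i)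
      rw [comp_cbar]
      exact hΦ i _
    · rw [Nondeg] at hnd
      push Not at hnd
      obtain ⟨c, hodd, hrel, i, φ, hne⟩ := hnd
      refine ⟨fun z => c z.1 z.2, ?_, ?_, ?_⟩
      · intro h
        exact hne (congrFun h ⟨i, φ⟩)
      · rintro ⟨i, φ⟩
        exact hodd i φ
      · intro g
        rw [Fintype.sum_sigma, ← hrel g]
        refine Finset.sum_congr rfl fun i _ => Finset.sum_congr rfl fun φ _ => ?_
        congr 1
  · intro Φ _ Ψ _ h
    funext i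
    ext ψ
    obtain ⟨φ, rfl⟩ := hj i ψ
    have h1 : (⟨i, φ⟩ : Σ i, X i) ∈ e Φ ↔ (⟨i, φ⟩ : Σ i, X i) ∈ e Ψ := by rw [h]
    exact h1

/-- **The number of exceptional families.** -/
theorem ncard_exceptional2_le {ι J : Type} [Fintype ι] [Fintype J] [DecidableEq J] (b : ι → J)
    (p : J → ℕ) [hp : ∀ j, Fact (p j).Prime] (hp2 : ∀ j, p j ≠ 2) (E : ι → Type)
    [∀ i, Field (E i)] [∀ i, NumberField (E i)] [∀ i, IsCMField (E i)] (m k : ι → ℕ)
    (hdeg : ∀ i, finrank ℚ (E i) = 2 * (m i * p (b i) ^ k i)) (hcomp : Compatible b p E)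
    (D : ι → ℝ) (hD0 : ∀ i, 0 ≤ D i)
    (hD : ∀ i, ∀ T ∈ coreFields (p (b i)) (E i), (finrank ℚ T : ℝ) ≤ 2 * D i)
    (hbig : ∀ j, p j ^ (16 * ∑ i ∈ univ.filter (fun i => b i = j), m i) ≤ 2 ^ p j) :
    ({Φ : ∀ i, Set (E i →+* ℂ) | (∀ i, IsCMType (Φ i)) ∧
      ¬ ∀ (J' : Type) [Fintype J'] (t : J' → ι), HodgeGenerated (per Φ t)}.ncard : ℝ) ≤
      2 ^ (∑ i, m i * p (b i) ^ k i) *
        bound2 b p m k D (fun i => (coreFields (p (b i)) (E i)).Nonempty) := by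
  obtain ⟨L, _, _, j, hj⟩ := exists_galois E
  refine le_trans ?_ (ncard_fields2_le b p hp2 E m k hdeg hcomp D hD0 hD hbig j hj)
  refine Nat.cast_le.2 (Set.ncard_le_ncard ?_ (Set.toFinite _))
  rintro Φ ⟨hΦ, h⟩
  refine ⟨hΦ, fun hnd => h ?_⟩
  intro J' _ t m f hf
  exact hodge_of_nondeg hΦ t j hj hnd f hf

end Pool.Agent.Y1.SM
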