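import Mathlib
import Pool.Agent.Y1.SM.Main2

/-!
# Asymptotic form of the bound
-/

set_option linter.unusedSectionVars false
set_option linter.unusedVariables false

namespace Pool.Agent.Y1.SM

open NumberField Module Finset Pool.Agent.H204R3.CM Pool.Agent.H977R3.CM IntermediateField

/-- The size from which on the estimates hold. -/
theorem exists_size (δ : ℝ) (hδ : 0 < δ) : ∃ g₀ : ℕ, ∀ x : ℝ, (g₀ : ℝ) ≤ x →
    3 ≤ x ^ (δ / 2) ∧ 16 * Real.log x ≤ x ^ (2 * δ) * Real.log 2 ∧ 9 ≤ x := by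
  have h1 : ∀ᶠ x : ℝ in Filter.atTop, 3 ≤ x ^ (δ / 2) :=
    (tendsto_rpow_atTop (by linarith)).eventually_ge_atTop 3
  have hlog2 : 0 < Real.log 2 := Real.log_pos (by norm_num)
  have h2 : ∀ᶠ x : ℝ in Filter.atTop, ‖Real.log x‖ ≤ (Real.log 2 / 16) * ‖x ^ (2 * δ)‖ :=
    (isLittleO_log_rpow_atTop (by linarith : 0 < 2 * δ)).def (by positivity)
  obtain ⟨a, ha⟩ := Filter.eventually_atTop.1 (h1.and (h2.and (Filter.eventually_ge_atTop 9)))
  obtain ⟨n, hn⟩ := exists_nat_ge a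
  refine ⟨n, fun x hx => ?_⟩
  obtain ⟨h3, h4, h5⟩ := ha x (hn.trans hx)
  refine ⟨h3, ?_, h5⟩
  have h6 : 0 ≤ x := by linarith
  rw [Real.norm_of_nonneg (Real.rpow_nonneg h6 _)] at h4
  have h7 := (le_abs_self (Real.log x)).trans h4
  linarith

/-- The subfields of the core have a degree that is not divisible by `p`. -/
theorem not_dvd_of_core {p : ℕ} {E : Type*} [Field E] [NumberField E] {T : IntermediateField ℚ E}
    (hT : T ∈ coreFields p E) : ¬ p ∣ finrank ℚ T := by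
  intro h
  apply hT.2
  have f : T →ₐ[ℚ] ℂ := IsAlgClosed.lift
  have h1 : f.fieldRange ≤ normalClosure ℚ T ℂ := le_iSup (fun f : T →ₐ[ℚ] ℂ => f.fieldRange) f
  have h2 : finrank ℚ f.fieldRange = finrank ℚ T :=
    ((AlgEquiv.ofInjectiveField f).toLinearEquiv.finrank_eq).symm
  rw [← h2] at h
  exact h.trans (finrank_dvd_of_le_right h1)

theorem core_degree_le {p g : ℕ} (hp : p.Prime) (hpg : p ∣ g) {E : Type*} [Field E] [NumberField E]
    (hE : finrank ℚ E = 2 * g) {T : IntermediateField ℚ E} (hT : T ∈ coreFields p E) :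
    finrank ℚ T * p ≤ 2 * g := by
  have hcop : Nat.Coprime (finrank ℚ T) p :=
    ((Nat.Prime.coprime_iff_not_dvd hp).2 (not_dvd_of_core hT)).symm
  have h1 : finrank ℚ T ∣ 2 * g := by
    rw [← hE, ← Module.finrank_mul_finrank ℚ T E]
    exact Nat.dvd_mul_right _ _
  have hg : 0 < 2 * g := by
    rw [← hE]
    exact Module.finrank_pos
  exact Nat.le_of_dvd hg (hcop.mul_dvd_of_dvd_of_dvd h1 (hpg.trans (Nat.dvd_mul_left _ _)))

theorem coreTerm_le' {δ : ℝ} (hδ : 0 < δ) {p g : ℕ} (hg : 3 ≤ (g : ℝ) ^ (δ / 2)) (hg1 : 9 ≤ (g : ℝ))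
    (hp : (g : ℝ) ^ (1 / 2 + δ) ≤ p) :
    coreTerm p g ((g : ℝ) ^ (1 / 3 - δ)) ≤ (g : ℝ) ^ (-δ) * (2 / 3) := by
  have hg0 : (0 : ℝ) < g := by linarith
  have hpos : ∀ a : ℝ, 0 < (g : ℝ) ^ a := fun a => Real.rpow_pos_of_pos hg0 a
  set D := (g : ℝ) ^ (1 / 3 - δ) with hD
  have hp0 : (0 : ℝ) < p := lt_of_lt_of_le (hpos _) hp
  have hpi : (3 : ℝ) ≤ Real.pi := Real.pi_gt_three.le
  -- first term
  have h1 : D * (1 / p) ≤ (g : ℝ) ^ (-δ) * (1 / 3) := by
    have h2 : D * (1 / p) ≤ D * (1 / (g : ℝ) ^ (1 / 2 + δ)) :=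
      mul_le_mul_of_nonneg_left (one_div_le_one_div_of_le (hpos _) hp) (hpos _).le
    have h3 : D * (1 / (g : ℝ) ^ (1 / 2 + δ)) = (g : ℝ) ^ (-δ) * (g : ℝ) ^ (-(1 / 6 + δ)) := by
      rw [hD, one_div ((g : ℝ) ^ (1 / 2 + δ)), ← Real.rpow_neg hg0.le, ← Real.rpow_add hg0,
        ← Real.rpow_add hg0]
      congr 1
      ring
    have h4 : (g : ℝ) ^ (-(1 / 6 + δ)) ≤ 1 / 3 := by
      have h5 : (g : ℝ) ^ (-(1 / 6 + δ)) ≤ (g : ℝ) ^ (-(δ / 2)) :=
        Real.rpow_le_rpow_of_exponent_le (by linarith) (by linarith)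
      rw [Real.rpow_neg hg0.le (δ / 2), inv_eq_one_div] at h5
      exact h5.trans (one_div_le_one_div_of_le (by norm_num) hg)
    calc D * (1 / p) ≤ (g : ℝ) ^ (-δ) * (g : ℝ) ^ (-(1 / 6 + δ)) := h2.trans h3.le
      _ ≤ _ := mul_le_mul_of_nonneg_left h4 (hpos _).le
  have h2 : D * Real.sqrt (2 * D / (Real.pi * g)) ≤ (g : ℝ) ^ (-δ) * (1 / 3) := by
    have h3 : Real.sqrt (2 * D / (Real.pi * g)) ≤ (g : ℝ) ^ (-(1 / 3 + δ / 2)) := by
      rw [Real.sqrt_le_left (hpos _).le, ← Real.rpow_natCast, ← Real.rpow_mul hg0.le]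
      have h4 : D / g = (g : ℝ) ^ (-(1 / 3 + δ / 2) * (2 : ℕ)) := by
        rw [hD, div_eq_mul_inv]
        nth_rewrite 2 [← Real.rpow_one (g : ℝ)]
        rw [← Real.rpow_neg hg0.le, ← Real.rpow_add hg0]
        congr 1
        push_cast
        ring
      rw [← h4, div_le_div_iff₀ (by positivity) hg0]
      have h5 : 0 < D * g := mul_pos (hpos _) hg0
      nlinarith
    have h4 : D * (g : ℝ) ^ (-(1 / 3 + δ / 2)) = (g : ℝ) ^ (-δ) * (g : ℝ) ^ (-(δ / 2)) := by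
      rw [hD, ← Real.rpow_add hg0, ← Real.rpow_add hg0]
      congr 1
      ring
    have h5 : (g : ℝ) ^ (-(δ / 2)) ≤ 1 / 3 := by
      rw [Real.rpow_neg hg0.le (δ / 2), inv_eq_one_div]
      exact one_div_le_one_div_of_le (by norm_num) hg
    calc D * Real.sqrt (2 * D / (Real.pi * g)) ≤ D * (g : ℝ) ^ (-(1 / 3 + δ / 2)) :=
          mul_le_mul_of_nonneg_left h3 (hpos _).le
      _ = (g : ℝ) ^ (-δ) * (g : ℝ) ^ (-(δ / 2)) := h4
      _ ≤ _ := mul_le_mul_of_nonneg_left h5 (hpos _).le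
  unfold coreTerm
  rw [mul_add]
  linarith

theorem coreTerm_le {δ : ℝ} (hδ : 0 < δ) {p g : ℕ} (hg : 3 ≤ (g : ℝ) ^ (δ / 2)) (hg1 : 9 ≤ (g : ℝ))
    (hp : (g : ℝ) ^ (1 / 2 + δ) ≤ p) :
    coreTerm p g ((g : ℝ) ^ (1 / 3 - δ)) ≤ (g : ℝ) ^ (-δ) := by
  have h1 := coreTerm_le' hδ hg hg1 hp
  have h2 : (0 : ℝ) < (g : ℝ) ^ (-δ) := Real.rpow_pos_of_pos (by linarith) _
  linarith

/-- The estimates for one block. -/
theorem block_estimates {δ : ℝ} (hδ : 0 < δ) {p M S : ℕ} (hp : p.Prime) (hS : S = M * p)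
    (hM : 0 < M) (h3 : 3 ≤ (S : ℝ) ^ (δ / 2)) (hlog : 16 * Real.log S ≤ (S : ℝ) ^ (2 * δ) * Real.log 2)
    (hpS : (S : ℝ) ^ (1 / 2 + δ) ≤ p) :
    p ^ (16 * M) ≤ 2 ^ p ∧ 2 * (2 : ℝ) ^ (-((p : ℝ) / (4 * M : ℕ))) ≤ (2 : ℝ) ^ (-(S : ℝ) ^ δ) := by
  have hp0 : (0 : ℝ) < p := Nat.cast_pos.2 hp.pos
  have hM0 : (0 : ℝ) < M := Nat.cast_pos.2 hM
  have hS' : (S : ℝ) = M * p := by rw [hS]; push_cast; ring
  have hS0 : (0 : ℝ) < S := by rw [hS']; positivity
  have hpos : ∀ a : ℝ, 0 < (S : ℝ) ^ a := fun a => Real.rpow_pos_of_pos hS0 a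
  -- the ratio
  have hratio : (S : ℝ) ^ (2 * δ) * M ≤ p := by
    have h1 : (S : ℝ) ^ (1 + 2 * δ) ≤ (p : ℝ) ^ 2 := by
      have h2 : (S : ℝ) ^ (1 + 2 * δ) = ((S : ℝ) ^ (1 / 2 + δ)) ^ 2 := by
        rw [← Real.rpow_natCast, ← Real.rpow_mul hS0.le]
        congr 1
        push_cast
        ring
      rw [h2]
      exact pow_le_pow_left₀ (hpos _).le hpS 2
    rw [Real.rpow_add hS0, Real.rpow_one, hS'] at h1
    rw [← hS'] at h1
    have h3 : (M : ℝ) * p * (S : ℝ) ^ (2 * δ) ≤ p * p := by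
      rw [← hS', ← sq]
      exact h1
    have h4 : p * ((S : ℝ) ^ (2 * δ) * M) ≤ p * p := by linarith
    exact le_of_mul_le_mul_left h4 hp0
  constructor
  · have h1 : Real.log ((p : ℝ) ^ (16 * M)) ≤ Real.log ((2 : ℝ) ^ p) := by
      rw [Real.log_pow, Real.log_pow]
      have hlog2 : 0 < Real.log 2 := Real.log_pos (by norm_num)
      have hpS' : Real.log p ≤ Real.log S := by
        apply Real.log_le_log hp0
        rw [hS']
        have : (1 : ℝ) ≤ M := by exact_mod_cast hM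
        nlinarith
      push_cast
      calc 16 * (M : ℝ) * Real.log p ≤ 16 * M * Real.log S :=
            mul_le_mul_of_nonneg_left hpS' (by positivity)
        _ = M * (16 * Real.log S) := by ring
        _ ≤ M * ((S : ℝ) ^ (2 * δ) * Real.log 2) := mul_le_mul_of_nonneg_left hlog hM0.le
        _ = ((S : ℝ) ^ (2 * δ) * M) * Real.log 2 := by ring
        _ ≤ p * Real.log 2 := mul_le_mul_of_nonneg_right hratio hlog2.le
    have h2 := (Real.log_le_log_iff (by positivity) (by positivity)).1 h1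
    exact_mod_cast h2
  · have h1 : (9 : ℝ) ≤ (S : ℝ) ^ δ := by
      have h2 : (S : ℝ) ^ δ = ((S : ℝ) ^ (δ / 2)) ^ 2 := by
        rw [← Real.rpow_natCast, ← Real.rpow_mul hS0.le]
        congr 1
        push_cast
        ring
      rw [h2]
      nlinarith
    have h2 : (S : ℝ) ^ (2 * δ) = ((S : ℝ) ^ δ) ^ 2 := by
      rw [← Real.rpow_natCast, ← Real.rpow_mul hS0.le]
      congr 1
      push_cast
      ring
    have h3' : (S : ℝ) ^ (2 * δ) / 4 ≤ (p : ℝ) / (4 * M : ℕ) := by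
      push_cast
      rw [div_le_div_iff₀ (by norm_num) (by positivity)]
      linarith
    nth_rewrite 1 [← Real.rpow_one (2 : ℝ)]
    rw [← Real.rpow_add (by norm_num)]
    apply Real.rpow_le_rpow_of_exponent_le (by norm_num)
    rw [h2] at h3'
    nlinarith

open Classical in
/-- **The proportion of the exceptional families.** -/
theorem exceptional_asymptotic (δ : ℝ) (hδ : 0 < δ) : ∃ g₀ : ℕ, ∀ (ι J : Type) [Fintype ι]
    [Fintype J] (b : ι → J) (p : J → ℕ) (E : ι → Type) [∀ i, Field (E i)]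
    [∀ i, NumberField (E i)] [∀ i, IsCMField (E i)] (g : ι → ℕ),
    Function.Surjective b → (∀ j, (p j).Prime) → (∀ i, finrank ℚ (E i) = 2 * g i) →
    (∀ i, g₀ ≤ g i) → (∀ i, p (b i) ∣ g i) →
    (∀ j, ((∑ i ∈ univ.filter (fun i => b i = j), g i : ℕ) : ℝ) ^ (1 / 2 + δ) ≤ p j) →
    (∀ i, (g i : ℝ) ^ (2 / 3 + δ) ≤ p (b i) ∨
      ∀ T ∈ coreFields (p (b i)) (E i), (finrank ℚ T : ℝ) ≤ 2 * (g i : ℝ) ^ (1 / 3 - δ)) →
    Compatible b p E →
    ({Φ : ∀ i, Set (E i →+* ℂ) | (∀ i, IsCMType (Φ i)) ∧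
      ¬ ∀ (J' : Type) [Fintype J'] (t : J' → ι), HodgeGenerated (per Φ t)}.ncard : ℝ) ≤
      2 ^ (∑ i, g i) *
        (∑ i ∈ univ.filter (fun i => (coreFields (p (b i)) (E i)).Nonempty), (g i : ℝ) ^ (-δ) +
          ∑ j, (2 : ℝ) ^ (-((∑ i ∈ univ.filter (fun i => b i = j), g i : ℕ) : ℝ) ^ δ)) := by
  obtain ⟨g₀, hg₀⟩ := exists_size δ hδ
  refine ⟨g₀, ?_⟩
  intro ι J _ _ b p E _ _ _ g hb hp hdeg hg hpg hsize hcore hcomp
  have hpf : ∀ j, Fact (p j).Prime := fun j => ⟨hp j⟩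
  -- the numbers
  choose m hm using hpg
  have hgm : ∀ i, g i = m i * p (b i) ^ 1 := fun i => by rw [hm i, pow_one, mul_comm]
  let S : J → ℕ := fun j => ∑ i ∈ univ.filter (fun i => b i = j), g i
  let MM : J → ℕ := fun j => ∑ i ∈ univ.filter (fun i => b i = j), m i
  have hS : ∀ j, S j = MM j * p j := by
    intro j
    simp only [S, MM]
    rw [Finset.sum_mul]
    refine Finset.sum_congr rfl fun i hi => ?_
    rw [mem_filter] at hi
    rw [hm i, hi.2, mul_comm]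
  have hgS : ∀ i, g i ≤ S (b i) := by
    intro i
    exact Finset.single_le_sum (f := g) (fun _ _ => Nat.zero_le _)
      (mem_filter.2 ⟨mem_univ i, rfl⟩)
  have hbig : ∀ j, (g₀ : ℝ) ≤ S j := by
    intro j
    obtain ⟨i, rfl⟩ := hb j
    exact_mod_cast (hg i).trans (hgS i)
  have hgi : ∀ i, (g₀ : ℝ) ≤ g i := fun i => by exact_mod_cast hg i
  have hMM : ∀ j, 0 < MM j := by
    intro j
    have h1 := (hg₀ _ (hbig j)).2.2
    rw [hS j] at h1
    by_contra h2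
    have h3 : MM j = 0 := by omega
    rw [h3, zero_mul, Nat.cast_zero] at h1
    linarith
  have hest := fun j => block_estimates hδ (hp j) (hS j) (hMM j) (hg₀ _ (hbig j)).1
    (hg₀ _ (hbig j)).2.1 (hsize j)
  have hp2 : ∀ j, p j ≠ 2 := by
    intro j h2
    have h1 := (hg₀ _ (hbig j)).2.2
    have h3 : (3 : ℝ) ≤ (S j : ℝ) ^ (1 / 2 + δ) := by
      have h4 : (9 : ℝ) ^ (1 / 2 : ℝ) = 3 := by
        rw [show (9 : ℝ) = 3 ^ (2 : ℝ) by norm_num, ← Real.rpow_mul (by norm_num)]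
        norm_num
      calc (3 : ℝ) = (9 : ℝ) ^ (1 / 2 : ℝ) := h4.symm
        _ ≤ (S j : ℝ) ^ (1 / 2 : ℝ) := Real.rpow_le_rpow (by norm_num) h1 (by norm_num)
        _ ≤ (S j : ℝ) ^ (1 / 2 + δ) :=
            Real.rpow_le_rpow_of_exponent_le (by linarith) (by linarith)
    have h5 := h3.trans (hsize j)
    rw [h2] at h5
    norm_num at h5
  have hmain := ncard_exceptional2_le b p hp2 E m (fun _ => 1)
    (fun i => by rw [hdeg i, ← hgm i]) hcomp (fun i => (g i : ℝ) ^ (1 / 3 - δ))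
    (fun i => Real.rpow_nonneg (Nat.cast_nonneg _) _) (by
      intro i T hT
      rcases hcore i with h | h
      · have hg9 : (9 : ℝ) ≤ g i := (hg₀ _ (hgi i)).2.2
        have hg0 : (0 : ℝ) < g i := by linarith
        have h1 := core_degree_le (hp (b i)) ⟨m i, hm i⟩ (hdeg i) hT
        have h2 : (finrank ℚ T : ℝ) * p (b i) ≤ 2 * g i := by exact_mod_cast h1
        have h3 : (finrank ℚ T : ℝ) * (g i : ℝ) ^ (2 / 3 + δ) ≤ 2 * g i :=
          (mul_le_mul_of_nonneg_left h (Nat.cast_nonneg _)).trans h2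
        have h4 : 0 < (g i : ℝ) ^ (2 / 3 + δ) := Real.rpow_pos_of_pos hg0 _
        have h5 : 2 * (g i : ℝ) = (2 * (g i : ℝ) ^ (1 / 3 - δ)) * (g i : ℝ) ^ (2 / 3 + δ) := by
          rw [mul_assoc, ← Real.rpow_add hg0]
          have : (1 / 3 - δ + (2 / 3 + δ)) = 1 := by ring
          rw [this, Real.rpow_one]
        rw [h5] at h3
        exact le_of_mul_le_mul_right h3 h4
      · exact h T hT) (fun j => (hest j).1)
  have hexp : ∑ i, m i * p (b i) ^ 1 = ∑ i, g i := Finset.sum_congr rfl fun i _ => (hgm i).symm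
  rw [hexp] at hmain
  refine hmain.trans (mul_le_mul_of_nonneg_left ?_ (by positivity))
  unfold bound2
  rw [Finset.sum_add_distrib]
  refine add_le_add ?_ (Finset.sum_le_sum fun j _ => (hest j).2)
  have hfib : ∑ i ∈ univ.filter (fun i => (coreFields (p (b i)) (E i)).Nonempty), (g i : ℝ) ^ (-δ) =
      ∑ j, ∑ i ∈ univ.filter (fun i => b i = j ∧ (coreFields (p (b i)) (E i)).Nonempty),
        (g i : ℝ) ^ (-δ) := by
    rw [← Finset.sum_fiberwise (s := univ.filter (fun i => (coreFields (p (b i)) (E i)).Nonempty))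
      (g := b)]
    refine Finset.sum_congr rfl fun j _ => Finset.sum_congr ?_ fun _ _ => rfl
    ext i
    simp only [mem_filter, mem_univ, true_and]
    exact and_comm
  rw [hfib]
  refine Finset.sum_le_sum fun j _ => Finset.sum_le_sum fun i hi => ?_
  rw [mem_filter] at hi
  have h1 : m i * p j ^ 1 = g i := by rw [← hi.2.1, ← hgm i]
  rw [h1]
  refine coreTerm_le hδ (hg₀ _ (hgi i)).1 (hg₀ _ (hgi i)).2.2 ?_
  have h2 := hsize j
  refine le_trans ?_ h2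
  apply Real.rpow_le_rpow (Nat.cast_nonneg _)
  · rw [← hi.2.1]
    exact_mod_cast hgS i
  · linarith

end Pool.Agent.Y1.SM
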