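import Mathlib
import Pool.Agent.Y1.SM.Asym

/-!
# The two forms of the bound
-/

set_option linter.unusedSectionVars false
set_option linter.unusedVariables false

namespace Pool.Agent.Y1.SM

open NumberField Module Finset Pool.Agent.H204R3.CM Pool.Agent.H977R3.CM IntermediateField

theorem core_degree_le_pow {p m k : ℕ} (hp : p.Prime) {E : Type*} [Field E] [NumberField E]
    (hE : finrank ℚ E = 2 * (m * p ^ k)) {T : IntermediateField ℚ E} (hT : T ∈ coreFields p E) :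
    finrank ℚ T ≤ 2 * m := by
  have hcop : Nat.Coprime (finrank ℚ T) (p ^ k) :=
    (((Nat.Prime.coprime_iff_not_dvd hp).2 (not_dvd_of_core hT)).symm).pow_right k
  have h1 : finrank ℚ T ∣ (2 * m) * p ^ k := by
    rw [mul_assoc, ← hE, ← Module.finrank_mul_finrank ℚ T E]
    exact Nat.dvd_mul_right _ _
  have h2 : finrank ℚ T ∣ 2 * m := hcop.dvd_of_dvd_mul_right h1
  have hg : 0 < 2 * (m * p ^ k) := by
    rw [← hE]
    exact Module.finrank_pos
  refine Nat.le_of_dvd ?_ h2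
  rcases Nat.eq_zero_or_pos m with rfl | hm
  · simp at hg
  · omega

/-- The explicit form. -/
theorem explicit_bound {ι J : Type} [Fintype ι] [Fintype J] [DecidableEq J] (b : ι → J)
    (p : J → ℕ) (E : ι → Type) [∀ i, Field (E i)] [∀ i, NumberField (E i)]
    [∀ i, IsCMField (E i)] (m k : ι → ℕ) (D : ι → ℝ) (hp : ∀ j, (p j).Prime ∧ p j ≠ 2)
    (hdeg : ∀ i, finrank ℚ (E i) = 2 * (m i * p (b i) ^ k i)) (hcomp : Compatible b p E)
    (hD0 : ∀ i, 0 ≤ D i)
    (hD : ∀ i, D i = m i ∨ ∀ T ∈ coreFields (p (b i)) (E i), (finrank ℚ T : ℝ) ≤ 2 * D i)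
    (hbig : ∀ j, p j ^ (16 * ∑ i ∈ univ.filter (fun i => b i = j), m i) ≤ 2 ^ p j) :
    ({Φ : ∀ i, Set (E i →+* ℂ) | (∀ i, IsCMType (Φ i)) ∧
      ¬ ∀ (J' : Type) [Fintype J'] (t : J' → ι), HodgeGenerated (per Φ t)}.ncard : ℝ) ≤
      2 ^ (∑ i, m i * p (b i) ^ k i) *
        (∑ i, D i * (1 / p (b i) + Real.sqrt (2 * D i / (Real.pi * (m i * p (b i) ^ k i)))) +
          ∑ j, 2 * (2 : ℝ) ^ (-((p j : ℝ) / (4 * ∑ i ∈ univ.filter (fun i => b i = j), m i)))) := by
  classical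
  have hpf : ∀ j, Fact (p j).Prime := fun j => ⟨(hp j).1⟩
  have hmain := ncard_exceptional2_le b p (fun j => (hp j).2) E m k hdeg hcomp D hD0 (by
    intro i T hT
    rcases hD i with h | h
    · rw [h]
      exact_mod_cast core_degree_le_pow (hp (b i)).1 (hdeg i) hT
    · exact h T hT) hbig
  refine hmain.trans (mul_le_mul_of_nonneg_left ?_ (by positivity))
  unfold bound2
  rw [Finset.sum_add_distrib]
  refine add_le_add ?_ (le_of_eq ?_)
  · rw [← Finset.sum_fiberwise (s := univ) (g := b)]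
    refine Finset.sum_le_sum fun j _ => ?_
    refine le_trans ?_ (Finset.sum_le_sum_of_subset_of_nonneg
      (s := univ.filter (fun i => b i = j ∧ (coreFields (p (b i)) (E i)).Nonempty))
      (t := univ.filter (fun i => b i = j)) ?_ ?_)
    · refine le_of_eq (Finset.sum_congr ?_ ?_)
      · ext i
        simp
      · intro i hi
        rw [mem_filter] at hi
        unfold coreTerm
        rw [hi.2.1]
        push_cast
        rfl
    · intro i hi
      rw [mem_filter] at hi ⊢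
      exact ⟨hi.1, hi.2.1⟩
    · intro i _ _
      have := hD0 i
      positivity
  · refine Finset.sum_congr rfl fun j _ => ?_
    push_cast
    rfl

/-- Two terms of the estimate. -/
theorem pow_two_le {y : ℝ} (hy : 9 ≤ y) : (2 : ℝ) ^ (-y) ≤ y⁻¹ * (1 / 3) := by
  have h1 : 3 * y ≤ (2 : ℝ) ^ y := by
    have h2 : (2 : ℝ) ^ y = (2 : ℝ) ^ (y / 2) * (2 : ℝ) ^ (y / 2) := by
      rw [← Real.rpow_add (by norm_num)]
      congr 1
      ring
    have h3 : y / 2 * Real.log 2 + 1 ≤ (2 : ℝ) ^ (y / 2) := by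
      rw [Real.rpow_def_of_pos (by norm_num)]
      have := Real.add_one_le_exp (Real.log 2 * (y / 2))
      linarith
    have hlog : (0.69 : ℝ) ≤ Real.log 2 := by
      have := Real.log_two_gt_d9
      linarith
    have h4 : 0.345 * y + 1 ≤ (2 : ℝ) ^ (y / 2) := by nlinarith
    have h5 : 16 ≤ (2 : ℝ) ^ (y / 2) := by
      have h6 : (2 : ℝ) ^ (4 : ℝ) ≤ (2 : ℝ) ^ (y / 2) :=
        Real.rpow_le_rpow_of_exponent_le (by norm_num) (by linarith)
      have h7 : (2 : ℝ) ^ (4 : ℝ) = 16 := by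
        rw [show (4 : ℝ) = ((4 : ℕ) : ℝ) by norm_num, Real.rpow_natCast]
        norm_num
      linarith
    rw [h2]
    nlinarith
  have hy0 : 0 < y := by linarith
  rw [Real.rpow_neg (by norm_num), ← mul_inv_cancel_right₀ hy0.ne' ((2 : ℝ) ^ y)⁻¹]
  have h3 : ((2 : ℝ) ^ y)⁻¹ * y ≤ 1 / 3 := by
    rw [inv_mul_le_iff₀ (by positivity)]
    linarith
  nlinarith [inv_pos.2 hy0]

/-- The uniform form. -/
theorem uniform_bound (δ : ℝ) (hδ : 0 < δ) : ∃ g₀ : ℕ, ∀ (ι : Type) [Fintype ι] (E : ι → Type)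
    [∀ i, Field (E i)] [∀ i, NumberField (E i)] [∀ i, IsCMField (E i)] (g p : ι → ℕ),
    (∀ i, finrank ℚ (E i) = 2 * g i) → (∀ i, g₀ ≤ g i) →
    (∀ i, (p i).Prime ∧ p i ∣ g i ∧ (g i : ℝ) ^ (2 / 3 + δ) ≤ p i) → PairwiseIndep E →
    ({Φ : ∀ i, Set (E i →+* ℂ) | (∀ i, IsCMType (Φ i)) ∧
      ¬ ∀ (J' : Type) [Fintype J'] (t : J' → ι), HodgeGenerated (per Φ t)}.ncard : ℝ) ≤
      2 ^ (∑ i, g i) * ∑ i, (g i : ℝ) ^ (-δ) := by
  classical
  obtain ⟨g₀, hg₀⟩ := exists_size δ hδ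
  refine ⟨g₀, ?_⟩
  intro ι _ E _ _ _ g p hdeg hg hp hind
  have hgi : ∀ i, (g₀ : ℝ) ≤ g i := fun i => by exact_mod_cast hg i
  have hcomp : Compatible (fun i : ι => i) p E := by
    intro i i' hii
    exact ⟨fun _ φ ψ => hind i i' hii φ ψ, fun h => absurd h hii⟩
  have hfilt : ∀ (f : ι → ℕ) (j : ι), ∑ i ∈ univ.filter (fun i => i = j), f i = f j := by
    intro f j
    rw [Finset.filter_eq' univ j, if_pos (mem_univ j), Finset.sum_singleton]
  have hsize : ∀ j, (g j : ℝ) ^ (1 / 2 + δ) ≤ p j := by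
    intro j
    refine le_trans ?_ (hp j).2.2
    have h9 := (hg₀ _ (hgi j)).2.2
    exact Real.rpow_le_rpow_of_exponent_le (by linarith) (by linarith)
  choose m hm using fun i => (hp i).2.1
  have hgm : ∀ i, g i = m i * p i ^ 1 := fun i => by rw [hm i, pow_one, mul_comm]
  have hm0 : ∀ i, 0 < m i := by
    intro i
    have h1 := (hg₀ _ (hgi i)).2.2
    rw [hgm i] at h1
    by_contra h2
    have h3 : m i = 0 := by omega
    rw [h3, zero_mul, Nat.cast_zero] at h1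
    linarith
  have hest := fun i => block_estimates hδ (hp i).1 (by rw [hgm i, pow_one]) (hm0 i)
    (hg₀ _ (hgi i)).1 (hg₀ _ (hgi i)).2.1 (hsize i)
  have hp2 : ∀ i, p i ≠ 2 := by
    intro i h2
    have h1 := (hg₀ _ (hgi i)).2.2
    have h3 : (3 : ℝ) ≤ (g i : ℝ) ^ (1 / 2 + δ) := by
      have h4 : (9 : ℝ) ^ (1 / 2 : ℝ) = 3 := by
        rw [show (9 : ℝ) = 3 ^ (2 : ℝ) by norm_num, ← Real.rpow_mul (by norm_num)]
        norm_num
      calc (3 : ℝ) = (9 : ℝ) ^ (1 / 2 : ℝ) := h4.symm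
        _ ≤ (g i : ℝ) ^ (1 / 2 : ℝ) := Real.rpow_le_rpow (by norm_num) h1 (by norm_num)
        _ ≤ (g i : ℝ) ^ (1 / 2 + δ) :=
            Real.rpow_le_rpow_of_exponent_le (by linarith) (by linarith)
    have h5 := h3.trans (hsize i)
    rw [h2] at h5
    norm_num at h5
  have hpf : ∀ i, Fact (p i).Prime := fun i => ⟨(hp i).1⟩
  have hmain := ncard_exceptional2_le (fun i : ι => i) p hp2 E m (fun _ => 1)
    (fun i => by rw [hdeg i, ← hgm i]) hcomp (fun i => (g i : ℝ) ^ (1 / 3 - δ))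
    (fun i => Real.rpow_nonneg (Nat.cast_nonneg _) _) (by
      intro i T hT
      have hg9 : (9 : ℝ) ≤ g i := (hg₀ _ (hgi i)).2.2
      have hg0 : (0 : ℝ) < g i := by linarith
      have h1 := core_degree_le (hp i).1 (hp i).2.1 (hdeg i) hT
      have h2 : (finrank ℚ T : ℝ) * p i ≤ 2 * g i := by exact_mod_cast h1
      have h3 : (finrank ℚ T : ℝ) * (g i : ℝ) ^ (2 / 3 + δ) ≤ 2 * g i :=
        (mul_le_mul_of_nonneg_left (hp i).2.2 (Nat.cast_nonneg _)).trans h2
      have h4 : 0 < (g i : ℝ) ^ (2 / 3 + δ) := Real.rpow_pos_of_pos hg0 _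
      have h5 : 2 * (g i : ℝ) = (2 * (g i : ℝ) ^ (1 / 3 - δ)) * (g i : ℝ) ^ (2 / 3 + δ) := by
        rw [mul_assoc, ← Real.rpow_add hg0]
        have : (1 / 3 - δ + (2 / 3 + δ)) = 1 := by ring
        rw [this, Real.rpow_one]
      rw [h5] at h3
      exact le_of_mul_le_mul_right h3 h4) (fun j => by
        rw [hfilt]
        exact (hest j).1)
  have hexp : ∑ i, m i * p i ^ 1 = ∑ i, g i := Finset.sum_congr rfl fun i _ => (hgm i).symm
  rw [hexp] at hmain
  refine hmain.trans (mul_le_mul_of_nonneg_left ?_ (by positivity))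
  unfold bound2
  refine Finset.sum_le_sum fun i _ => ?_
  have hg9 : (9 : ℝ) ≤ g i := (hg₀ _ (hgi i)).2.2
  have hg0 : (0 : ℝ) < g i := by linarith
  have h1 : ∑ i' ∈ univ.filter (fun i' => i' = i ∧ (coreFields (p i') (E i')).Nonempty),
      coreTerm (p i) (m i' * p i ^ 1) ((g i' : ℝ) ^ (1 / 3 - δ)) ≤ (g i : ℝ) ^ (-δ) * (2 / 3) := by
    have h2 : ∑ i' ∈ univ.filter (fun i' => i' = i ∧ (coreFields (p i') (E i')).Nonempty),
        coreTerm (p i) (m i' * p i ^ 1) ((g i' : ℝ) ^ (1 / 3 - δ)) ≤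
        ∑ i' ∈ ({i} : Finset ι), coreTerm (p i) (m i' * p i ^ 1) ((g i' : ℝ) ^ (1 / 3 - δ)) := by
      refine Finset.sum_le_sum_of_subset_of_nonneg ?_ ?_
      · intro i' hi'
        rw [mem_filter] at hi'
        rw [mem_singleton]
        exact hi'.2.1
      · intro i' _ _
        exact coreTerm_nonneg _ _ (Real.rpow_nonneg (Nat.cast_nonneg _) _)
    refine h2.trans ?_
    rw [Finset.sum_singleton, ← hgm i]
    exact coreTerm_le' hδ (hg₀ _ (hgi i)).1 hg9 (hsize i)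
  have h2 : 2 * (2 : ℝ) ^ (-((p i : ℝ) / (4 * ∑ i' ∈ univ.filter (fun i' => i' = i), m i' : ℕ))) ≤
      (g i : ℝ) ^ (-δ) * (1 / 3) := by
    rw [hfilt]
    refine (hest i).2.trans ?_
    have h3 : (9 : ℝ) ≤ (g i : ℝ) ^ δ := by
      have h4 : (g i : ℝ) ^ δ = ((g i : ℝ) ^ (δ / 2)) ^ 2 := by
        rw [← Real.rpow_natCast, ← Real.rpow_mul hg0.le]
        congr 1
        push_cast
        ring
      rw [h4]
      have := (hg₀ _ (hgi i)).1
      nlinarith
    have h4 := pow_two_le h3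
    rwa [← Real.rpow_neg hg0.le] at h4
  linarith

end Pool.Agent.Y1.SM
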