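import Mathlib
import Pool.Agent.Y1.SM.Final

/-!
# Almost all CM types of every CM field whose degree has a large prime factor

Let `E` be an arbitrary CM field of degree `2 g`; nothing is assumed about its Galois group or its
subfields. It has `2 ^ g` CM types. Suppose that `g` is divisible by a prime number
`p ≥ g ^ (2 / 3 + δ)` (so it is for a positive proportion, about `log (3 / 2)`, of all numbers `g`).
The second part of the theorem says that all but `g ^ (-δ) * 2 ^ g` of the CM types `Φ` of `E` have
this property: on all powers of the abelian variety of CM type `(E, Φ)` all rational Hodge classes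
are linear combinations of wedge products of rational Hodge classes of degree two, so that the Hodge
conjecture holds for all powers. The bound depends on the degree only and is uniform in `E`. The same
is true for families of CM fields `E i` that are pairwise independent.

The first part is an explicit bound for families of CM fields, of the degrees `2 m i p ^ k i`. It
permits several fields (for instance several types of one field) in one block, if the subfields in
`coreFields` are independent. The main term comes from these subfields `T` of `E`: those that are
not totally real and whose normal closure over `ℚ` has a degree that is not divisible by `p`. If the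
degrees of these subfields are at most `2 D`, the term is `D / p + D √(2 D / (π g))`; one may always
take `D = m`, and `D = 0` if there are no such subfields. The other term is exponentially small.

The proof: the function `c` of a relation for a degenerate CM type is reduced modulo `p`. The
reductions form a module of a Sylow subgroup `P` of the Galois group, so that there is a nonzero
relation modulo `p` that is invariant under `P`. If it is invariant under the normal closure `K` of
`P`, it is a relation for the subfield `T` cut out by `K`, and an eigenvalue argument bounds the
number of the CM types. If it is not, then it is a polynomial of high degree along the orbits of some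
element of order a power of `p`, which gives many independent relations. The number of the
`P`-invariant functions of a given degree is small, by a greedy argument.
-/

namespace Pool.Agent.Y1.SM.UniformInField

open NumberField Module Finset Pool.Agent.H204R3.CM Pool.Agent.H977R3.CM Pool.Agent.Y1.SM

/-- The families of CM types `Φ i` of the fields `E i` such that on some product of powers of the
abelian varieties of CM type `(E i, Φ i)` some rational Hodge class is not a linear combination of
wedge products of rational Hodge classes of degree two. -/
def exceptionalFamilies {ι : Type} (E : ι → Type) [∀ i, Field (E i)] [∀ i, NumberField (E i)] :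
    Set (∀ i, Set (E i →+* ℂ)) :=
  {Φ | (∀ i, IsCMType (Φ i)) ∧ ¬ ∀ (J : Type) [Fintype J] (t : J → ι), HodgeGenerated (per Φ t)}

/-- **Almost all CM types, uniformly in the CM field.** -/
theorem result :
    (∀ (ι J : Type) [Fintype ι] [Fintype J] [DecidableEq J] (b : ι → J) (p : J → ℕ)
      (E : ι → Type) [∀ i, Field (E i)] [∀ i, NumberField (E i)] [∀ i, IsCMField (E i)]
      (m k : ι → ℕ) (D : ι → ℝ), (∀ j, (p j).Prime ∧ p j ≠ 2) →
      (∀ i, finrank ℚ (E i) = 2 * (m i * p (b i) ^ k i)) → Compatible b p E → (∀ i, 0 ≤ D i) →
      (∀ i, D i = m i ∨ ∀ T ∈ coreFields (p (b i)) (E i), (finrank ℚ T : ℝ) ≤ 2 * D i) →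
      (∀ j, p j ^ (16 * ∑ i ∈ univ.filter (fun i => b i = j), m i) ≤ 2 ^ p j) →
      ((exceptionalFamilies E).ncard : ℝ) ≤ 2 ^ (∑ i, m i * p (b i) ^ k i) *
        (∑ i, D i * (1 / p (b i) + Real.sqrt (2 * D i / (Real.pi * (m i * p (b i) ^ k i)))) +
          ∑ j, 2 * (2 : ℝ) ^ (-((p j : ℝ) / (4 * ∑ i ∈ univ.filter (fun i => b i = j), m i))))) ∧
    (∀ δ : ℝ, 0 < δ → ∃ g₀ : ℕ, ∀ (ι : Type) [Fintype ι] (E : ι → Type) [∀ i, Field (E i)]
      [∀ i, NumberField (E i)] [∀ i, IsCMField (E i)] (g p : ι → ℕ),
      (∀ i, finrank ℚ (E i) = 2 * g i) → (∀ i, g₀ ≤ g i) →
      (∀ i, (p i).Prime ∧ p i ∣ g i ∧ (g i : ℝ) ^ (2 / 3 + δ) ≤ p i) → PairwiseIndep E →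
      ((exceptionalFamilies E).ncard : ℝ) ≤ 2 ^ (∑ i, g i) * ∑ i, (g i : ℝ) ^ (-δ)) :=
  ⟨fun _ _ _ _ _ b p E _ _ _ m k D hp hdeg hcomp hD0 hD hbig =>
    explicit_bound b p E m k D hp hdeg hcomp hD0 hD hbig, fun δ hδ => uniform_bound δ hδ⟩

end Pool.Agent.Y1.SM.UniformInField
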